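import Pool.Agent.Lib.MP_cf17a0_co.S1.C.E8a

/-! # Core region, `k t ≤ 2/3`: constructors for the regimes -/

namespace Pool.Agent.SignedQ.Core

open Real Finset Pool.Agent.SignedQ.An

/-- `c k ≤ a (n+k)` gives `a (n+k-2) ≥ c (k-2) ≥ α k` for `k ≥ k0` (`(n+k-2) k ≥ (n+k)(k-2)`,
`c(k-2)/k` increasing), so `X ≥ a(n+k-2)t ≥ α k t` (`XX_ge`). The quantities `ρ_P`, `κ_P` decrease
with `P`, `ρ_P ≥ 1`. -/
theorem regD_mk {n k a : ℕ} {t α τm r R2 κ : ℝ} {P1 k0 c : ℕ} (hp : Par n k a) (hk : 26 ≤ k)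
    (ht : 0 < t) (hkt : k * t ≤ 2 / 3) (hτ : (k * t) ^ 2 ≤ τm) (hk0 : 4 ≤ k0) (hk0' : k0 ≤ k)
    (hc : c * k ≤ a * (n + k)) (hα : 0 < α) (hα' : α * k0 ≤ c * (k0 - 2)) (h13 : 13 ≤ P1)
    (hP1 : P1 ≤ k / 2) (hr : r = 1 ∨ (k / 2 = P1 ∧ r = (2 * P1 + 1) / (2 * P1 - 1)))
    (hR2 : ((2 * (P1 : ℝ) + 1) / (2 * P1 - 1)) ^ 2 ≤ R2)
    (hκ : 1 + 3 / (P1 : ℝ) + 11 / (4 * (P1 : ℝ) ^ 2) ≤ κ) : RegD n k a t α τm r R2 κ P1 := by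
  have hkR : (26 : ℝ) ≤ k := by exact_mod_cast hk
  have hP1k : (P1 : ℝ) ≤ ((k / 2 : ℕ) : ℝ) := by exact_mod_cast hP1
  have h13R : (13 : ℝ) ≤ P1 := by exact_mod_cast h13
  have hk0R : (4 : ℝ) ≤ k0 := by exact_mod_cast hk0
  have hk0R' : (k0 : ℝ) ≤ k := by exact_mod_cast hk0'
  have hcR : (c : ℝ) * k ≤ a * (n + k) := by exact_mod_cast hc
  have ha0 : (0 : ℝ) ≤ a := Nat.cast_nonneg a
  have hn0 : (0 : ℝ) ≤ n := Nat.cast_nonneg n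
  have hc0 : (0 : ℝ) ≤ c := Nat.cast_nonneg c
  have h1 : α ≤ c := by
    have h2 : α * k0 ≤ c * k0 := by nlinarith
    exact le_of_mul_le_mul_right h2 (by linarith)
  have h2 : α * k ≤ c * (k - 2) := by nlinarith
  have h3 : (c : ℝ) * (k - 2) ≤ a * (n + k - 2) := by
    have h4 : (c : ℝ) * (k - 2) * k ≤ a * (n + k - 2) * k := by
      have h5 : (c : ℝ) * k * (k - 2) ≤ a * (n + k) * (k - 2) :=
        mul_le_mul_of_nonneg_right hcR (by linarith)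
      have h6 : 0 ≤ (a : ℝ) * n := mul_nonneg ha0 hn0
      nlinarith
    exact le_of_mul_le_mul_right h4 (by linarith)
  have hX : α * (k * t) ≤ XX n k a t := by
    refine le_trans ?_ (XX_ge hp.1 (by omega) ht)
    have h4 : α * k ≤ a * (n + k - 2) := h2.trans h3
    calc α * (k * t) = α * k * t := by ring
      _ ≤ _ := mul_le_mul_of_nonneg_right h4 ht.le
  have hmono : (2 * ((k / 2 : ℕ) : ℝ) + 1) / (2 * ((k / 2 : ℕ) : ℝ) - 1) ≤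
      (2 * (P1 : ℝ) + 1) / (2 * P1 - 1) := by
    rw [div_le_div_iff₀ (by linarith) (by linarith)]
    nlinarith
  have hge : 1 ≤ (2 * ((k / 2 : ℕ) : ℝ) + 1) / (2 * ((k / 2 : ℕ) : ℝ) - 1) := by
    rw [le_div_iff₀ (by linarith)]
    linarith
  refine ⟨hp.1, hp.2.1, hp.2.2.1, hk, ht, hkt, h13, hP1, hα, hX, hτ, ?_, ?_, ?_, ?_⟩
  · rcases hr with hr | ⟨_, hr⟩
    · rw [hr]
      norm_num
    · rw [hr]
      exact div_pos (by linarith) (by linarith)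
  · rcases hr with hr | ⟨hr1, hr⟩
    · rw [hr]
      exact hge
    · rw [hr, hr1]
  · exact (pow_le_pow_left₀ (by linarith) hmono 2).trans hR2
  · refine le_trans ?_ hκ
    have h7 : 3 / ((k / 2 : ℕ) : ℝ) ≤ 3 / (P1 : ℝ) :=
      div_le_div_of_nonneg_left (by norm_num) (by linarith) hP1k
    have h8 : 11 / (4 * ((k / 2 : ℕ) : ℝ) ^ 2) ≤ 11 / (4 * (P1 : ℝ) ^ 2) := by
      refine div_le_div_of_nonneg_left (by norm_num) (by positivity) ?_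
      have : (P1 : ℝ) ^ 2 ≤ ((k / 2 : ℕ) : ℝ) ^ 2 := pow_le_pow_left₀ (by linarith) hP1k 2
      linarith
    linarith

private theorem E8b_XX_pos {n k a : ℕ} {t α τm r R2 κ : ℝ} {P1 : ℕ}
    (D : RegD n k a t α τm r R2 κ P1) : 0 < XX n k a t := by
  have hk : (0 : ℝ) < k := by
    have := D.hk
    exact_mod_cast (by omega : 0 < k)
  exact lt_of_lt_of_le (mul_pos D.hα (mul_pos hk D.ht)) D.hX

private theorem E8b_tau {n k a : ℕ} {t α τm r R2 κ : ℝ} {P1 : ℕ}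
    (D : RegD n k a t α τm r R2 κ P1) : α ^ 2 * (k * t) ^ 2 ≤ XX n k a t ^ 2 := by
  have hk : (0 : ℝ) < k := by
    have := D.hk
    exact_mod_cast (by omega : 0 < k)
  have h := pow_le_pow_left₀ (mul_pos D.hα (mul_pos hk D.ht)).le D.hX 2
  rwa [mul_pow] at h

/-- `regI_of` with `regkey3` (three times). -/
theorem regI_key3 {n k a : ℕ} {t α τm r R2 κ : ℝ} {P1 : ℕ} (D : RegD n k a t α τm r R2 κ P1)
    {M ρ s sc kk xm : ℝ} {P0 : ℕ} (hP0 : 2 ≤ P0) (hP01 : P0 ≤ P1) (hM : 0 < M) (hMρ : M < ρ)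
    (hs0 : 0 < s) (hm : 15 / 2 ≤ α ^ 2 * τm)
    (K : ∀ A B : ℝ, (A = M / P1 ∧ B = κ / 9) ∨
      (A = M * R2 / ((ρ - M) * P1) ∧ B = M * (73 / 200) / ((ρ - M) * P1) + κ / 9) ∨
      (A = 0 ∧ B = s ^ 2 / P1 + κ / 9) →
      0 ≤ A ∧ 0 ≤ B ∧ 25 / 3 * A + 25 * B / α ^ 2 ≤ 25 / 9 * r ∧
      (A + 15 / 2 * B / α ^ 2) * (5 + 15 / 2 * r) ≤ 5 / 9 * r * (15 / 2) ∧
      (A + B * τm) * (5 + r * (α ^ 2 * τm)) ≤ 5 / 9 * r * (α ^ 2 * τm))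
    (hsc0 : 0 < sc) (hxm : (k + 1) * t ≤ xm) (hsc : sc ≤ 1 - xm ^ 2 / (3 + 3 / 5 * xm ^ 2))
    (hkk : 1 + 1 / (k : ℝ) ≤ kk) : RegI n k a t M ρ s sc kk P0 := by
  have hX0 : 0 < XX n k a t := E8b_XX_pos D
  have hq := q_XX_le hX0
  have hα2 : 0 < α ^ 2 := pow_pos D.hα 2
  have hx : 0 < XX n k a t ^ 2 := pow_pos hX0 2
  have hτ0 : 0 ≤ (k * t) ^ 2 := sq_nonneg _
  have hτ : α ^ 2 * (k * t) ^ 2 ≤ XX n k a t ^ 2 := E8b_tau D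
  have key : ∀ A B : ℝ, (A = M / P1 ∧ B = κ / 9) ∨
      (A = M * R2 / ((ρ - M) * P1) ∧ B = M * (73 / 200) / ((ρ - M) * P1) + κ / 9) ∨
      (A = 0 ∧ B = s ^ 2 / P1 + κ / 9) →
      A * (1 - sf (XX n k a t)) + B * (k * t) ^ 2 ≤
        5 / 9 * (r * XX n k a t ^ 2 / (5 + r * XX n k a t ^ 2)) := by
    intro A B hAB
    obtain ⟨hA, hB, h0, h1, h2⟩ := K A B hAB
    exact regkey3 hA hB D.hr0 hα2 h0 h1 h2 hm hx hτ0 hτ D.hτ hq.1 hq.2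
  refine regI_of D hP0 hP01 hM hMρ hs0 (key _ _ (Or.inl ⟨rfl, rfl⟩))
    (key _ _ (Or.inr (Or.inl ⟨rfl, rfl⟩))) ?_ hsc0 hxm hsc hkk
  have h3 := key _ _ (Or.inr (Or.inr ⟨rfl, rfl⟩))
  rw [zero_mul, zero_add] at h3
  exact h3

/-- `regI_of` with `regkey1` (three times), `r = 1`. -/
theorem regI_key1 {n k a : ℕ} {t α τm R2 κ : ℝ} {P1 : ℕ} (D : RegD n k a t α τm 1 R2 κ P1)
    {M ρ s sc kk xm : ℝ} {P0 : ℕ} (hP0 : 2 ≤ P0) (hP01 : P0 ≤ P1) (hM : 0 < M) (hMρ : M < ρ)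
    (hs0 : 0 < s) (hm : 0 < τm)
    (K : ∀ A B : ℝ, (A = M / P1 ∧ B = κ / 9) ∨
      (A = M * R2 / ((ρ - M) * P1) ∧ B = M * (73 / 200) / ((ρ - M) * P1) + κ / 9) ∨
      (A = 0 ∧ B = s ^ 2 / P1 + κ / 9) →
      0 ≤ A ∧ 0 ≤ B ∧ 3 * A ≤ 1 ∧
      B * τm * (5 + α ^ 2 * τm) ≤ (5 / 9 - 5 / 3 * A) * (α ^ 2 * τm))
    (hsc0 : 0 < sc) (hxm : (k + 1) * t ≤ xm) (hsc : sc ≤ 1 - xm ^ 2 / (3 + 3 / 5 * xm ^ 2))
    (hkk : 1 + 1 / (k : ℝ) ≤ kk) : RegI n k a t M ρ s sc kk P0 := by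
  have hX0 : 0 < XX n k a t := E8b_XX_pos D
  have hq := q_XX_le hX0
  have hα2 : 0 < α ^ 2 := pow_pos D.hα 2
  have hx : 0 < XX n k a t ^ 2 := pow_pos hX0 2
  have hτ0 : 0 ≤ (k * t) ^ 2 := sq_nonneg _
  have hτ : α ^ 2 * (k * t) ^ 2 ≤ XX n k a t ^ 2 := E8b_tau D
  have key : ∀ A B : ℝ, (A = M / P1 ∧ B = κ / 9) ∨
      (A = M * R2 / ((ρ - M) * P1) ∧ B = M * (73 / 200) / ((ρ - M) * P1) + κ / 9) ∨
      (A = 0 ∧ B = s ^ 2 / P1 + κ / 9) →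
      A * (1 - sf (XX n k a t)) + B * (k * t) ^ 2 ≤
        5 / 9 * (1 * XX n k a t ^ 2 / (5 + 1 * XX n k a t ^ 2)) := by
    intro A B hAB
    obtain ⟨hA, hB, hA3, h2⟩ := K A B hAB
    rw [one_mul]
    exact regkey1 hA hB hα2 hA3 hm h2 hx hτ0 hτ D.hτ hq.1
  refine regI_of D hP0 hP01 hM hMρ hs0 (key _ _ (Or.inl ⟨rfl, rfl⟩))
    (key _ _ (Or.inr (Or.inl ⟨rfl, rfl⟩))) ?_ hsc0 hxm hsc hkk
  have h3 := key _ _ (Or.inr (Or.inr ⟨rfl, rfl⟩))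
  rw [zero_mul, zero_add] at h3
  exact h3

/-- `4000 t ≤ k` gives `k t ≤ k²/4000`. -/
theorem kt_le {k : ℕ} {t : ℝ} (hd : DOM k t) {k1 : ℕ} (hk1 : k ≤ k1) :
    k * t ≤ (k1 : ℝ) ^ 2 / 4000 := by
  have hk0 : (0 : ℝ) ≤ k := Nat.cast_nonneg k
  have h1 : (k : ℝ) ≤ k1 := by exact_mod_cast hk1
  have h2 := hd.2.2.2.1
  have h3 : (k : ℝ) * (4000 * t) ≤ k * k := mul_le_mul_of_nonneg_left h2 hk0
  have h4 : (k : ℝ) * k ≤ k1 * k1 := mul_le_mul h1 h1 hk0 (hk0.trans h1)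
  nlinarith

end Pool.Agent.SignedQ.Core
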