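import Pool.Agent.Lib.MP_cf17a0_co.S1.C.C0

/-! # Core region: the structure of the modulus ratio

Notation: `W_j = WW t θ j = 1 + sin²(jθ/2)/sinh²(jt/2)`, `r_j = fac j t θ / fac j t 0`,
`P = k/2`, `K = (k+1)/2`.
-/

namespace Pool.Agent.SignedQ.Core

open Real Finset Pool.Agent.SignedQ.An

/-- `fac v t 0 = sinh²(vt/2)` (`fac_zero_even`), `fac_even`; divide. -/
theorem rr_even {v : ℕ} (hv : Even v) (hv1 : 1 ≤ v) {t : ℝ} (ht : 0 < t) (θ : ℝ) :
    fac v t θ / fac v t 0 = WW t θ v := by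
  have hs : 0 < sinh (v * t / 2) := by
    rw [sinh_pos_iff]
    have : (1 : ℝ) ≤ v := by exact_mod_cast hv1
    positivity
  unfold WW FF
  rw [fac_even hv, fac_zero_even hv, show (v : ℝ) * (θ / 2) = v * θ / 2 by ring,
    show (v : ℝ) * (t / 2) = v * t / 2 by ring]
  field_simp

/-- `fac v t θ / fac v t 0 = 1 - sin²/cosh²` and `FF_double`. -/
theorem rr_odd {v : ℕ} (hv : Odd v) {t : ℝ} (ht : 0 < t) (θ : ℝ) :
    fac v t θ / fac v t 0 = WW t θ (2 * v) / WW t θ v := by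
  have hv1 : 0 < v := hv.pos
  have hv' : (0 : ℝ) < v := by exact_mod_cast hv1
  have h := FF_double (h := t / 2) (y := θ / 2) (j := v) (by linarith) hv'
  have hc : 0 < cosh (v * t / 2) := cosh_pos _
  have h1 : fac v t θ / fac v t 0 = 1 - sin (v * (θ / 2)) ^ 2 / cosh (v * (t / 2)) ^ 2 := by
    rw [fac_odd hv, fac_zero_odd hv, show (v : ℝ) * (θ / 2) = v * θ / 2 by ring,
      show (v : ℝ) * (t / 2) = v * t / 2 by ring]
    field_simp
  rw [h1, eq_div_iff (WW_pos t θ v).ne']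
  unfold WW
  rw [← h]
  ring

theorem rr_odd_le_one {v : ℕ} (hv : Odd v) {t : ℝ} (ht : 0 < t) (θ : ℝ) :
    fac v t θ / fac v t 0 ≤ 1 := by
  have hc : 0 < cosh (v * t / 2) := cosh_pos _
  rw [fac_odd hv, fac_zero_odd hv, div_le_one (by positivity)]
  have := sq_nonneg (sin (v * θ / 2))
  linarith

/-- Denominators, exact identity; induction on `P` (`P = 1`: both sides are `1/W_2`; step: both
sides are multiplied by `W_{2P+1} / (W_{4P+2} W_{2P+2})`). With `r_1 = W_2/W_1`. -/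
theorem den_identity {P : ℕ} (hP : 1 ≤ P) {t : ℝ} (ht : 0 < t) (θ : ℝ) :
    (WW t θ 2 / WW t θ 1) * ∏ v ∈ range (2 * P), (fac (v + 1) t θ / fac (v + 1) t 0)⁻¹ =
      ((∏ i ∈ Icc 1 (P - 1), WW t θ (2 * i + 1) / WW t θ (2 * i)) *
        (WW t θ (4 * P + 2) / WW t θ (2 * P))) * ∏ i ∈ Icc 1 P, (WW t θ (cc i))⁻¹ := by
  have r1 : fac 1 t θ / fac 1 t 0 = WW t θ 2 / WW t θ 1 := by
    have := rr_odd (v := 1) odd_one ht θ
    rw [this]
    norm_num
  have w := fun j => (WW_pos t θ j).ne'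
  have ho : ∀ P : ℕ, (fac (2 * P + 1) t θ / fac (2 * P + 1) t 0)⁻¹ =
      WW t θ (2 * P + 1) / WW t θ (4 * P + 2) := by
    intro P
    rw [rr_odd (v := 2 * P + 1) ⟨P, rfl⟩ ht θ, inv_div]
    congr 2
    · push_cast; ring
    · push_cast; ring
  have hev : ∀ P : ℕ, (fac (2 * P + 2) t θ / fac (2 * P + 2) t 0)⁻¹ =
      (WW t θ (2 * P + 2))⁻¹ := by
    intro P
    rw [rr_even (v := 2 * P + 2) ⟨P + 1, by ring⟩ (by omega) ht θ]
    congr 2
    push_cast
    ring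
  induction P, hP using Nat.le_induction with
  | base =>
    rw [show 2 * 1 = 0 + 1 + 1 by norm_num, prod_range_succ, prod_range_succ, prod_range_zero]
    have h1 : (fac 1 t θ / fac 1 t 0)⁻¹ = WW t θ 1 / WW t θ 2 := by rw [r1, inv_div]
    have h2 : (fac 2 t θ / fac 2 t 0)⁻¹ = (WW t θ 2)⁻¹ := by
      rw [rr_even (v := 2) even_two (by norm_num) ht θ]
      norm_num
    rw [show 0 + 1 + 1 = 2 by norm_num, show 0 + 1 = 1 by norm_num, h1, h2]
    simp only [Icc_self, prod_singleton]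
    unfold cc
    norm_num
    have := w 1
    have := w 2
    have := w 6
    field_simp
  | succ P hP ih =>
    rw [show 2 * (P + 1) = 2 * P + 1 + 1 by ring, prod_range_succ, prod_range_succ, ← mul_assoc,
      ← mul_assoc, ih, ho P]
    have h2 := hev P
    rw [show 2 * P + 1 + 1 = 2 * P + 2 by ring, h2]
    obtain ⟨Q, rfl⟩ : ∃ Q, P = Q + 1 := ⟨P - 1, by omega⟩
    have hA : ∏ i ∈ Icc 1 (Q + 1), WW t θ (2 * (i : ℝ) + 1) / WW t θ (2 * (i : ℝ)) =
        (∏ i ∈ Icc 1 Q, WW t θ (2 * (i : ℝ) + 1) / WW t θ (2 * (i : ℝ))) *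
          (WW t θ (2 * ((Q + 1 : ℕ) : ℝ) + 1) / WW t θ (2 * ((Q + 1 : ℕ) : ℝ))) :=
      prod_Icc_succ_top (by omega : 1 ≤ Q + 1) _
    have hB : ∏ i ∈ Icc 1 (Q + 1 + 1), (WW t θ (cc i))⁻¹ =
        (∏ i ∈ Icc 1 (Q + 1), (WW t θ (cc i))⁻¹) * (WW t θ (cc (Q + 1 + 1)))⁻¹ :=
      prod_Icc_succ_top (by omega : 1 ≤ Q + 1 + 1) _
    rw [Nat.add_sub_cancel, Nat.add_sub_cancel, hA, hB]
    have a1 := w (2 * ((Q + 1 : ℕ) : ℝ))
    have a2 := w (2 * ((Q + 1 : ℕ) : ℝ) + 1)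
    have a3 := w (4 * ((Q + 1 : ℕ) : ℝ) + 2)
    have a4 := w (2 * ((Q + 1 : ℕ) : ℝ) + 2)
    have a5 := w (4 * ((Q + 1 + 1 : ℕ) : ℝ) + 2)
    have e1 : (2 * ((Q + 1 + 1 : ℕ) : ℝ)) = 2 * ((Q + 1 : ℕ) : ℝ) + 2 := by push_cast; ring
    have e2 : cc (Q + 1 + 1) = 4 * ((Q + 1 + 1 : ℕ) : ℝ) + 2 := rfl
    rw [e1, e2]
    generalize ∏ i ∈ Icc 1 Q, WW t θ (2 * (i : ℝ) + 1) / WW t θ (2 * (i : ℝ)) = A
    generalize ∏ i ∈ Icc 1 (Q + 1), (WW t θ (cc i))⁻¹ = A'
    field_simp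

/-- `r_1^K ≤ r_1` (`rr_odd_le_one`), `den_identity`, and for odd `k` the extra factor
`r_k⁻¹ = W_k / W_{2k}` (`k = 2P+1`, `2k = 4P+2`). -/
theorem den_le {k : ℕ} (hk : 2 ≤ k) {t : ℝ} (ht : 0 < t) (θ : ℝ) :
    (fac 1 t θ / fac 1 t 0) ^ ((k + 1) / 2) *
      ∏ v ∈ range k, (fac (v + 1) t θ / fac (v + 1) t 0)⁻¹ ≤
      LL k t θ * ∏ i ∈ Icc 1 (k / 2), (WW t θ (cc i))⁻¹ := by
  have r1 : fac 1 t θ / fac 1 t 0 = WW t θ 2 / WW t θ 1 := by
    have := rr_odd (v := 1) odd_one ht θ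
    rw [this]
    norm_num
  have r1le := rr_odd_le_one (v := 1) odd_one ht θ
  have r1pos : 0 < fac 1 t θ / fac 1 t 0 :=
    div_pos (fac_pos le_rfl ht θ) (fac_pos le_rfl ht 0)
  have hK : (fac 1 t θ / fac 1 t 0) ^ ((k + 1) / 2) ≤ WW t θ 2 / WW t θ 1 := by
    rw [← r1]
    have : (k + 1) / 2 = (k + 1) / 2 - 1 + 1 := by omega
    rw [this, pow_succ]
    exact mul_le_of_le_one_left r1pos.le (pow_le_one₀ r1pos.le r1le)
  have hpos : ∀ v : ℕ, 0 < (fac (v + 1) t θ / fac (v + 1) t 0)⁻¹ := fun v =>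
    inv_pos.2 (div_pos (fac_pos (by omega) ht θ) (fac_pos (by omega) ht 0))
  refine (mul_le_mul_of_nonneg_right hK (prod_nonneg fun v _ => (hpos v).le)).trans (le_of_eq ?_)
  have w := fun j => (WW_pos t θ j).ne'
  unfold LL
  by_cases hke : Even k
  · rw [if_pos hke]
    obtain ⟨P, hP⟩ := hke
    obtain rfl : k = 2 * P := by omega
    rw [show 2 * P / 2 = P by omega]
    exact den_identity (by omega) ht θ
  · rw [if_neg hke]
    have hko := Nat.not_even_iff_odd.1 hke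
    obtain ⟨P, rfl⟩ := hko
    rw [show (2 * P + 1) / 2 = P by omega, prod_range_succ, ← mul_assoc,
      den_identity (by omega) ht θ, rr_odd (v := 2 * P + 1) ⟨P, rfl⟩ ht θ, inv_div]
    obtain ⟨Q, rfl⟩ : ∃ Q, P = Q + 1 := ⟨P - 1, by omega⟩
    have hA : ∏ i ∈ Icc 1 (Q + 1), WW t θ (2 * (i : ℝ) + 1) / WW t θ (2 * (i : ℝ)) =
        (∏ i ∈ Icc 1 Q, WW t θ (2 * (i : ℝ) + 1) / WW t θ (2 * (i : ℝ))) *
          (WW t θ (2 * ((Q + 1 : ℕ) : ℝ) + 1) / WW t θ (2 * ((Q + 1 : ℕ) : ℝ))) :=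
      prod_Icc_succ_top (by omega : 1 ≤ Q + 1) _
    rw [Nat.add_sub_cancel, hA]
    have e1 : ((2 * (Q + 1) + 1 : ℕ) : ℝ) = 2 * ((Q + 1 : ℕ) : ℝ) + 1 := by push_cast; ring
    have e2 : 2 * (2 * ((Q + 1 : ℕ) : ℝ) + 1) = 4 * ((Q + 1 : ℕ) : ℝ) + 2 := by ring
    rw [e1, e2]
    have a1 := w (2 * ((Q + 1 : ℕ) : ℝ))
    have a2 := w (2 * ((Q + 1 : ℕ) : ℝ) + 1)
    have a3 := w (4 * ((Q + 1 : ℕ) : ℝ) + 2)
    generalize ∏ i ∈ Icc 1 Q, WW t θ (2 * (i : ℝ) + 1) / WW t θ (2 * (i : ℝ)) = A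
    generalize ∏ i ∈ Icc 1 (Q + 1), (WW t θ (cc i))⁻¹ = A'
    field_simp

/-- Numerators. `n` even: the factors `v = 2i-2, 2i-1` (`i = 1..P`) are
`r_{a(n+2i-1)} r_{a(n+2i)} = NN_i`, for odd `k` the last one is `≤ 1`. `n` odd (`k` even,
`ν = n-1`): `v = 0` is `r_{a(ν+2)} = NN_1`, the factors `v = 2i-1, 2i` are `NN_{i+1}`
(`i = 1..P-1`), and the last one (`v = k - 1`, odd exponent) is `≤ 1`. -/
theorem num_le {n k a : ℕ} (hnk : Even (n * k)) (ha : Odd a) {t : ℝ} (ht : 0 < t) (θ : ℝ) :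
    ∏ v ∈ range k, (fac (a * (n + v + 1)) t θ / fac (a * (n + v + 1)) t 0) ≤
      ∏ i ∈ Icc 1 (k / 2), NN n a t θ i := by
  have w := fun j => (WW_pos t θ j).ne'
  have hpos : ∀ v : ℕ, 1 ≤ v → 0 < fac v t θ / fac v t 0 := fun v hv =>
    div_pos (fac_pos hv ht θ) (fac_pos hv ht 0)
  have ha1 : 1 ≤ a := ha.pos
  have hb : ∀ m : ℕ, 1 ≤ m → 1 ≤ a * m := fun m hm => Nat.mul_pos ha1 hm
  have hodd : ∀ m : ℕ, Odd m → fac (a * m) t θ / fac (a * m) t 0 =
      WW t θ (2 * (a * m)) / WW t θ (a * m) := by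
    intro m hm
    rw [rr_odd (v := a * m) (ha.mul hm) ht θ]
    push_cast
    rfl
  have heven : ∀ m : ℕ, Even m → 1 ≤ m → fac (a * m) t θ / fac (a * m) t 0 = WW t θ (a * m) := by
    intro m hm hm1
    rw [rr_even (v := a * m) (hm.mul_left a) (hb m hm1) ht θ]
    push_cast
    rfl
  rcases Nat.even_or_odd n with hn | hn
  · have hnu : nu n = n := by unfold nu; obtain ⟨u, hu⟩ := hn; omega
    have hn2 : ¬ n % 2 = 1 := by obtain ⟨u, hu⟩ := hn; omega
    have key : ∀ P : ℕ, ∏ v ∈ range (2 * P), (fac (a * (n + v + 1)) t θ /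
        fac (a * (n + v + 1)) t 0) = ∏ i ∈ Icc 1 P, NN n a t θ i := by
      intro P
      induction P with
      | zero => simp
      | succ P ih =>
        rw [show 2 * (P + 1) = 2 * P + 1 + 1 by ring, prod_range_succ, prod_range_succ, ih,
          prod_Icc_succ_top (by omega : 1 ≤ P + 1), mul_assoc]
        congr 1
        rw [hodd (n + 2 * P + 1) ((hn.add (even_two_mul P)).add_one),
          heven (n + (2 * P + 1) + 1) (by
            have := hn.add (even_two_mul (P + 1))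
            rwa [show n + 2 * (P + 1) = n + (2 * P + 1) + 1 by ring] at this) (by omega)]
        unfold NN dd bb
        rw [if_neg (fun h => hn2 h.1), if_neg (fun h => hn2 h.1), hnu]
        have e1 : ((n + 2 * P + 1 : ℕ) : ℝ) = (n : ℝ) + 2 * ((P + 1 : ℕ) : ℝ) - 1 := by
          push_cast; ring
        have e2 : ((n + (2 * P + 1) + 1 : ℕ) : ℝ) = (n : ℝ) + 2 * ((P + 1 : ℕ) : ℝ) := by
          push_cast; ring
        rw [e1, e2]
        ring
    rcases Nat.even_or_odd k with hk | hk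
    · obtain ⟨P, hP⟩ := hk
      obtain rfl : k = 2 * P := by omega
      rw [show 2 * P / 2 = P by omega]
      exact (key P).le
    · obtain ⟨P, rfl⟩ := hk
      rw [show (2 * P + 1) / 2 = P by omega, prod_range_succ, key P]
      refine mul_le_of_le_one_right ?_ ?_
      · rw [← key P]
        exact prod_nonneg fun v _ => (hpos _ (hb _ (by omega))).le
      · exact rr_odd_le_one (ha.mul ((hn.add (even_two_mul P)).add_one)) ht θ
  · have hk : Even k := by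
      rcases Nat.even_mul.1 hnk with h | h
      · exact absurd h (Nat.not_even_iff_odd.2 hn)
      · exact h
    have hn2 : n % 2 = 1 := Nat.odd_iff.1 hn
    have hnu : nu n + 1 = n := by unfold nu; omega
    have hnu' : (nu n : ℝ) = (n : ℝ) - 1 := by
      have : ((nu n + 1 : ℕ) : ℝ) = n := by rw [hnu]
      push_cast at this
      linarith
    have key : ∀ P : ℕ, ∏ v ∈ range (2 * P + 1), (fac (a * (n + v + 1)) t θ /
        fac (a * (n + v + 1)) t 0) = ∏ i ∈ Icc 1 (P + 1), NN n a t θ i := by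
      intro P
      induction P with
      | zero =>
        rw [Nat.mul_zero, zero_add, prod_range_one, Icc_self, prod_singleton, Nat.add_zero,
          heven (n + 1) hn.add_one (by omega)]
        unfold NN bb
        rw [if_pos ⟨hn2, rfl⟩, hnu']
        congr 2
        push_cast
        ring
      | succ P ih =>
        rw [show 2 * (P + 1) + 1 = 2 * P + 1 + 1 + 1 by ring, prod_range_succ, prod_range_succ, ih,
          prod_Icc_succ_top (by omega : 1 ≤ P + 1 + 1), mul_assoc]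
        congr 1
        rw [hodd (n + (2 * P + 1) + 1) (by
            have := hn.add_even (even_two_mul (P + 1))
            rwa [show n + 2 * (P + 1) = n + (2 * P + 1) + 1 by ring] at this),
          heven (n + (2 * P + 1 + 1) + 1) (by
            have := (hn.add_even (even_two_mul (P + 1))).add_one
            rwa [show n + 2 * (P + 1) + 1 = n + (2 * P + 1 + 1) + 1 by ring] at this) (by omega)]
        unfold NN dd bb
        have hi : ¬ (n % 2 = 1 ∧ P + 1 + 1 = 1) := fun h => by omega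
        rw [if_neg hi, if_neg hi, hnu']
        have e1 : ((n + (2 * P + 1) + 1 : ℕ) : ℝ) = (n : ℝ) - 1 + 2 * ((P + 1 + 1 : ℕ) : ℝ) - 1 := by
          push_cast; ring
        have e2 : ((n + (2 * P + 1 + 1) + 1 : ℕ) : ℝ) = (n : ℝ) - 1 + 2 * ((P + 1 + 1 : ℕ) : ℝ) := by
          push_cast; ring
        rw [e1, e2]
        ring
    obtain ⟨P, hP⟩ := hk
    rcases Nat.eq_zero_or_pos P with rfl | hP0
    · obtain rfl : k = 0 := by omega
      simp
    obtain ⟨Q, rfl⟩ : ∃ Q, P = Q + 1 := ⟨P - 1, by omega⟩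
    obtain rfl : k = 2 * Q + 1 + 1 := by omega
    rw [show (2 * Q + 1 + 1) / 2 = Q + 1 by omega, prod_range_succ, key Q]
    refine mul_le_of_le_one_right ?_ ?_
    · rw [← key Q]
      exact prod_nonneg fun v _ => (hpos _ (hb _ (by omega))).le
    · refine rr_odd_le_one (ha.mul ?_) ht θ
      have := hn.add_even (even_two_mul (Q + 1))
      rwa [show n + 2 * (Q + 1) = n + (2 * Q + 1) + 1 by ring] at this

/-- **Structure of the modulus ratio.** -/
theorem GG_ratio_le {n k a : ℕ} (hnk : Even (n * k)) (ha : Odd a) (hk : 2 ≤ k) {t : ℝ}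
    (ht : 0 < t) (θ : ℝ) :
    GG n k a t θ / GG n k a t 0 ≤
      LL k t θ * ∏ i ∈ Icc 1 (k / 2), (NN n a t θ i / WW t θ (cc i)) := by
  have ha1 : 1 ≤ a := ha.pos
  have hpos : ∀ v : ℕ, 1 ≤ v → ∀ θ, 0 < fac v t θ := fun v hv θ => fac_pos hv ht θ
  have hb : ∀ v : ℕ, 1 ≤ a * (n + v + 1) := fun v => Nat.mul_pos ha1 (by omega)
  have e : GG n k a t θ / GG n k a t 0 = ((fac 1 t θ / fac 1 t 0) ^ ((k + 1) / 2) *
      ∏ v ∈ range k, (fac (v + 1) t θ / fac (v + 1) t 0)⁻¹) *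
      ∏ v ∈ range k, (fac (a * (n + v + 1)) t θ / fac (a * (n + v + 1)) t 0) := by
    unfold GG
    rw [div_pow, mul_div_mul_comm, ← prod_div_distrib, mul_assoc, ← prod_mul_distrib]
    congr 1
    refine prod_congr rfl fun v _ => ?_
    have := (hpos _ (hb v) θ).ne'
    have := (hpos _ (hb v) 0).ne'
    have := (hpos (v + 1) (by omega) θ).ne'
    have := (hpos (v + 1) (by omega) 0).ne'
    field_simp
  have h1 := den_le hk ht θ
  have h2 := num_le hnk ha ht θ (k := k) (n := n)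
  have h3 : 0 ≤ ∏ v ∈ range k, (fac (a * (n + v + 1)) t θ / fac (a * (n + v + 1)) t 0) :=
    prod_nonneg fun v _ => (div_pos (hpos _ (hb v) θ) (hpos _ (hb v) 0)).le
  have h4 : 0 ≤ (fac 1 t θ / fac 1 t 0) ^ ((k + 1) / 2) *
      ∏ v ∈ range k, (fac (v + 1) t θ / fac (v + 1) t 0)⁻¹ :=
    mul_nonneg (pow_nonneg (div_pos (hpos 1 le_rfl θ) (hpos 1 le_rfl 0)).le _)
      (prod_nonneg fun v _ => (inv_pos.2 (div_pos (hpos (v + 1) (by omega) θ)
        (hpos (v + 1) (by omega) 0))).le)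
  rw [e]
  refine (mul_le_mul h1 h2 h3 (h4.trans h1)).trans (le_of_eq ?_)
  rw [mul_assoc, ← prod_mul_distrib]
  congr 1
  refine prod_congr rfl fun i _ => ?_
  rw [div_eq_mul_inv, mul_comm]

end Pool.Agent.SignedQ.Core
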