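import Pool.Agent.Lib.MP_cf17a0_co.S1.C.C3
import Pool.Agent.Lib.MP_cf17a0_co.Mg.G033

/-! # Core region, `k t ≤ 2/3`: the pointwise bound -/

namespace Pool.Agent.SignedQ.Core

open Real Finset Pool.Agent.SignedQ.An

/-- The data of a regime: `M` and `ρ` are the constants of the bound
`|F|² (1 + c u²/ρ)^M ≤ 1`, `s ≤ σ/k`, `s_c ≤ s((k+1)t)`, `1 + 1/k ≤ κ`. -/
structure RegI (n k a : ℕ) (t M ρ s sc kk : ℝ) (P0 : ℕ) : Prop where
  hnk : Even (n * k)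
  ha : Odd a
  ha3 : 3 ≤ a
  hk : 26 ≤ k
  ht : 0 < t
  hkt : k * t ≤ 2 / 3
  hP0 : 2 ≤ P0
  hP : P0 ≤ k / 2
  hM : 0 < M
  hMq : M * (1 - sf (XX n k a t)) ≤ SS n k a t
  hρ0 : 0 < ρ
  hρ : M * (t ^ 2 * sig2 n k a t) ≤ ρ * SS n k a t
  hs0 : 0 < s
  hs : s ^ 2 * (k * t) ^ 2 ≤ SS n k a t
  hsc0 : 0 < sc
  hsc : sc ≤ sf ((k + 1) * t)
  hkk : 1 + 1 / (k : ℝ) ≤ kk

theorem SS_pos {n k a : ℕ} {t M ρ s sc kk : ℝ} {P0 : ℕ} (R : RegI n k a t M ρ s sc kk P0) :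
    0 < SS n k a t := by
  have hk : (0 : ℝ) < k := by
    have := R.hk
    exact_mod_cast (by omega : 0 < k)
  have ht := R.ht
  have hs := R.hs0
  exact lt_of_lt_of_le (by positivity) R.hs

theorem sig2_pos' {n k a : ℕ} {t M ρ s sc kk : ℝ} {P0 : ℕ} (R : RegI n k a t M ρ s sc kk P0) :
    0 < sig2 n k a t := by
  have h1 := SS_pos R
  have h2 := SS_le_sig2 R.hnk R.ha (by have := R.hk; omega) R.ht
  have ht := R.ht
  exact (mul_pos_iff_of_pos_left (by positivity : 0 < t ^ 2)).1 (lt_of_lt_of_le h1 h2)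

/-- `σ ≥ s k`, because `σ² t² ≥ SS ≥ s² (kt)²` (`SS_le_sig2`). -/
theorem s_le_sigma {n k a : ℕ} {t M ρ s sc kk : ℝ} {P0 : ℕ} (R : RegI n k a t M ρ s sc kk P0) :
    s * k ≤ sigma n k a t := by
  have hk : (0 : ℝ) < k := by
    have := R.hk
    exact_mod_cast (by omega : 0 < k)
  have ht := R.ht
  have hs := R.hs0
  unfold sigma
  apply Real.le_sqrt_of_sq_le
  have h1 := R.hs
  have h2 := SS_le_sig2 R.hnk R.ha (by have := R.hk; omega) R.ht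
  have h3 : t ^ 2 * (s * k) ^ 2 ≤ t ^ 2 * sig2 n k a t := by
    refine le_trans (le_of_eq ?_) (h1.trans h2)
    ring
  exact le_of_mul_le_mul_left h3 (by positivity)

/-- `b_P (2P-1)/P ≤ d_P`. -/
theorem bb_le_dd {n k a : ℕ} (hk : 4 ≤ k) :
    (2 - 1 / ((k / 2 : ℕ) : ℝ)) * bb n a (k / 2) ≤ dd n a (k / 2) := by
  have hP : (2 : ℝ) ≤ ((k / 2 : ℕ) : ℝ) := by exact_mod_cast (by omega : 2 ≤ k / 2)
  unfold bb dd
  rw [if_neg (fun h => by omega)]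
  generalize ((k / 2 : ℕ) : ℝ) = P at hP
  have hP0 : 0 < P := by linarith
  have hn : (0 : ℝ) ≤ nu n := Nat.cast_nonneg _
  have ha : (0 : ℝ) ≤ a := Nat.cast_nonneg _
  have h1 : (2 - 1 / P) * (nu n + 2 * P) ≤ 2 * (nu n + 2 * P - 1) := by
    have h2 : (2 - 1 / P) * (nu n + 2 * P) = 2 * (nu n + 2 * P - 1) - nu n / P := by
      field_simp
      ring
    rw [h2]
    have h3 : 0 ≤ (nu n : ℝ) / P := by positivity
    linarith
  calc (2 - 1 / P) * (a * (nu n + 2 * P)) = a * ((2 - 1 / P) * (nu n + 2 * P)) := by ring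
    _ ≤ a * (2 * (nu n + 2 * P - 1)) := mul_le_mul_of_nonneg_left h1 ha
    _ = 2 * (a * (nu n + 2 * P - 1)) := by ring

/-- If some `b_i y > π` (so `b_P y > π`) and `σθ ≤ U`, then `π/z ≥ x`. Otherwise `π/z < x`,
`X ≥ (2 - 1/P) b_P h > (2-1/P) π/z`, `Y = ρ_P X² ≥ W_P π²/z²`, `W_P = 4 - 1/P²`, and
`U² ≥ z² t²σ² ≥ z² SS ≥ (5P/9) z²Y/(5+Y) - (P/9) κ_P (kθ)² ≥ (P/9)(5 W π²/(5 + W x²) - κ vb²)`
(`SS_ge`; `y ↦ y/(5+y)` increasing, `W_P ≥ W_{P0}`, `κ_P ≤ κ_{P0}`, and `P ≥ P0`), a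
contradiction to `hx`. -/
theorem beyond_pi {n k a : ℕ} {t M ρ s sc kk : ℝ} {P0 : ℕ} (R : RegI n k a t M ρ s sc kk P0)
    {θ U vb x : ℝ} (hθ : 0 < θ) (hkθ : k * θ ≤ vb) (hU : sigma n k a t * θ ≤ U)
    (hx0 : 0 < x)
    (hx : 9 * U ^ 2 / P0 + (1 + 3 / P0 + 11 / (4 * P0 ^ 2)) * vb ^ 2 <
      5 * π ^ 2 * (4 - 1 / (P0 : ℝ) ^ 2) / (5 + (4 - 1 / (P0 : ℝ) ^ 2) * x ^ 2))
    {i : ℕ} (hi : i ∈ Icc 1 (k / 2)) (hb : π < bb n a i * (θ / 2)) : x ≤ π / (θ / t) := by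
  by_contra hcon
  push Not at hcon
  have hk4 : 4 ≤ k := by have := R.hk; omega
  have ht := R.ht
  obtain ⟨z, hz⟩ : ∃ z, z = θ / t := ⟨_, rfl⟩
  rw [← hz] at hcon
  have hz0 : 0 < z := by rw [hz]; exact div_pos hθ ht
  have hzt : z * t = θ := by rw [hz]; exact div_mul_cancel₀ _ ht.ne'
  obtain ⟨hi1, hi2⟩ := mem_Icc.1 hi
  have ha0 : (0 : ℝ) < a := by
    have := R.ha3
    exact_mod_cast (by omega : 0 < a)
  have hiP : (i : ℝ) ≤ ((k / 2 : ℕ) : ℝ) := by exact_mod_cast hi2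
  have hbP : bb n a i ≤ bb n a (k / 2) := by
    unfold bb
    refine mul_le_mul_of_nonneg_left ?_ ha0.le
    linarith
  have hbpi : π < bb n a (k / 2) * (θ / 2) :=
    lt_of_lt_of_le hb (mul_le_mul_of_nonneg_right hbP (by positivity))
  have hP2 : (2 : ℝ) ≤ P0 := by exact_mod_cast R.hP0
  have hPP : (P0 : ℝ) ≤ ((k / 2 : ℕ) : ℝ) := by exact_mod_cast R.hP
  have hbh : π / z < bb n a (k / 2) * (t / 2) := by
    rw [div_lt_iff₀ hz0]
    calc π < bb n a (k / 2) * (θ / 2) := hbpi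
      _ = bb n a (k / 2) * (t / 2) * z := by rw [← hzt]; ring
  have hbd := bb_le_dd (n := n) (a := a) hk4
  have hSS := SS_ge (n := n) R.ha3 hk4 ht
  have hsig := SS_le_sig2 R.hnk R.ha (by omega) ht
  have hXdef : XX n k a t = dd n a (k / 2) * (t / 2) := rfl
  have hkθ0 : 0 ≤ (k : ℝ) * θ := by positivity
  generalize ((k / 2 : ℕ) : ℝ) = P at *
  have hP0 : 0 < P := by linarith
  have hX : (2 - 1 / P) * (π / z) < XX n k a t := by
    have h2 : 0 < 2 - 1 / P := by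
      have : 1 / P ≤ 1 := by
        rw [div_le_one hP0]
        linarith
      linarith
    calc (2 - 1 / P) * (π / z) < (2 - 1 / P) * (bb n a (k / 2) * (t / 2)) :=
          mul_lt_mul_of_pos_left hbh h2
      _ = ((2 - 1 / P) * bb n a (k / 2)) * (t / 2) := by ring
      _ ≤ dd n a (k / 2) * (t / 2) := mul_le_mul_of_nonneg_right hbd (by positivity)
      _ = XX n k a t := hXdef.symm
  generalize XX n k a t = X at *
  have hq0 : 0 < π / z := div_pos Real.pi_pos hz0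
  have hx2 : (π / z) ^ 2 < x ^ 2 := by
    have := hq0.le
    exact pow_lt_pow_left₀ hcon hq0.le (by norm_num)
  have hWle : 4 - 1 / (P0 : ℝ) ^ 2 ≤ 4 - 1 / P ^ 2 := by
    have : 1 / P ^ 2 ≤ 1 / (P0 : ℝ) ^ 2 := by
      apply one_div_le_one_div_of_le
      · positivity
      · exact pow_le_pow_left₀ (by positivity) hPP 2
    linarith
  have hW0 : 0 < 4 - 1 / (P0 : ℝ) ^ 2 := by
    have : 1 / (P0 : ℝ) ^ 2 ≤ 1 := by
      rw [div_le_one (by positivity)]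
      nlinarith
    linarith
  have h2P : 0 < 2 * P - 1 := by linarith
  have hY : (4 - 1 / (P0 : ℝ) ^ 2) * (π / z) ^ 2 ≤ (2 * P + 1) / (2 * P - 1) * X ^ 2 := by
    have h1 : (2 * P + 1) / (2 * P - 1) * ((2 - 1 / P) * (π / z)) ^ 2 =
        (4 - 1 / P ^ 2) * (π / z) ^ 2 := by
      have h3 : (2 * P + 1) / (2 * P - 1) * (2 - 1 / P) ^ 2 = 4 - 1 / P ^ 2 := by
        field_simp
        ring
      calc (2 * P + 1) / (2 * P - 1) * ((2 - 1 / P) * (π / z)) ^ 2 =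
          ((2 * P + 1) / (2 * P - 1) * (2 - 1 / P) ^ 2) * (π / z) ^ 2 := by ring
        _ = _ := by rw [h3]
    have h2 : ((2 - 1 / P) * (π / z)) ^ 2 ≤ X ^ 2 := by
      have h4 : 0 ≤ (2 - 1 / P) * (π / z) := by
        have : 1 / P ≤ 1 := by
          rw [div_le_one hP0]
          linarith
        exact mul_nonneg (by linarith) hq0.le
      exact pow_le_pow_left₀ h4 hX.le 2
    calc (4 - 1 / (P0 : ℝ) ^ 2) * (π / z) ^ 2 ≤ (4 - 1 / P ^ 2) * (π / z) ^ 2 :=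
          mul_le_mul_of_nonneg_right hWle (sq_nonneg _)
      _ = (2 * P + 1) / (2 * P - 1) * ((2 - 1 / P) * (π / z)) ^ 2 := h1.symm
      _ ≤ _ := mul_le_mul_of_nonneg_left h2 (by positivity)
  generalize (2 * P + 1) / (2 * P - 1) * X ^ 2 = Y at *
  set W := 4 - 1 / (P0 : ℝ) ^ 2 with hWdef
  have hY0 : 0 < Y := lt_of_lt_of_le (by positivity) hY
  have hB : W * π ^ 2 / (5 + W * x ^ 2) ≤ z ^ 2 * (Y / (5 + Y)) := by
    have h1 : z ^ 2 * (π / z) ^ 2 = π ^ 2 := by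
      field_simp
    have h2 : W * (π / z) ^ 2 / (5 + W * (π / z) ^ 2) ≤ Y / (5 + Y) := by
      rw [div_le_div_iff₀ (by positivity) (by positivity)]
      nlinarith
    calc W * π ^ 2 / (5 + W * x ^ 2) ≤ W * π ^ 2 / (5 + W * (π / z) ^ 2) := by
          apply div_le_div_of_nonneg_left (by positivity) (by positivity)
          have := mul_le_mul_of_nonneg_left hx2.le hW0.le
          linarith
      _ = z ^ 2 * (W * (π / z) ^ 2 / (5 + W * (π / z) ^ 2)) := by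
          rw [← h1]
          ring
      _ ≤ _ := mul_le_mul_of_nonneg_left h2 (sq_nonneg _)
  have hσ2 : (sigma n k a t * θ) ^ 2 ≤ U ^ 2 := by
    apply pow_le_pow_left₀ _ hU 2
    exact mul_nonneg (Real.sqrt_nonneg _) hθ.le
  have hσ : sigma n k a t ^ 2 = sig2 n k a t := Real.sq_sqrt (sig2_pos' R).le
  have h5 : z ^ 2 * (t ^ 2 * sig2 n k a t) ≤ U ^ 2 := by
    calc z ^ 2 * (t ^ 2 * sig2 n k a t) = (sigma n k a t * θ) ^ 2 := by
          rw [← hσ, ← hzt]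
          ring
      _ ≤ U ^ 2 := hσ2
  have hkap : 1 + 3 / P + 11 / (4 * P ^ 2) ≤ 1 + 3 / (P0 : ℝ) + 11 / (4 * (P0 : ℝ) ^ 2) := by
    have e1 : 3 / P ≤ 3 / (P0 : ℝ) := by
      apply div_le_div_of_nonneg_left (by norm_num) (by positivity) hPP
    have e2 : 11 / (4 * P ^ 2) ≤ 11 / (4 * (P0 : ℝ) ^ 2) := by
      apply div_le_div_of_nonneg_left (by norm_num) (by positivity)
      have := pow_le_pow_left₀ (by positivity) hPP 2
      linarith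
    linarith
  have hκ0 : 0 ≤ 1 + 3 / P + 11 / (4 * P ^ 2) := by positivity
  have hvb2 : (k * θ) ^ 2 ≤ vb ^ 2 := pow_le_pow_left₀ hkθ0 hkθ 2
  -- main
  have h6 : z ^ 2 * (5 * P / 9 * (Y / (5 + Y)) -
      P / 9 * (1 + 3 / P + 11 / (4 * P ^ 2)) * (k * t) ^ 2) ≤ U ^ 2 :=
    (mul_le_mul_of_nonneg_left (hSS.trans hsig) (sq_nonneg z)).trans h5
  have h7 : 5 * P / 9 * (W * π ^ 2 / (5 + W * x ^ 2)) ≤
      U ^ 2 + P / 9 * ((1 + 3 / P + 11 / (4 * P ^ 2)) * vb ^ 2) := by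
    have e1 : 5 * P / 9 * (W * π ^ 2 / (5 + W * x ^ 2)) ≤ 5 * P / 9 * (z ^ 2 * (Y / (5 + Y))) :=
      mul_le_mul_of_nonneg_left hB (by positivity)
    have e2 : P / 9 * ((1 + 3 / P + 11 / (4 * P ^ 2)) * (k * θ) ^ 2) ≤
        P / 9 * ((1 + 3 / P + 11 / (4 * P ^ 2)) * vb ^ 2) :=
      mul_le_mul_of_nonneg_left (mul_le_mul_of_nonneg_left hvb2 hκ0) (by positivity)
    have e3 : z ^ 2 * (5 * P / 9 * (Y / (5 + Y)) -
      P / 9 * (1 + 3 / P + 11 / (4 * P ^ 2)) * (k * t) ^ 2) =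
      5 * P / 9 * (z ^ 2 * (Y / (5 + Y))) -
        P / 9 * ((1 + 3 / P + 11 / (4 * P ^ 2)) * (k * θ) ^ 2) := by
      rw [← hzt]
      ring
    rw [e3] at h6
    linarith
  have h8 : 5 * (W * π ^ 2 / (5 + W * x ^ 2)) ≤
      9 * U ^ 2 / P + (1 + 3 / P + 11 / (4 * P ^ 2)) * vb ^ 2 := by
    have e1 : 5 * (W * π ^ 2 / (5 + W * x ^ 2)) =
        9 / P * (5 * P / 9 * (W * π ^ 2 / (5 + W * x ^ 2))) := by
      field_simp
    have e2 : 9 * U ^ 2 / P + (1 + 3 / P + 11 / (4 * P ^ 2)) * vb ^ 2 =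
        9 / P * (U ^ 2 + P / 9 * ((1 + 3 / P + 11 / (4 * P ^ 2)) * vb ^ 2)) := by
      generalize (1 + 3 / P + 11 / (4 * P ^ 2)) * vb ^ 2 = A
      field_simp
    rw [e1, e2]
    exact mul_le_mul_of_nonneg_left h7 (by positivity)
  have h9 : 9 * U ^ 2 / P ≤ 9 * U ^ 2 / P0 :=
    div_le_div_of_nonneg_left (by positivity) (by positivity) hPP
  have h10 : (1 + 3 / P + 11 / (4 * P ^ 2)) * vb ^ 2 ≤
      (1 + 3 / (P0 : ℝ) + 11 / (4 * (P0 : ℝ) ^ 2)) * vb ^ 2 :=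
    mul_le_mul_of_nonneg_right hkap (sq_nonneg _)
  have h11 : 5 * π ^ 2 * W / (5 + W * x ^ 2) = 5 * (W * π ^ 2 / (5 + W * x ^ 2)) := by ring
  rw [h11] at hx
  linarith

end Pool.Agent.SignedQ.Core
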