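import Pool.Agent.Lib.MP_cf17a0_co.S1.C.C0

/-! # Core region: the variance against `∑ S_i`

`h = t/2`, `s = sf`, `P = k/2`. Put `U v = t² var1 v t`; then `U v = - s(vh)` for even `v ≥ 2`
and `U v = s(vh) - s(2vh)` for odd `v` (`x²/cosh²x = x²/sinh²x - (2x)²/sinh²(2x)`).
`t² sig2 = K U(1) - ∑_{v=1}^k U(v) + ∑_{v=1}^k U(a(n+v))`, `K = (k+1)/2`.

DENOMINATORS, `k = 2P`: `- U(2i-1) - U(2i) = (s(2ih) - s((2i-1)h)) + s((4i-2)h)`.
Upper bound: `s(2ih) ≤ s((2i-1)h)`, `K U(1) ≤ K h²` (`sf_add_mono`), and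
`∑_{i≤P} s((4i-2)h) = ∑_{i≤P} s((4i+2)h) + s(2h) - s((4P+2)h)`, `(4P+2)h = (k+1)t`.
Lower bound: `K U(1) - ∑ ≥ ∑_{i ≤ P} s((4i+2)h)`, because the rest is
`P(s(h)-s(2h)) - s(h) + ∑_{i<P} (s(2ih) - s((2i+1)h)) + s(2Ph) + s(2h) - s((4P+2)h) ≥ 0`.
`k = 2P+1`: extra `- U(2P+1) = - s((2P+1)h) + s((4P+2)h)`; upper bound: rest
`≤ K h² + s(2h) - s(kh)`; lower bound: the rest is
`K(s(h)-s(2h)) - s(h) + ∑_{i≤P}(s(2ih) - s((2i+1)h)) + s(2h) ≥ 0`.

NUMERATORS, `n` even: `U(b_i) + U(b_i') = - s(d_i h) + (s(b_i h) - s(b_i' h))`,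
`b_i = a(n+2i-1)`, `b_i' = a(n+2i)`, `i = 1..P`; `0 ≤ ∑ (s(b_i h) - s(b_i'h)) ≤
s(b_1 h) - s(b_P' h)` (telescoping with `b_i' ≤ b_{i+1}`); for odd `k` the extra
`U(b_{P+1}) = s(b_{P+1} h) - s(2 b_{P+1}h)`, `b_{P+1} = a(n+k)`. Total rest `≤ 1 - s(a(n+k)t)`.
`n` odd, `k = 2P`, `ν = n - 1`: `U(a(ν+2)) = - s(d_1 h)`, then the pairs `i = 2..P` and the extra
`U(a(ν+2P+1)) = s(a(n+k)h) - s(a(n+k)t)`; total rest `≤ 1 - s(a(n+k)t)`. -/

namespace Pool.Agent.SignedQ.Core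

open Real Finset Pool.Agent.SignedQ.An

theorem tvar1_even {v : ℕ} (hv : Even v) (hv1 : 1 ≤ v) {t : ℝ} (ht : 0 < t) :
    t ^ 2 * var1 v t = - sf (v * (t / 2)) := by
  have hv' : (1 : ℝ) ≤ v := by exact_mod_cast hv1
  have hs : 0 < sinh (v * t / 2) := sinh_pos_iff.2 (by positivity)
  unfold var1 sf
  rw [if_pos hv, show (v : ℝ) * (t / 2) = v * t / 2 by ring]
  field_simp

theorem tvar1_odd {v : ℕ} (hv : Odd v) {t : ℝ} (ht : 0 < t) :
    t ^ 2 * var1 v t = sf (v * (t / 2)) - sf (2 * v * (t / 2)) := by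
  have hv' : (0 : ℝ) < v := by exact_mod_cast hv.pos
  have hs : 0 < sinh (v * t / 2) := sinh_pos_iff.2 (by positivity)
  have hc : 0 < cosh (v * t / 2) := cosh_pos _
  have h2 : sinh (2 * (v * t / 2)) = 2 * sinh (v * t / 2) * cosh (v * t / 2) := sinh_two_mul _
  unfold var1 sf
  rw [if_neg (Nat.not_even_iff_odd.2 hv), show (v : ℝ) * (t / 2) = v * t / 2 by ring,
    show 2 * (v : ℝ) * (t / 2) = 2 * (v * t / 2) by ring, h2]
  have h3 := cosh_sq (v * t / 2)
  field_simp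
  have h4 : cosh (t * v / 2) ^ 2 = sinh (t * v / 2) ^ 2 + 1 := cosh_sq (t * v / 2)
  linarith

theorem den_aux_upper (P : ℕ) {t : ℝ} (ht : 0 < t) :
    -∑ v ∈ range (2 * P), t ^ 2 * var1 (v + 1) t ≤
      ∑ i ∈ Icc 1 P, sf (cc i * (t / 2)) + sf (2 * (t / 2)) - sf ((4 * P + 2) * (t / 2)) := by
  induction P with
  | zero => simp
  | succ P ih =>
    rw [show 2 * (P + 1) = 2 * P + 1 + 1 by ring, sum_range_succ, sum_range_succ,
      sum_Icc_succ_top (by omega : 1 ≤ P + 1)]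
    have h1 := tvar1_odd (v := 2 * P + 1) ⟨P, rfl⟩ ht
    have h2 := tvar1_even (v := 2 * P + 1 + 1) ⟨P + 1, by ring⟩ (by omega) ht
    rw [h1, h2]
    have e1 : 2 * ((2 * P + 1 : ℕ) : ℝ) * (t / 2) = (4 * (P : ℝ) + 2) * (t / 2) := by
      push_cast; ring
    have e2 : cc (P + 1) = 4 * ((P + 1 : ℕ) : ℝ) + 2 := rfl
    have h3 : sf (((2 * P + 1 + 1 : ℕ) : ℝ) * (t / 2)) ≤ sf (((2 * P + 1 : ℕ) : ℝ) * (t / 2)) := by
      refine sf_anti (by positivity) ?_
      push_cast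
      nlinarith
    rw [e1, e2]
    linarith

theorem den_aux_lower (P : ℕ) (hP : 1 ≤ P) {t : ℝ} (ht : 0 < t) :
    ∑ i ∈ Icc 1 P, sf (cc i * (t / 2)) - sf (t / 2) + sf (2 * P * (t / 2)) + sf (2 * (t / 2)) -
      sf ((4 * P + 2) * (t / 2)) ≤ -∑ v ∈ range (2 * P), t ^ 2 * var1 (v + 1) t := by
  induction P, hP using Nat.le_induction with
  | base =>
    rw [show 2 * 1 = 0 + 1 + 1 by norm_num, sum_range_succ, sum_range_succ, sum_range_zero,
      Icc_self, sum_singleton]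
    have h1 := tvar1_odd (v := 0 + 1) odd_one ht
    have h2 := tvar1_even (v := 0 + 1 + 1) even_two (by norm_num) ht
    rw [h1, h2]
    unfold cc
    push_cast
    norm_num
    linarith
  | succ P hP ih =>
    rw [show 2 * (P + 1) = 2 * P + 1 + 1 by ring, sum_range_succ, sum_range_succ,
      sum_Icc_succ_top (by omega : 1 ≤ P + 1)]
    have h1 := tvar1_odd (v := 2 * P + 1) ⟨P, rfl⟩ ht
    have h2 := tvar1_even (v := 2 * P + 1 + 1) ⟨P + 1, by ring⟩ (by omega) ht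
    rw [h1, h2]
    have hP' : (1 : ℝ) ≤ P := by exact_mod_cast hP
    have e1 : 2 * ((2 * P + 1 : ℕ) : ℝ) * (t / 2) = (4 * (P : ℝ) + 2) * (t / 2) := by
      push_cast; ring
    have e2 : cc (P + 1) = 4 * ((P + 1 : ℕ) : ℝ) + 2 := rfl
    have e3 : (((2 * P + 1 + 1 : ℕ) : ℝ) * (t / 2)) = 2 * ((P + 1 : ℕ) : ℝ) * (t / 2) := by
      push_cast; ring
    have h3 : sf (((2 * P + 1 : ℕ) : ℝ) * (t / 2)) ≤ sf (2 * (P : ℝ) * (t / 2)) := by
      refine sf_anti (by positivity) ?_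
      push_cast
      nlinarith
    rw [e1, e2, e3]
    linarith

theorem den_upper {k : ℕ} (hk : 2 ≤ k) {t : ℝ} (ht : 0 < t) :
    ((k + 1) / 2 : ℕ) * (t ^ 2 * var1 1 t) - ∑ v ∈ range k, t ^ 2 * var1 (v + 1) t ≤
      ∑ i ∈ Icc 1 (k / 2), sf (cc i * (t / 2)) + (k + 1) / 2 * (t / 2) ^ 2 +
        (1 - sf ((k + 1) * t)) := by
  have hh : 0 < t / 2 := by linarith
  have hK : ((k + 1) / 2 : ℕ) * (t ^ 2 * var1 1 t) ≤ (k + 1) / 2 * (t / 2) ^ 2 := by
    have h1 := tvar1_odd (v := 1) odd_one ht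
    have h2 := sf_add_mono (x := t / 2) (y := 2 * (t / 2)) hh (by linarith)
    rw [h1]
    push_cast
    rw [one_mul, mul_one]
    have h3 : (((k + 1) / 2 : ℕ) : ℝ) ≤ (k + 1) / 2 := by
      have := @Nat.cast_div_le ℝ _ _ _ (k + 1) 2
      push_cast at this
      exact this
    have h4 : sf (t / 2) - sf (2 * (t / 2)) ≤ (t / 2) ^ 2 := by nlinarith
    calc (((k + 1) / 2 : ℕ) : ℝ) * (sf (t / 2) - sf (2 * (t / 2)))
        ≤ (((k + 1) / 2 : ℕ) : ℝ) * (t / 2) ^ 2 := mul_le_mul_of_nonneg_left h4 (Nat.cast_nonneg _)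
      _ ≤ _ := mul_le_mul_of_nonneg_right h3 (sq_nonneg _)
  have h1 := sf_le_one (x := 2 * (t / 2)) (by linarith)
  rcases Nat.even_or_odd k with hk' | hk'
  · obtain ⟨P, hP⟩ := hk'
    obtain rfl : k = 2 * P := by omega
    have h2 := den_aux_upper P ht
    rw [show 2 * P / 2 = P by omega]
    have e : (4 * (P : ℝ) + 2) * (t / 2) = (((2 * P : ℕ) : ℝ) + 1) * t := by push_cast; ring
    rw [e] at h2
    linarith
  · obtain ⟨P, rfl⟩ := hk'
    have h2 := den_aux_upper P ht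
    rw [show (2 * P + 1) / 2 = P by omega, sum_range_succ]
    have h3 := tvar1_odd (v := 2 * P + 1) ⟨P, rfl⟩ ht
    rw [h3]
    have e : 2 * ((2 * P + 1 : ℕ) : ℝ) * (t / 2) = (4 * (P : ℝ) + 2) * (t / 2) := by
      push_cast; ring
    rw [e]
    have h4 : sf ((((2 * P + 1 : ℕ) : ℝ) + 1) * t) ≤ sf (((2 * P + 1 : ℕ) : ℝ) * (t / 2)) := by
      refine sf_anti (by positivity) ?_
      have : (0 : ℝ) ≤ ((2 * P + 1 : ℕ) : ℝ) := Nat.cast_nonneg _
      nlinarith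
    linarith

theorem den_lower {k : ℕ} (hk : 2 ≤ k) {t : ℝ} (ht : 0 < t) :
    ∑ i ∈ Icc 1 (k / 2), sf (cc i * (t / 2)) ≤
    ((k + 1) / 2 : ℕ) * (t ^ 2 * var1 1 t) - ∑ v ∈ range k, t ^ 2 * var1 (v + 1) t := by
  have hh : 0 < t / 2 := by linarith
  have hU1 : t ^ 2 * var1 1 t = sf (t / 2) - sf (2 * (t / 2)) := by
    have h1 := tvar1_odd (v := 1) odd_one ht
    rw [h1]
    push_cast
    rw [one_mul, mul_one]
  have hd : sf (2 * (t / 2)) ≤ sf (t / 2) := sf_anti hh (by linarith)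
  rw [hU1]
  rcases Nat.even_or_odd k with hk' | hk'
  · obtain ⟨P, hP⟩ := hk'
    obtain rfl : k = 2 * P := by omega
    have hP1 : 1 ≤ P := by omega
    have hP' : (1 : ℝ) ≤ P := by exact_mod_cast hP1
    have h2 := den_aux_lower P hP1 ht
    rw [show 2 * P / 2 = P by omega, show (2 * P + 1) / 2 = P by omega]
    have h3 : sf ((4 * (P : ℝ) + 2) * (t / 2)) ≤ sf (2 * (P : ℝ) * (t / 2)) := by
      refine sf_anti (by positivity) ?_
      nlinarith
    nlinarith [mul_nonneg (show 0 ≤ (P : ℝ) - 1 by linarith)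
      (show 0 ≤ sf (t / 2) - sf (2 * (t / 2)) by linarith)]
  · obtain ⟨P, rfl⟩ := hk'
    have hP1 : 1 ≤ P := by omega
    have hP' : (1 : ℝ) ≤ P := by exact_mod_cast hP1
    have h2 := den_aux_lower P hP1 ht
    rw [show (2 * P + 1) / 2 = P by omega, show (2 * P + 1 + 1) / 2 = P + 1 by omega,
      sum_range_succ]
    have h3 := tvar1_odd (v := 2 * P + 1) ⟨P, rfl⟩ ht
    rw [h3]
    have e : 2 * ((2 * P + 1 : ℕ) : ℝ) * (t / 2) = (4 * (P : ℝ) + 2) * (t / 2) := by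
      push_cast; ring
    rw [e]
    have h4 : sf (((2 * P + 1 : ℕ) : ℝ) * (t / 2)) ≤ sf (2 * (P : ℝ) * (t / 2)) := by
      refine sf_anti (by positivity) ?_
      push_cast
      nlinarith
    push_cast at h4 ⊢
    nlinarith [mul_nonneg (show 0 ≤ (P : ℝ) by linarith)
      (show 0 ≤ sf (t / 2) - sf (2 * (t / 2)) by linarith)]

/-- `n` even, `2 P` factors -/
theorem num_aux_even {n a : ℕ} (hn : Even n) (ha : Odd a) {t : ℝ} (ht : 0 < t) (P : ℕ)
    (hP : 1 ≤ P) :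
    (-∑ i ∈ Icc 1 P, sf (dd n a i * (t / 2)) ≤
      ∑ v ∈ range (2 * P), t ^ 2 * var1 (a * (n + v + 1)) t) ∧
    ∑ v ∈ range (2 * P), t ^ 2 * var1 (a * (n + v + 1)) t ≤
      -∑ i ∈ Icc 1 P, sf (dd n a i * (t / 2)) + 1 - sf (a * (n + 2 * P) * (t / 2)) := by
  have ha1 : (1 : ℝ) ≤ a := by exact_mod_cast ha.pos
  have hn0 : (0 : ℝ) ≤ n := Nat.cast_nonneg n
  have hnu : nu n = n := by unfold nu; obtain ⟨u, hu⟩ := hn; omega
  have hn2 : ¬ n % 2 = 1 := by obtain ⟨u, hu⟩ := hn; omega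
  -- one pair
  have pair : ∀ P : ℕ, t ^ 2 * var1 (a * (n + 2 * P + 1)) t +
      t ^ 2 * var1 (a * (n + (2 * P + 1) + 1)) t =
      -sf (dd n a (P + 1) * (t / 2)) + (sf (a * (n + 2 * P + 1) * (t / 2)) -
        sf (a * (n + 2 * ((P + 1 : ℕ) : ℝ)) * (t / 2))) := by
    intro P
    have h1 := tvar1_odd (v := a * (n + 2 * P + 1)) (ha.mul ((hn.add (even_two_mul P)).add_one)) ht
    have hev : Even (a * (n + (2 * P + 1) + 1)) := by
      refine Even.mul_left ?_ a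
      have := hn.add (even_two_mul (P + 1))
      rwa [show n + 2 * (P + 1) = n + (2 * P + 1) + 1 by ring] at this
    have h2 := tvar1_even hev (Nat.mul_pos ha.pos (by omega)) ht
    rw [h1, h2]
    have e1 : dd n a (P + 1) = 2 * ((a * (n + 2 * P + 1) : ℕ) : ℝ) := by
      unfold dd
      rw [if_neg (fun h => hn2 h.1), hnu]
      push_cast
      ring
    rw [e1]
    push_cast
    have e2 : (a : ℝ) * (n + (2 * P + 1) + 1) * (t / 2) = a * (n + 2 * (P + 1)) * (t / 2) := by ring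
    rw [e2]
    ring
  have hsucc : ∀ P : ℕ, ∑ v ∈ range (2 * (P + 1)), t ^ 2 * var1 (a * (n + v + 1)) t =
      ∑ v ∈ range (2 * P), t ^ 2 * var1 (a * (n + v + 1)) t +
      (t ^ 2 * var1 (a * (n + 2 * P + 1)) t + t ^ 2 * var1 (a * (n + (2 * P + 1) + 1)) t) := by
    intro P
    rw [show 2 * (P + 1) = 2 * P + 1 + 1 by ring, sum_range_succ, sum_range_succ]
    ring
  induction P, hP using Nat.le_induction with
  | base =>
    have h1 := hsucc 0
    rw [pair 0] at h1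
    simp only [Nat.mul_zero, sum_range_zero, zero_add, Nat.cast_zero, mul_zero, add_zero,
      Nat.cast_one, mul_one] at h1
    rw [show 2 * 1 = 2 by norm_num, h1, Icc_self, sum_singleton]
    have h2 : sf (a * (n + 2) * (t / 2)) ≤ sf (a * (n + 1) * (t / 2)) := by
      refine sf_anti (by positivity) ?_
      nlinarith
    have h3 := sf_le_one (x := a * (n + 1) * (t / 2)) (by positivity)
    norm_num
    constructor
    · linarith
    · linarith
  | succ P hP ih =>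
    have hP' : (1 : ℝ) ≤ P := by exact_mod_cast hP
    rw [hsucc P, pair P, sum_Icc_succ_top (by omega : 1 ≤ P + 1)]
    have h2 : sf (a * (n + 2 * ((P + 1 : ℕ) : ℝ)) * (t / 2)) ≤
        sf (a * (n + 2 * P + 1) * (t / 2)) := by
      refine sf_anti (by positivity) ?_
      push_cast
      nlinarith
    have h3 : sf (a * (n + 2 * P + 1) * (t / 2)) ≤ sf (a * (n + 2 * P) * (t / 2)) := by
      refine sf_anti (by positivity) ?_
      nlinarith
    obtain ⟨i1, i2⟩ := ih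
    constructor <;> linarith

/-- `n` odd, `2 Q + 1` factors -/
theorem num_aux_odd {n a : ℕ} (hn : Odd n) (ha : Odd a) {t : ℝ} (ht : 0 < t) (Q : ℕ) :
    (-∑ i ∈ Icc 1 (Q + 1), sf (dd n a i * (t / 2)) ≤
      ∑ v ∈ range (2 * Q + 1), t ^ 2 * var1 (a * (n + v + 1)) t) ∧
    ∑ v ∈ range (2 * Q + 1), t ^ 2 * var1 (a * (n + v + 1)) t ≤
      -∑ i ∈ Icc 1 (Q + 1), sf (dd n a i * (t / 2)) + 1 - sf (a * (n + 2 * Q + 1) * (t / 2)) := by
  have ha1 : (1 : ℝ) ≤ a := by exact_mod_cast ha.pos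
  have hn0 : (0 : ℝ) ≤ n := Nat.cast_nonneg n
  have hn2 : n % 2 = 1 := Nat.odd_iff.1 hn
  have hnu : nu n + 1 = n := by unfold nu; omega
  have hnu' : (nu n : ℝ) = (n : ℝ) - 1 := by
    have : ((nu n + 1 : ℕ) : ℝ) = n := by rw [hnu]
    push_cast at this
    linarith
  induction Q with
  | zero =>
    have h2 := tvar1_even (v := a * (n + 0 + 1)) (Even.mul_left (by simpa using hn.add_one) a)
      (Nat.mul_pos ha.pos (by omega)) ht
    rw [Nat.mul_zero, zero_add, sum_range_one, h2, Icc_self, sum_singleton]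
    have e1 : dd n a 1 = ((a * (n + 0 + 1) : ℕ) : ℝ) := by
      unfold dd
      rw [if_pos ⟨hn2, rfl⟩, hnu']
      push_cast
      ring
    rw [e1]
    have h3 := sf_le_one (x := a * (n + 2 * ((0 : ℕ) : ℝ) + 1) * (t / 2)) (by positivity)
    constructor <;> linarith
  | succ Q ih =>
    have hodd : Odd (a * (n + (2 * Q + 1) + 1)) := by
      refine ha.mul ?_
      have := hn.add_even (even_two_mul (Q + 1))
      rwa [show n + 2 * (Q + 1) = n + (2 * Q + 1) + 1 by ring] at this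
    have hev : Even (a * (n + (2 * Q + 1 + 1) + 1)) := by
      refine Even.mul_left ?_ a
      have := (hn.add_even (even_two_mul (Q + 1))).add_one
      rwa [show n + 2 * (Q + 1) + 1 = n + (2 * Q + 1 + 1) + 1 by ring] at this
    have h1 := tvar1_odd hodd ht
    have h2 := tvar1_even hev (Nat.mul_pos ha.pos (by omega)) ht
    rw [show 2 * (Q + 1) + 1 = 2 * Q + 1 + 1 + 1 by ring, sum_range_succ, sum_range_succ, h1, h2,
      sum_Icc_succ_top (by omega : 1 ≤ Q + 1 + 1)]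
    have e1 : dd n a (Q + 1 + 1) = 2 * ((a * (n + (2 * Q + 1) + 1) : ℕ) : ℝ) := by
      unfold dd
      have hi : ¬ (n % 2 = 1 ∧ Q + 1 + 1 = 1) := fun h => by omega
      rw [if_neg hi, hnu']
      push_cast
      ring
    have e2 : ((a * (n + (2 * Q + 1 + 1) + 1) : ℕ) : ℝ) * (t / 2) =
        a * (n + 2 * ((Q + 1 : ℕ) : ℝ) + 1) * (t / 2) := by
      push_cast
      ring
    rw [e1, e2]
    have h3 : sf (a * (n + 2 * ((Q + 1 : ℕ) : ℝ) + 1) * (t / 2)) ≤
        sf (((a * (n + (2 * Q + 1) + 1) : ℕ) : ℝ) * (t / 2)) := by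
      refine sf_anti (by push_cast; positivity) ?_
      push_cast
      nlinarith
    have h4 : sf (((a * (n + (2 * Q + 1) + 1) : ℕ) : ℝ) * (t / 2)) ≤
        sf (a * (n + 2 * Q + 1) * (t / 2)) := by
      refine sf_anti (by positivity) ?_
      push_cast
      nlinarith
    obtain ⟨i1, i2⟩ := ih
    constructor <;> linarith

theorem num_upper {n k a : ℕ} (hnk : Even (n * k)) (ha : Odd a) (hk : 2 ≤ k) {t : ℝ}
    (ht : 0 < t) :
    ∑ v ∈ range k, t ^ 2 * var1 (a * (n + v + 1)) t ≤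
      - ∑ i ∈ Icc 1 (k / 2), sf (dd n a i * (t / 2)) + (1 - sf (a * (n + k) * t)) := by
  have ha1 : (1 : ℝ) ≤ a := by exact_mod_cast ha.pos
  have hn0 : (0 : ℝ) ≤ n := Nat.cast_nonneg n
  rcases Nat.even_or_odd n with hn | hn
  · rcases Nat.even_or_odd k with hk' | hk'
    · obtain ⟨P, hP⟩ := hk'
      obtain rfl : k = 2 * P := by omega
      have hP1 : 1 ≤ P := by omega
      have hP' : (1 : ℝ) ≤ P := by exact_mod_cast hP1
      have h1 := (num_aux_even hn ha ht P hP1).2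
      rw [show 2 * P / 2 = P by omega]
      have h2 : sf (a * (n + ((2 * P : ℕ) : ℝ)) * t) ≤ sf (a * (n + 2 * P) * (t / 2)) := by
        push_cast
        refine sf_anti (by positivity) ?_
        have : 0 ≤ (a : ℝ) * (n + 2 * P) := by positivity
        nlinarith
      linarith
    · obtain ⟨P, rfl⟩ := hk'
      have hP1 : 1 ≤ P := by omega
      have hP' : (1 : ℝ) ≤ P := by exact_mod_cast hP1
      have h1 := (num_aux_even hn ha ht P hP1).2
      rw [show (2 * P + 1) / 2 = P by omega, sum_range_succ]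
      have h3 := tvar1_odd (v := a * (n + 2 * P + 1)) (ha.mul ((hn.add (even_two_mul P)).add_one)) ht
      rw [h3]
      have e1 : 2 * ((a * (n + 2 * P + 1) : ℕ) : ℝ) * (t / 2) =
          a * (n + ((2 * P + 1 : ℕ) : ℝ)) * t := by push_cast; ring
      have h4 : sf (((a * (n + 2 * P + 1) : ℕ) : ℝ) * (t / 2)) ≤ sf (a * (n + 2 * P) * (t / 2)) := by
        refine sf_anti (by positivity) ?_
        push_cast
        nlinarith
      rw [e1]
      linarith
  · have hk' : Even k := by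
      rcases Nat.even_mul.1 hnk with h | h
      · exact absurd h (Nat.not_even_iff_odd.2 hn)
      · exact h
    obtain ⟨P, hP⟩ := hk'
    obtain ⟨Q, rfl⟩ : ∃ Q, P = Q + 1 := ⟨P - 1, by omega⟩
    obtain rfl : k = 2 * Q + 1 + 1 := by omega
    have h1 := (num_aux_odd hn ha ht Q).2
    rw [show (2 * Q + 1 + 1) / 2 = Q + 1 by omega, sum_range_succ]
    have hodd : Odd (a * (n + (2 * Q + 1) + 1)) := by
      refine ha.mul ?_
      have := hn.add_even (even_two_mul (Q + 1))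
      rwa [show n + 2 * (Q + 1) = n + (2 * Q + 1) + 1 by ring] at this
    have h3 := tvar1_odd hodd ht
    rw [h3]
    have e1 : 2 * ((a * (n + (2 * Q + 1) + 1) : ℕ) : ℝ) * (t / 2) =
        a * (n + ((2 * Q + 1 + 1 : ℕ) : ℝ)) * t := by push_cast; ring
    have h4 : sf (((a * (n + (2 * Q + 1) + 1) : ℕ) : ℝ) * (t / 2)) ≤
        sf (a * (n + 2 * Q + 1) * (t / 2)) := by
      refine sf_anti (by positivity) ?_
      push_cast
      nlinarith
    rw [e1]
    linarith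

theorem num_lower {n k a : ℕ} (hnk : Even (n * k)) (ha : Odd a) (hk : 2 ≤ k) {t : ℝ}
    (ht : 0 < t) :
    - ∑ i ∈ Icc 1 (k / 2), sf (dd n a i * (t / 2)) ≤
      ∑ v ∈ range k, t ^ 2 * var1 (a * (n + v + 1)) t := by
  have ha1 : (1 : ℝ) ≤ a := by exact_mod_cast ha.pos
  have hn0 : (0 : ℝ) ≤ n := Nat.cast_nonneg n
  have hU : ∀ m : ℕ, Odd m → 0 ≤ t ^ 2 * var1 (a * m) t := by
    intro m hm
    rw [tvar1_odd (ha.mul hm) ht]
    have hm' : (1 : ℝ) ≤ m := by exact_mod_cast hm.pos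
    have : sf (2 * ((a * m : ℕ) : ℝ) * (t / 2)) ≤ sf (((a * m : ℕ) : ℝ) * (t / 2)) := by
      refine sf_anti (by push_cast; positivity) ?_
      have : 0 ≤ ((a * m : ℕ) : ℝ) := Nat.cast_nonneg _
      nlinarith
    linarith
  rcases Nat.even_or_odd n with hn | hn
  · rcases Nat.even_or_odd k with hk' | hk'
    · obtain ⟨P, hP⟩ := hk'
      obtain rfl : k = 2 * P := by omega
      rw [show 2 * P / 2 = P by omega]
      exact (num_aux_even hn ha ht P (by omega)).1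
    · obtain ⟨P, rfl⟩ := hk'
      have h1 := (num_aux_even hn ha ht P (by omega)).1
      rw [show (2 * P + 1) / 2 = P by omega, sum_range_succ]
      have h3 := hU (n + 2 * P + 1) ((hn.add (even_two_mul P)).add_one)
      linarith
  · have hk' : Even k := by
      rcases Nat.even_mul.1 hnk with h | h
      · exact absurd h (Nat.not_even_iff_odd.2 hn)
      · exact h
    obtain ⟨P, hP⟩ := hk'
    obtain ⟨Q, rfl⟩ : ∃ Q, P = Q + 1 := ⟨P - 1, by omega⟩
    obtain rfl : k = 2 * Q + 1 + 1 := by omega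
    have h1 := (num_aux_odd hn ha ht Q).1
    rw [show (2 * Q + 1 + 1) / 2 = Q + 1 by omega, sum_range_succ]
    have h3 := hU (n + (2 * Q + 1) + 1) (by
      have := hn.add_even (even_two_mul (Q + 1))
      rwa [show n + 2 * (Q + 1) = n + (2 * Q + 1) + 1 by ring] at this)
    linarith

theorem t2_sig2 (n k a : ℕ) (t : ℝ) : t ^ 2 * sig2 n k a t =
    (((k + 1) / 2 : ℕ) * (t ^ 2 * var1 1 t) - ∑ v ∈ range k, t ^ 2 * var1 (v + 1) t) +
      ∑ v ∈ range k, t ^ 2 * var1 (a * (n + v + 1)) t := by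
  unfold sig2
  rw [mul_add, mul_sum]
  have : ∑ i ∈ range k, t ^ 2 * (var1 (a * (n + i + 1)) t - var1 (i + 1) t) =
      ∑ v ∈ range k, t ^ 2 * var1 (a * (n + v + 1)) t - ∑ v ∈ range k, t ^ 2 * var1 (v + 1) t := by
    rw [← sum_sub_distrib]
    exact sum_congr rfl fun i _ => by ring
  rw [this]
  ring

theorem SS_le_sig2 {n k a : ℕ} (hnk : Even (n * k)) (ha : Odd a) (hk : 2 ≤ k) {t : ℝ}
    (ht : 0 < t) : SS n k a t ≤ t ^ 2 * sig2 n k a t := by
  have h1 := den_lower hk ht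
  have h2 := num_lower hnk ha hk ht
  rw [t2_sig2]
  unfold SS Sd
  rw [sum_sub_distrib]
  linarith

theorem sig2_le_SS {n k a : ℕ} (hnk : Even (n * k)) (ha : Odd a) (hk : 2 ≤ k) {t : ℝ}
    (ht : 0 < t) : t ^ 2 * sig2 n k a t ≤ SS n k a t + (k + 1) / 2 * (t / 2) ^ 2 +
      (1 - sf ((k + 1) * t)) + (1 - sf (a * (n + k) * t)) := by
  have h1 := den_upper hk ht
  have h2 := num_upper hnk ha hk ht
  rw [t2_sig2]
  unfold SS Sd
  rw [sum_sub_distrib]
  linarith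

end Pool.Agent.SignedQ.Core
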