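import Pool.Agent.Lib.MP_cf17a0_co.Mg.G039

/-! # Core region, `k t ≥ 2/3`: the total loss beyond `π` -/

namespace Pool.Agent.SignedQ.Core

open Real Finset Pool.Agent.SignedQ.An

/-- `coth` has derivative `-1/sinh²`, and `1/sinh²` is decreasing:
`d / sinh² y ≤ coth x - coth y` for `0 < x`, `x + d ≤ y`, `0 ≤ d`. -/
theorem coth_step {x y d : ℝ} (hx : 0 < x) (hd : 0 ≤ d) (hxy : x + d ≤ y) :
    d / sinh y ^ 2 ≤ cosh x / sinh x - cosh y / sinh y := by
  have hy : 0 < y := by linarith
  have h1 : 0 < sinh x := sinh_pos_iff.2 hx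
  have h2 : 0 < sinh y := sinh_pos_iff.2 hy
  have h3 : sinh x ≤ sinh y := sinh_le_sinh.2 (by linarith)
  have h4 : cosh x / sinh x - cosh y / sinh y = sinh (y - x) / (sinh x * sinh y) := by
    rw [sinh_sub]
    field_simp
  rw [h4]
  have h5 : d ≤ sinh (y - x) := le_trans (by linarith) (self_le_sinh_iff.2 (by linarith))
  have h6 : sinh x * sinh y ≤ sinh y ^ 2 := by nlinarith
  have h7 : 0 < sinh x * sinh y := mul_pos h1 h2
  calc d / sinh y ^ 2 ≤ d / (sinh x * sinh y) := div_le_div_of_nonneg_left hd h7 h6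
    _ ≤ _ := div_le_div_of_nonneg_right h5 h7.le

/-- `b_{i+1} h - b_i h = 2 a h ≥ 6 h = 3 t` (`h = t/2`). By induction on `P`: if `π/z < b_P h` then
`∑_{i ≤ P} pl ≤ 1/sinh² b + (1/(3t)) (coth b - coth (b_P h))` else the sum is `0`; the first
nonzero term is `≤ 1/sinh² b`, every later one is `≤ (1/(3t)) (coth(b_{i-1}h) - coth(b_i h))`
(`coth_step` with `d = 3t`). Finally `coth > 1`. Note `π < b_i (z t/2) ↔ π/z < b_i (t/2)`. -/
theorem sum_loss {n a : ℕ} (P : ℕ) (ha : 3 ≤ a) {t z b : ℝ} (ht : 0 < t) (hz : 0 < z)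
    (hb : 0 < b) (hbz : b ≤ π / z) :
    ∑ i ∈ Icc 1 P, pl n a t z i ≤ 1 / sinh b ^ 2 + 1 / (3 * t) * (cosh b / sinh b - 1) := by
  have ha' : (3 : ℝ) ≤ a := by exact_mod_cast ha
  have hnu : (0 : ℝ) ≤ (nu n : ℝ) := Nat.cast_nonneg _
  have hcond : ∀ i : ℕ, (π < bb n a i * (z * t / 2) ↔ π / z < bb n a i * (t / 2)) := by
    intro i
    rw [div_lt_iff₀ hz]
    constructor <;> intro h <;> linarith
  have hg0 : ∀ i : ℕ, 0 ≤ bb n a i * (t / 2) := by
    intro i
    have hi : (0 : ℝ) ≤ i := Nat.cast_nonneg i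
    unfold bb
    positivity
  have hstep : ∀ i : ℕ, bb n a i * (t / 2) + 3 * t ≤ bb n a (i + 1) * (t / 2) := by
    intro i
    unfold bb
    push_cast
    nlinarith
  have hcothb : 1 ≤ cosh b / sinh b := C2b_coth_ge hb
  have hcb : ∀ x, b ≤ x → cosh x / sinh x ≤ cosh b / sinh b := by
    intro x hx
    have h := coth_step hb (le_refl (0 : ℝ)) (by linarith : b + 0 ≤ x)
    rw [zero_div] at h
    linarith
  have hsb : 0 < sinh b := sinh_pos_iff.2 hb
  have hsx : ∀ x, b ≤ x → 1 / sinh x ^ 2 ≤ 1 / sinh b ^ 2 := by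
    intro x hx
    refine one_div_le_one_div_of_le (by positivity) ?_
    exact pow_le_pow_left₀ hsb.le (sinh_le_sinh.2 hx) 2
  have h3t : 0 < 1 / (3 * t) := by positivity
  have key : ∀ P : ℕ, ∑ i ∈ Icc 1 P, pl n a t z i ≤
      if π / z < bb n a P * (t / 2) then 1 / sinh b ^ 2 +
        1 / (3 * t) * (cosh b / sinh b - cosh (bb n a P * (t / 2)) / sinh (bb n a P * (t / 2)))
      else 0 := by
    intro P
    induction P with
    | zero =>
      rw [Finset.Icc_eq_empty (by norm_num), Finset.sum_empty]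
      split_ifs with h
      · have h1 := hcb _ (hbz.trans h.le)
        have h2 : 0 ≤ 1 / sinh b ^ 2 := by positivity
        have h3 := mul_nonneg h3t.le (sub_nonneg.2 h1)
        linarith
      · exact le_rfl
    | succ P ih =>
      rw [Finset.sum_Icc_succ_top (by omega)]
      have hs := hstep P
      by_cases h : π / z < bb n a (P + 1) * (t / 2)
      · rw [if_pos h]
        have hpl : pl n a t z (P + 1) = 1 / sinh (bb n a (P + 1) * (t / 2)) ^ 2 := by
          unfold pl
          rw [if_pos ((hcond (P + 1)).2 h)]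
        rw [hpl]
        by_cases h' : π / z < bb n a P * (t / 2)
        · rw [if_pos h'] at ih
          have hpos : 0 < bb n a P * (t / 2) := lt_of_lt_of_le hb (hbz.trans h'.le)
          have h4 := coth_step hpos (by linarith : 0 ≤ 3 * t) hs
          have h5 : 1 / sinh (bb n a (P + 1) * (t / 2)) ^ 2 ≤ 1 / (3 * t) *
              (cosh (bb n a P * (t / 2)) / sinh (bb n a P * (t / 2)) -
                cosh (bb n a (P + 1) * (t / 2)) / sinh (bb n a (P + 1) * (t / 2))) := by
            have h6 := mul_le_mul_of_nonneg_left h4 h3t.le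
            refine le_trans (le_of_eq ?_) h6
            have : 3 * t ≠ 0 := by positivity
            field_simp
          linarith
        · rw [if_neg h'] at ih
          have h4 := hsx _ (hbz.trans h.le)
          have h5 := mul_nonneg h3t.le (sub_nonneg.2 (hcb _ (hbz.trans h.le)))
          linarith
      · rw [if_neg h]
        have hpl : pl n a t z (P + 1) = 0 := by
          unfold pl
          rw [if_neg (fun hc => h ((hcond (P + 1)).1 hc))]
        rw [if_neg (fun hc => h (by linarith))] at ih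
        rw [hpl]
        linarith
  refine (key P).trans ?_
  have hb2 : 0 ≤ 1 / sinh b ^ 2 := by positivity
  split_ifs with h
  · have hpos : 0 < bb n a P * (t / 2) := lt_of_lt_of_le hb (hbz.trans h.le)
    have h1 := C2b_coth_ge hpos
    have h2 : 1 / (3 * t) * (cosh b / sinh b - cosh (bb n a P * (t / 2)) /
        sinh (bb n a P * (t / 2))) ≤ 1 / (3 * t) * (cosh b / sinh b - 1) :=
      mul_le_mul_of_nonneg_left (by linarith) h3t.le
    linarith
  · have := mul_nonneg h3t.le (sub_nonneg.2 hcothb)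
    linarith

end Pool.Agent.SignedQ.Core
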