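import Pool.Agent.Lib.MP_cf17a0_co.S1.C.C0

/-! # Core region, `k t ≥ 2/3`: the loss function `LB` -/

namespace Pool.Agent.SignedQ.Core

open Real Finset Pool.Agent.SignedQ.An

/-- The loss. -/
noncomputable def LB (t z : ℝ) : ℝ := 2 * (5 + 1 / (3 * t)) / (exp (6 / z - 3 * t) - 1)

/-- `coth b - 1 = 2/(e^{2b} - 1)`. -/
theorem coth_sub_one {b : ℝ} (hb : 0 < b) : cosh b / sinh b - 1 = 2 / (exp (2 * b) - 1) := by
  have hu : 1 < exp b := one_lt_exp_iff.2 hb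
  have hu0 : 0 < exp b := exp_pos b
  have h1 : sinh b = (exp b ^ 2 - 1) / (2 * exp b) := by
    rw [sinh_eq, exp_neg]
    field_simp
  have h2 : cosh b = (exp b ^ 2 + 1) / (2 * exp b) := by
    rw [cosh_eq, exp_neg]
    field_simp
  have h3 : exp (2 * b) = exp b ^ 2 := by
    rw [two_mul, exp_add, sq]
  have h4 : exp b ^ 2 - 1 ≠ 0 := by
    have : 0 < exp b ^ 2 - 1 := by nlinarith
    exact this.ne'
  rw [h1, h2, h3]
  field_simp
  ring

/-- `1/sinh² b = 4 e^{2b}/(e^{2b} - 1)²`. -/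
theorem inv_sinh_sq {b : ℝ} (hb : 0 < b) :
    1 / sinh b ^ 2 = 4 * exp (2 * b) / (exp (2 * b) - 1) ^ 2 := by
  have hu : 1 < exp b := one_lt_exp_iff.2 hb
  have hu0 : 0 < exp b := exp_pos b
  have h1 : sinh b = (exp b ^ 2 - 1) / (2 * exp b) := by
    rw [sinh_eq, exp_neg]
    field_simp
  have h3 : exp (2 * b) = exp b ^ 2 := by
    rw [two_mul, exp_add, sq]
  have h4 : exp b ^ 2 - 1 ≠ 0 := by
    have : 0 < exp b ^ 2 - 1 := by nlinarith
    exact this.ne'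
  rw [h1, h3]
  field_simp
  ring

private theorem M1c_E {t z : ℝ} (ht : 0 < t) (ht' : t ≤ 31 / 2000) (hz : 0 < z) (hz' : z ≤ 3 / 2) :
    48 ≤ exp (6 / z - 3 * t) := by
  have hw : 4 ≤ 6 / z := by
    rw [le_div_iff₀ hz]
    linarith
  have h1 : exp (4 + -(1 / 10)) ≤ exp (6 / z - 3 * t) := exp_le_exp.2 (by linarith)
  have h2 : exp (4 : ℝ) = exp 1 ^ 4 := by
    rw [← exp_nat_mul]
    norm_num
  have h3 : (2.7182818283 : ℝ) ^ 4 ≤ exp 1 ^ 4 :=
    pow_le_pow_left₀ (by norm_num) exp_one_gt_d9.le 4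
  have h4 : 9 / 10 ≤ exp (-(1 / 10 : ℝ)) := by
    have := add_one_le_exp (-(1 / 10 : ℝ))
    linarith
  rw [exp_add, h2] at h1
  have h5 : (2.7182818283 : ℝ) ^ 4 * (9 / 10) ≤ exp 1 ^ 4 * exp (-(1 / 10)) :=
    mul_le_mul h3 h4 (by norm_num) (by positivity)
  have h6 : (48 : ℝ) ≤ 2.7182818283 ^ 4 * (9 / 10) := by norm_num
  linarith

private theorem inv_sinh_sq_mul {b c : ℝ} (_hb : 0 < b) :
    (1 + c) / sinh b ^ 2 = (1 + c) * (1 / sinh b ^ 2) := by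
  ring

/-- With `b = 3/z - 3t/2` (so `e^{2b} = exp (6/z - 3t) =: E`, `b ≥ 2 - 93/4000 ≥ 39/20`,
`E ≥ exp 3.9 ≥ 48`) the left side is `(2 + zt/2) 4E/(E-1)² + (z + 2/(3t))/(E-1)`, so it is enough
that `(2 + zt/2) 2E/(E-1) + z/2 ≤ 5`: `zt/2 ≤ 93/8000`, `E/(E-1) ≤ 48/47`, `z/2 ≤ 3/4`. -/
theorem loss_total {t z : ℝ} (ht : 0 < t) (ht' : t ≤ 31 / 2000) (hz : 0 < z) (hz' : z ≤ 3 / 2) :
    0 < 3 / z - 3 * t / 2 ∧ 3 / z - 3 * t / 2 ≤ π / z - t / 2 ∧
    (1 + z * (t / 2)) / sinh (3 / z - 3 * t / 2) ^ 2 +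
        z / 2 * (cosh (3 / z - 3 * t / 2) / sinh (3 / z - 3 * t / 2) - 1) +
      (1 / sinh (3 / z - 3 * t / 2) ^ 2 +
        1 / (3 * t) * (cosh (3 / z - 3 * t / 2) / sinh (3 / z - 3 * t / 2) - 1)) ≤ LB t z := by
  have hw : 2 ≤ 3 / z := by
    rw [le_div_iff₀ hz]
    linarith
  have hb : 0 < 3 / z - 3 * t / 2 := by linarith
  refine ⟨hb, ?_, ?_⟩
  · have h1 : 3 / z ≤ π / z := div_le_div_of_nonneg_right pi_gt_three.le hz.le
    linarith
  · rw [coth_sub_one hb, inv_sinh_sq_mul hb]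
    have he : 2 * (3 / z - 3 * t / 2) = 6 / z - 3 * t := by ring
    rw [inv_sinh_sq hb, he]
    have hE := M1c_E ht ht' hz hz'
    unfold LB
    set E := exp (6 / z - 3 * t) with hEdef
    have hE1 : 0 < E - 1 := by linarith
    have h5 : E / (E - 1) ≤ 48 / 47 := by
      rw [div_le_div_iff₀ hE1 (by norm_num)]
      linarith
    have hzt : z * (t / 2) ≤ 93 / 8000 := by
      have : z * (t / 2) ≤ 3 / 2 * (31 / 2000 / 2) :=
        mul_le_mul hz' (by linarith) (by positivity) (by norm_num)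
      linarith
    have h6 : 0 ≤ E / (E - 1) := by positivity
    have h7 : (2 + z * (t / 2)) * (4 * (E / (E - 1))) + z ≤ 10 := by
      have h8 : (2 + z * (t / 2)) * (4 * (E / (E - 1))) ≤ (2 + 93 / 8000) * (4 * (48 / 47)) :=
        mul_le_mul (by linarith) (by linarith) (by positivity) (by norm_num)
      linarith
    have h9 : (1 + z * (t / 2)) * (4 * E / (E - 1) ^ 2) + z / 2 * (2 / (E - 1)) +
        (4 * E / (E - 1) ^ 2 + 1 / (3 * t) * (2 / (E - 1))) =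
        ((2 + z * (t / 2)) * (4 * (E / (E - 1))) + z + 2 / (3 * t)) / (E - 1) := by
      field_simp
      ring
    have h10 : 2 * (5 + 1 / (3 * t)) / (E - 1) = (10 + 2 / (3 * t)) / (E - 1) := by
      congr 1
      ring
    rw [h9, h10]
    exact div_le_div_of_nonneg_right (by linarith) hE1.le

theorem LB_nonneg {t z : ℝ} (ht : 0 < t) (ht' : t ≤ 31 / 2000) (hz : 0 < z) (hz' : z ≤ 3 / 2) :
    0 ≤ LB t z := by
  have hE := M1c_E ht ht' hz hz'
  unfold LB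
  have h1 : 0 < exp (6 / z - 3 * t) - 1 := by linarith
  positivity

theorem LB_mono {t z z' : ℝ} (ht : 0 < t) (ht' : t ≤ 31 / 2000) (hz : 0 < z) (hzz : z ≤ z')
    (hz' : z' ≤ 3 / 2) : LB t z ≤ LB t z' := by
  have hz0 : 0 < z' := hz.trans_le hzz
  have hE := M1c_E ht ht' hz0 hz'
  have h1 : 6 / z' ≤ 6 / z := div_le_div_of_nonneg_left (by norm_num) hz hzz
  have h2 : exp (6 / z' - 3 * t) ≤ exp (6 / z - 3 * t) := exp_le_exp.2 (by linarith)
  unfold LB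
  exact div_le_div_of_nonneg_left (by positivity) (by linarith) (by linarith)

/-- Numerical upper bound: `3t ≤ 93/2000`; `hE : E ≤ exp (6/z - 93/2000)`. -/
theorem LB_le {t z E : ℝ} (ht : 0 < t) (ht' : t ≤ 31 / 2000) (hE1 : 1 < E)
    (hE : E ≤ exp (6 / z - 93 / 2000)) : LB t z ≤ 2 / (E - 1) * (5 + 1 / (3 * t)) := by
  have h1 : exp (6 / z - 93 / 2000) ≤ exp (6 / z - 3 * t) := exp_le_exp.2 (by linarith)
  have h2 : 2 * (5 + 1 / (3 * t)) / (exp (6 / z - 3 * t) - 1) ≤ 2 * (5 + 1 / (3 * t)) / (E - 1) :=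
    div_le_div_of_nonneg_left (by positivity) (by linarith) (by linarith)
  unfold LB
  refine h2.trans (le_of_eq ?_)
  ring

/-- For `z ≤ 1/2`: `exp(6/z - 3t) - 1 ≥ 155000/(4 z²)·...`: precisely `exp (6/z) ≥ e^12/(4 z²)`
(`w = 1/z ≥ 2`, `e^{3(w-2)} ≥ 1 + 3(w-2) ≥ w/2`, squared), `e^12 ≥ 162700`, `e^{-3t} ≥ 1 - 3t ≥
1 - 93/2000`, so `exp(6/z-3t) - 1 ≥ 155134/(4z²) - 1 ≥ 154000/(4 z²)` and
`LB ≤ 2 (5 + 1/(3t)) 4 z²/154000`, which is `≤ (1/2000) z² S` if `5 + 1/(3t) ≤ (48/5) S`. -/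
theorem LB_small {t z S : ℝ} (ht : 0 < t) (ht' : t ≤ 31 / 2000) (hz : 0 < z) (hz' : z ≤ 1 / 2)
    (hS : 5 + 1 / (3 * t) ≤ 48 / 5 * S) : LB t z ≤ 1 / 2000 * z ^ 2 * S := by
  have hw : 2 ≤ 1 / z := by
    rw [le_div_iff₀ hz]
    linarith
  set w := 1 / z with hwdef
  have h6 : 6 / z - 3 * t = 12 + 2 * (3 * (w - 2)) + -(3 * t) := by
    rw [hwdef]
    ring
  have h1 : w / 2 ≤ exp (3 * (w - 2)) := by
    have := add_one_le_exp (3 * (w - 2))
    linarith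
  have h2 : 162700 ≤ exp 12 := by
    have e : exp 12 = exp 1 ^ 12 := by
      rw [← exp_nat_mul]
      norm_num
    rw [e]
    calc (162700 : ℝ) ≤ 2.7182818283 ^ 12 := by norm_num
      _ ≤ exp 1 ^ 12 := pow_le_pow_left₀ (by norm_num) exp_one_gt_d9.le 12
  have h3 : 1907 / 2000 ≤ exp (-(3 * t)) := by
    have := add_one_le_exp (-(3 * t))
    linarith
  have h4 : (w / 2) ^ 2 ≤ exp (2 * (3 * (w - 2))) := by
    have e : exp (2 * (3 * (w - 2))) = exp (3 * (w - 2)) ^ 2 := by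
      rw [two_mul, exp_add, sq]
    rw [e]
    exact pow_le_pow_left₀ (by linarith) h1 2
  have h5 : 155134 * (w / 2) ^ 2 ≤ exp (6 / z - 3 * t) := by
    rw [h6, exp_add, exp_add]
    calc 155134 * (w / 2) ^ 2 ≤ 162700 * (w / 2) ^ 2 * (1907 / 2000) := by
          nlinarith [sq_nonneg (w / 2)]
      _ ≤ exp 12 * exp (2 * (3 * (w - 2))) * exp (-(3 * t)) := by
          gcongr
  have h7 : 1 ≤ (w / 2) ^ 2 := by nlinarith
  have h8 : 154000 * (w / 2) ^ 2 ≤ exp (6 / z - 3 * t) - 1 := by linarith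
  have h9 : 154000 * (w / 2) ^ 2 = 38500 / z ^ 2 := by
    rw [hwdef]
    field_simp
    norm_num
  have hSpos : 0 < S := by
    have : 0 < 1 / (3 * t) := by positivity
    linarith
  unfold LB
  have h10 : 2 * (5 + 1 / (3 * t)) / (exp (6 / z - 3 * t) - 1) ≤
      2 * (5 + 1 / (3 * t)) / (38500 / z ^ 2) :=
    div_le_div_of_nonneg_left (by positivity) (by positivity) (by linarith)
  refine h10.trans ?_
  have h11 : 2 * (5 + 1 / (3 * t)) / (38500 / z ^ 2) = 2 * (5 + 1 / (3 * t)) * (z ^ 2 / 38500) := by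
    field_simp
  rw [h11]
  have h12 : 2 * (5 + 1 / (3 * t)) * (z ^ 2 / 38500) ≤ 2 * (48 / 5 * S) * (z ^ 2 / 38500) := by
    apply mul_le_mul_of_nonneg_right _ (by positivity)
    linarith
  have h13 : 0 ≤ z ^ 2 * S := by positivity
  nlinarith

end Pool.Agent.SignedQ.Core
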