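import Pool.Agent.Lib.MP_cf17a0_co.S1.C.C1
import Pool.Agent.Lib.MP_cf17a0_co.Mg.G035
import Pool.Agent.Lib.MP_cf17a0_co.S1.C.M1b
import Pool.Agent.Lib.MP_cf17a0_co.S1.C.M1c

/-! # Core region, `k t ≥ 2/3`: the product bound -/

namespace Pool.Agent.SignedQ.Core

open Real Finset Pool.Agent.SignedQ.An

/-- `GG_ratio_le`, `LL_le_exp` (`b = 3/z - 3t/2`), `pair_II` for every factor, the product of the
exponentials is `exp (∑ pl)`, `sum_loss`, `loss_total`. -/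
theorem ratio_II {n k a : ℕ} (hnk : Even (n * k)) (ha : Odd a) (ha3 : 3 ≤ a) (hk : 2 ≤ k)
    {t z : ℝ} (ht : 0 < t) (ht' : t ≤ 31 / 2000) (hz : 0 < z) (hz' : z ≤ 3 / 2) :
    GG n k a t (z * t) / GG n k a t 0 ≤ exp (LB t z) * ∏ i ∈ Icc 1 (k / 2), qf n a t z i := by
  obtain ⟨hb, hb', hl⟩ := loss_total ht ht' hz hz'
  have h1 := GG_ratio_le hnk ha hk ht (z * t) (a := a)
  have h2 := LL_le_exp hk ht hz hb hb'
  have h3 := sum_loss (n := n) (k / 2) ha3 ht hz hb (by linarith)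
  have hqf : ∀ i ∈ Icc 1 (k / 2), 0 ≤ qf n a t z i := fun i hi =>
    (qf_nonneg ha3 (mem_Icc.1 hi).1 ht).1
  have h4 : ∏ i ∈ Icc 1 (k / 2), (NN n a t (z * t) i / WW t (z * t) (cc i)) ≤
      ∏ i ∈ Icc 1 (k / 2), (exp (pl n a t z i) * qf n a t z i) := by
    refine Finset.prod_le_prod (fun i _ => (div_pos (NN_pos _ _ _) (WW_pos _ _ _)).le) ?_
    intro i hi
    exact pair_II ha3 (mem_Icc.1 hi).1 ht hz
  rw [Finset.prod_mul_distrib, ← exp_sum] at h4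
  have h5 : 0 ≤ ∏ i ∈ Icc 1 (k / 2), (NN n a t (z * t) i / WW t (z * t) (cc i)) :=
    Finset.prod_nonneg fun i _ => (div_pos (NN_pos _ _ _) (WW_pos _ _ _)).le
  have h6 : 0 ≤ ∏ i ∈ Icc 1 (k / 2), qf n a t z i := Finset.prod_nonneg hqf
  refine h1.trans ?_
  refine (mul_le_mul h2 h4 h5 (exp_pos _).le).trans ?_
  rw [← mul_assoc, ← exp_add]
  refine mul_le_mul_of_nonneg_right (exp_le_exp.2 ?_) h6
  linarith

/-- `∑ x_i² S_i`, `x_i = cc i * (t/2)`. -/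
noncomputable def JJ (n k a : ℕ) (t : ℝ) : ℝ :=
  ∑ i ∈ Icc 1 (k / 2), (cc i * (t / 2)) ^ 2 * Sd n a t i

/-- Zone 1. Each factor `qf ≤ exp (-(S_i (log (1+z²) - μ x_i²)))`, `μ = z⁴/(3(1+z²))`: for
`x_i z ≤ 2` this is `weight` (its condition: `z² ≤ (4/5)(1+z²)(5/7)` holds for `z ≤ 1/2`), for
`x_i z > 2` the exponent is `≥ 0` because `log (1+z²) ≤ z² ≤ 4z²/(3(1+z²)) ≤ μ x_i²`. -/
theorem zone1 {n k a : ℕ} (hnk : Even (n * k)) (ha : Odd a) (ha3 : 3 ≤ a) (hk : 2 ≤ k)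
    {t z : ℝ} (ht : 0 < t) (ht' : t ≤ 31 / 2000) (hz : 0 < z) (hz' : z ≤ 1 / 2) :
    GG n k a t (z * t) / GG n k a t 0 ≤
      exp (LB t z - (log (1 + z ^ 2) * SS n k a t - z ^ 4 / (3 * (1 + z ^ 2)) * JJ n k a t)) := by
  have hm : 0 ≤ z ^ 4 / (3 * (1 + z ^ 2)) := by positivity
  have hz2 : z ^ 2 ≤ 1 / 4 := by nlinarith
  have hlog : log (1 + z ^ 2) ≤ z ^ 2 := by
    have := log_le_sub_one_of_pos (by positivity : 0 < 1 + z ^ 2)
    linarith
  have hf : ∀ i ∈ Icc 1 (k / 2), qf n a t z i ≤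
      exp (-((log (1 + z ^ 2) * Sd n a t i - z ^ 4 / (3 * (1 + z ^ 2)) *
        ((cc i * (t / 2)) ^ 2 * Sd n a t i)))) := by
    intro i hi
    have hi1 := (mem_Icc.1 hi).1
    have hS0 := Sd_nonneg (n := n) ha3 hi1 ht
    have hS1 := Sd_le_one (n := n) ha3 hi1 ht
    have hx : 0 < cc i * (t / 2) := by
      unfold cc
      positivity
    unfold qf
    split_ifs with h
    · have hc : z ^ 2 ≤ 4 / 5 * (1 + z ^ 2) * (1 - (cc i * (t / 2) * z) ^ 2 / 14) := by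
        have h1 : 0 ≤ cc i * (t / 2) * z := by positivity
        have h2 : (cc i * (t / 2) * z) ^ 2 ≤ 4 := by nlinarith
        have h3 : 5 / 7 ≤ 1 - (cc i * (t / 2) * z) ^ 2 / 14 := by linarith
        have h4 : 4 / 5 * (1 + z ^ 2) * (5 / 7) ≤
            4 / 5 * (1 + z ^ 2) * (1 - (cc i * (t / 2) * z) ^ 2 / 14) :=
          mul_le_mul_of_nonneg_left h3 (by positivity)
        linarith
      have hw := weight hx hz hS0 hS1 hc
      rw [exp_neg]
      refine inv_anti₀ (exp_pos _) ?_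
      refine le_trans (le_of_eq ?_) hw
      congr 1
      ring
    · push Not at h
      rw [one_le_exp_iff]
      have h1 : 4 ≤ (cc i * (t / 2)) ^ 2 * z ^ 2 := by
        rw [← mul_pow]
        nlinarith
      have h2 : z ^ 2 ≤ z ^ 4 / (3 * (1 + z ^ 2)) * (cc i * (t / 2)) ^ 2 := by
        rw [div_mul_eq_mul_div, le_div_iff₀ (by positivity)]
        have h3 : z ^ 2 * 4 ≤ z ^ 2 * ((cc i * (t / 2)) ^ 2 * z ^ 2) :=
          mul_le_mul_of_nonneg_left h1 (by positivity)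
        nlinarith
      have h3 : log (1 + z ^ 2) * Sd n a t i ≤
          z ^ 4 / (3 * (1 + z ^ 2)) * (cc i * (t / 2)) ^ 2 * Sd n a t i :=
        mul_le_mul_of_nonneg_right (hlog.trans h2) hS0
      linarith
  have hp : ∏ i ∈ Icc 1 (k / 2), qf n a t z i ≤
      exp (-(log (1 + z ^ 2) * SS n k a t - z ^ 4 / (3 * (1 + z ^ 2)) * JJ n k a t)) := by
    refine (Finset.prod_le_prod (fun i hi => (qf_nonneg ha3 (mem_Icc.1 hi).1 ht).1) hf).trans ?_
    rw [← exp_sum]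
    refine le_of_eq ?_
    congr 1
    unfold SS JJ
    rw [Finset.sum_neg_distrib, Finset.sum_sub_distrib, ← Finset.mul_sum, ← Finset.mul_sum]
  refine (ratio_II hnk ha ha3 hk ht ht' hz (by linarith)).trans ?_
  refine (mul_le_mul_of_nonneg_left hp (exp_pos _).le).trans ?_
  rw [← exp_add]
  refine exp_le_exp.2 ?_
  linarith

/-- The weighted partial sum `∑_{x_i ≤ X} (lam - mu x_i²) S_i`. -/
noncomputable def QS (n k a : ℕ) (t lam mu X : ℝ) : ℝ :=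
  ∑ i ∈ Icc 1 (k / 2),
    if cc i * (t / 2) ≤ X then (lam - mu * (cc i * (t / 2)) ^ 2) * Sd n a t i else 0

/-- Zone 2, `z₀ ≤ z ≤ z₁`, with the weights of `z₀`: for `x_i ≤ X` one has `x_i z₀ ≤ x_i z ≤
π - x_i z₀` (`X (z₀ + z₁) ≤ π`), so `sin (x_i z) ≥ sin (x_i z₀) ≥ 0`; `x_i z ≤ X z₁ ≤ 2`; `weight`
at `z₀`; the other factors are `≤ 1` (`qf_nonneg`). `LB_mono`. -/
theorem zone2 {n k a : ℕ} (hnk : Even (n * k)) (ha : Odd a) (ha3 : 3 ≤ a) (hk : 2 ≤ k)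
    {t z z₀ z₁ X lam : ℝ} (ht : 0 < t) (ht' : t ≤ 31 / 2000) (hz0 : 0 < z₀) (hz : z₀ ≤ z)
    (hz' : z ≤ z₁) (hz1 : z₁ ≤ 3 / 2) (hX : 0 < X) (hX2 : X * z₁ ≤ 2) (hXπ : X * (z₀ + z₁) ≤ π)
    (hc : z₀ ^ 2 ≤ 4 / 5 * (1 + z₀ ^ 2) * (1 - (X * z₀) ^ 2 / 14))
    (hlam : lam ≤ log (1 + z₀ ^ 2)) :
    GG n k a t (z * t) / GG n k a t 0 ≤
      exp (LB t z₁ - QS n k a t lam (z₀ ^ 4 / (3 * (1 + z₀ ^ 2))) X) := by
  have hzp : 0 < z := lt_of_lt_of_le hz0 hz
  have hf : ∀ i ∈ Icc 1 (k / 2), qf n a t z i ≤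
      exp (-(if cc i * (t / 2) ≤ X then
        (lam - z₀ ^ 4 / (3 * (1 + z₀ ^ 2)) * (cc i * (t / 2)) ^ 2) * Sd n a t i else 0)) := by
    intro i hi
    have hi1 := (mem_Icc.1 hi).1
    have hS0 := Sd_nonneg (n := n) ha3 hi1 ht
    have hS1 := Sd_le_one (n := n) ha3 hi1 ht
    have hx : 0 < cc i * (t / 2) := by
      unfold cc
      positivity
    by_cases h : cc i * (t / 2) ≤ X
    · rw [if_pos h]
      unfold qf
      generalize Sd n a t i = S at hS0 hS1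
      generalize cc i * (t / 2) = x at h hx
      have hxz : x * z ≤ X * z₁ := mul_le_mul h hz' hzp.le hX.le
      rw [if_pos (hxz.trans hX2), exp_neg]
      refine inv_anti₀ (exp_pos _) ?_
      have hxz0 : 0 < x * z₀ := mul_pos hx hz0
      have hle : x * z₀ ≤ x * z := mul_le_mul_of_nonneg_left hz hx.le
      have hsum : x * z₀ + x * z ≤ π := by
        have h1 : x * z₀ ≤ X * z₀ := mul_le_mul_of_nonneg_right h hz0.le
        linarith
      have hsin : sin (x * z₀) ≤ sin (x * z) := by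
        rcases le_total (x * z) (π / 2) with h2 | h2
        · exact sin_le_sin_of_le_of_le_pi_div_two (by linarith) h2 hle
        · rw [← sin_pi_sub (x * z)]
          exact sin_le_sin_of_le_of_le_pi_div_two (by linarith) (by linarith) (by linarith)
      have hsin0 : 0 ≤ sin (x * z₀) := sin_nonneg_of_nonneg_of_le_pi hxz0.le (by linarith)
      have hsq : (sin (x * z₀) / x) ^ 2 ≤ (sin (x * z) / x) ^ 2 := by
        refine pow_le_pow_left₀ (by positivity) ?_ 2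
        exact div_le_div_of_nonneg_right hsin hx.le
      have hc' : z₀ ^ 2 ≤ 4 / 5 * (1 + z₀ ^ 2) * (1 - (x * z₀) ^ 2 / 14) := by
        have h1 : x * z₀ ≤ X * z₀ := mul_le_mul_of_nonneg_right h hz0.le
        have h2 : (x * z₀) ^ 2 ≤ (X * z₀) ^ 2 := pow_le_pow_left₀ hxz0.le h1 2
        have h3 : 4 / 5 * (1 + z₀ ^ 2) * (1 - (X * z₀) ^ 2 / 14) ≤
            4 / 5 * (1 + z₀ ^ 2) * (1 - (x * z₀) ^ 2 / 14) :=
          mul_le_mul_of_nonneg_left (by linarith) (by positivity)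
        linarith
      have hw := weight hx hz0 hS0 hS1 hc'
      have h4 : (lam - z₀ ^ 4 / (3 * (1 + z₀ ^ 2)) * x ^ 2) * S ≤
          S * (log (1 + z₀ ^ 2) - z₀ ^ 4 / (3 * (1 + z₀ ^ 2)) * x ^ 2) := by
        rw [mul_comm]
        exact mul_le_mul_of_nonneg_left (by linarith) hS0
      have h5 := mul_le_mul_of_nonneg_right hsq hS0
      refine (exp_le_exp.2 h4).trans (hw.trans ?_)
      linarith
    · rw [if_neg h, neg_zero, exp_zero]
      exact (qf_nonneg ha3 hi1 ht).2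
  have hp : ∏ i ∈ Icc 1 (k / 2), qf n a t z i ≤
      exp (-QS n k a t lam (z₀ ^ 4 / (3 * (1 + z₀ ^ 2))) X) := by
    refine (Finset.prod_le_prod (fun i hi => (qf_nonneg ha3 (mem_Icc.1 hi).1 ht).1) hf).trans ?_
    rw [← exp_sum]
    refine le_of_eq ?_
    congr 1
    unfold QS
    rw [Finset.sum_neg_distrib]
  have hL := LB_mono ht ht' hzp hz' hz1
  refine (ratio_II hnk ha ha3 hk ht ht' hzp (hz'.trans hz1)).trans ?_
  refine (mul_le_mul_of_nonneg_left hp (exp_pos _).le).trans ?_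
  rw [← exp_add]
  refine exp_le_exp.2 ?_
  linarith

end Pool.Agent.SignedQ.Core
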