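import Pool.Agent.Lib.MP_cf17a0_co.Mg.G034

/-! # Core region, `k t ≤ 2/3`: 500 ≤ k (generated) -/

namespace Pool.Agent.SignedQ.Core

open Real Finset Pool.Agent.SignedQ.An

theorem T_c_0 {n k a : ℕ} {t : ℝ}
    (R : RegI n k a t 5 (511 / 100) 10 (107 / 125) (501 / 500) 250) :
    Fb (rho n k a t) (sigma n k a t) (1 / k) (3 / 2) ≤
      (26059 / 80000) + Fb (rho n k a t) (sigma n k a t) (1 / k) 3 := by
  have h0 := bin_5 R (u₀ := (3 / 2)) (u₁ := (13 / 8)) (v1 := (163 / 1000)) (vb := (163 / 1000)) (c := (991 / 1000)) (sb := (1 / 10000))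
    (x := (502 / 25)) (g := (809 / 2000)) (by norm_num) (by norm_num) (Or.inr (by norm_num)) (Or.inr (by norm_num))
    (by norm_num) (by norm_num) (by norm_num) (by norm_num) (Or.inr ⟨by norm_num, by norm_num, by norm_num⟩) (by norm_num)
    (by norm_num)
  have h1 := bin_5 R (u₀ := (13 / 8)) (u₁ := (7 / 4)) (v1 := (22 / 125)) (vb := (7 / 40)) (c := (989 / 1000)) (sb := (1 / 10000))
    (x := (373 / 20)) (g := (3563 / 10000)) (by norm_num) (by norm_num) (Or.inr (by norm_num)) (Or.inr (by norm_num))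
    (by norm_num) (by norm_num) (by norm_num) (by norm_num) (Or.inr ⟨by norm_num, by norm_num, by norm_num⟩) (by norm_num)
    (by norm_num)
  have h2 := bin_5 R (u₀ := (7 / 4)) (u₁ := (15 / 8)) (v1 := (47 / 250)) (vb := (47 / 250)) (c := (247 / 250)) (sb := (1 / 10000))
    (x := (1739 / 100)) (g := (3127 / 10000)) (by norm_num) (by norm_num) (Or.inr (by norm_num)) (Or.inr (by norm_num))
    (by norm_num) (by norm_num) (by norm_num) (by norm_num) (Or.inr ⟨by norm_num, by norm_num, by norm_num⟩) (by norm_num)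
    (by norm_num)
  have h3 := bin_5 R (u₀ := (15 / 8)) (u₁ := 2) (v1 := (201 / 1000)) (vb := (1 / 5)) (c := (493 / 500)) (sb := (1 / 10000))
    (x := (1631 / 100)) (g := (2741 / 10000)) (by norm_num) (by norm_num) (Or.inr (by norm_num)) (Or.inr (by norm_num))
    (by norm_num) (by norm_num) (by norm_num) (by norm_num) (Or.inr ⟨by norm_num, by norm_num, by norm_num⟩) (by norm_num)
    (by norm_num)
  have h4 := bin_5 R (u₀ := 2) (u₁ := (17 / 8)) (v1 := (213 / 1000)) (vb := (213 / 1000)) (c := (123 / 125)) (sb := (1 / 10000))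
    (x := (767 / 50)) (g := (2399 / 10000)) (by norm_num) (by norm_num) (Or.inr (by norm_num)) (Or.inr (by norm_num))
    (by norm_num) (by norm_num) (by norm_num) (by norm_num) (Or.inr ⟨by norm_num, by norm_num, by norm_num⟩) (by norm_num)
    (by norm_num)
  have h5 := bin_5 R (u₀ := (17 / 8)) (u₁ := (9 / 4)) (v1 := (113 / 500)) (vb := (9 / 40)) (c := (983 / 1000)) (sb := (1 / 10000))
    (x := (1449 / 100)) (g := (419 / 2000)) (by norm_num) (by norm_num) (Or.inr (by norm_num)) (Or.inr (by norm_num))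
    (by norm_num) (by norm_num) (by norm_num) (by norm_num) (Or.inr ⟨by norm_num, by norm_num, by norm_num⟩) (by norm_num)
    (by norm_num)
  have h6 := bin_5 R (u₀ := (9 / 4)) (u₁ := (19 / 8)) (v1 := (119 / 500)) (vb := (119 / 500)) (c := (981 / 1000)) (sb := (1 / 10000))
    (x := (343 / 25)) (g := (229 / 1250)) (by norm_num) (by norm_num) (Or.inr (by norm_num)) (Or.inr (by norm_num))
    (by norm_num) (by norm_num) (by norm_num) (by norm_num) (Or.inr ⟨by norm_num, by norm_num, by norm_num⟩) (by norm_num)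
    (by norm_num)
  have h7 := bin_5 R (u₀ := (19 / 8)) (u₁ := (5 / 2)) (v1 := (251 / 1000)) (vb := (1 / 4)) (c := (979 / 1000)) (sb := (1 / 10000))
    (x := (1303 / 100)) (g := (801 / 5000)) (by norm_num) (by norm_num) (Or.inr (by norm_num)) (Or.inr (by norm_num))
    (by norm_num) (by norm_num) (by norm_num) (by norm_num) (Or.inr ⟨by norm_num, by norm_num, by norm_num⟩) (by norm_num)
    (by norm_num)
  have h8 := bin_5 R (u₀ := (5 / 2)) (u₁ := (21 / 8)) (v1 := (33 / 125)) (vb := (263 / 1000)) (c := (122 / 125)) (sb := (1 / 10000))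
    (x := (62 / 5)) (g := (1403 / 10000)) (by norm_num) (by norm_num) (Or.inr (by norm_num)) (Or.inr (by norm_num))
    (by norm_num) (by norm_num) (by norm_num) (by norm_num) (Or.inr ⟨by norm_num, by norm_num, by norm_num⟩) (by norm_num)
    (by norm_num)
  have h9 := bin_5 R (u₀ := (21 / 8)) (u₁ := (11 / 4)) (v1 := (69 / 250)) (vb := (11 / 40)) (c := (487 / 500)) (sb := (1 / 5000))
    (x := (296 / 25)) (g := (1229 / 10000)) (by norm_num) (by norm_num) (Or.inr (by norm_num)) (Or.inr (by norm_num))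
    (by norm_num) (by norm_num) (by norm_num) (by norm_num) (Or.inr ⟨by norm_num, by norm_num, by norm_num⟩) (by norm_num)
    (by norm_num)
  have h10 := bin_5 R (u₀ := (11 / 4)) (u₁ := (23 / 8)) (v1 := (289 / 1000)) (vb := (36 / 125)) (c := (243 / 250)) (sb := (1 / 5000))
    (x := (1131 / 100)) (g := (1077 / 10000)) (by norm_num) (by norm_num) (Or.inr (by norm_num)) (Or.inr (by norm_num))
    (by norm_num) (by norm_num) (by norm_num) (by norm_num) (Or.inr ⟨by norm_num, by norm_num, by norm_num⟩) (by norm_num)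
    (by norm_num)
  have h11 := bin_5 R (u₀ := (23 / 8)) (u₁ := 3) (v1 := (301 / 1000)) (vb := (3 / 10)) (c := (97 / 100)) (sb := (1 / 5000))
    (x := (271 / 25)) (g := (473 / 5000)) (by norm_num) (by norm_num) (Or.inr (by norm_num)) (Or.inr (by norm_num))
    (by norm_num) (by norm_num) (by norm_num) (by norm_num) (Or.inr ⟨by norm_num, by norm_num, by norm_num⟩) (by norm_num)
    (by norm_num)
  norm_num at h0 h1 h2 h3 h4 h5 h6 h7 h8 h9 h10 h11 ⊢
  linarith

theorem T_c_1 {n k a : ℕ} {t : ℝ}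
    (R : RegI n k a t 5 (511 / 100) 10 (107 / 125) (501 / 500) 250) :
    Fb (rho n k a t) (sigma n k a t) (1 / k) 3 ≤
      (4153 / 40000) + Fb (rho n k a t) (sigma n k a t) (1 / k) 7 := by
  have h0 := bin_5 R (u₀ := 3) (u₁ := (13 / 4)) (v1 := (163 / 500)) (vb := (13 / 40)) (c := (241 / 250)) (sb := (3 / 10000))
    (x := 10) (g := (837 / 10000)) (by norm_num) (by norm_num) (Or.inr (by norm_num)) (Or.inr (by norm_num))
    (by norm_num) (by norm_num) (by norm_num) (by norm_num) (Or.inr ⟨by norm_num, by norm_num, by norm_num⟩) (by norm_num)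
    (by norm_num)
  have h1 := bin_5 R (u₀ := (13 / 4)) (u₁ := (7 / 2)) (v1 := (351 / 1000)) (vb := (7 / 20)) (c := (959 / 1000)) (sb := (1 / 2000))
    (x := (927 / 100)) (g := (163 / 2500)) (by norm_num) (by norm_num) (Or.inr (by norm_num)) (Or.inr (by norm_num))
    (by norm_num) (by norm_num) (by norm_num) (by norm_num) (Or.inr ⟨by norm_num, by norm_num, by norm_num⟩) (by norm_num)
    (by norm_num)
  have h2 := bin_5 R (u₀ := (7 / 2)) (u₁ := (15 / 4)) (v1 := (47 / 125)) (vb := (3 / 8)) (c := (953 / 1000)) (sb := (7 / 10000))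
    (x := (173 / 20)) (g := (32 / 625)) (by norm_num) (by norm_num) (Or.inr (by norm_num)) (Or.inr (by norm_num))
    (by norm_num) (by norm_num) (by norm_num) (by norm_num) (Or.inr ⟨by norm_num, by norm_num, by norm_num⟩) (by norm_num)
    (by norm_num)
  have h3 := bin_5 R (u₀ := (15 / 4)) (u₁ := 4) (v1 := (401 / 1000)) (vb := (2 / 5)) (c := (473 / 500)) (sb := (1 / 1000))
    (x := (81 / 10)) (g := (203 / 5000)) (by norm_num) (by norm_num) (Or.inr (by norm_num)) (Or.inr (by norm_num))
    (by norm_num) (by norm_num) (by norm_num) (by norm_num) (Or.inr ⟨by norm_num, by norm_num, by norm_num⟩) (by norm_num)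
    (by norm_num)
  have h4 := bin_5 R (u₀ := 4) (u₁ := (17 / 4)) (v1 := (213 / 500)) (vb := (17 / 40)) (c := (47 / 50)) (sb := (13 / 10000))
    (x := (761 / 100)) (g := (81 / 2500)) (by norm_num) (by norm_num) (Or.inr (by norm_num)) (Or.inr (by norm_num))
    (by norm_num) (by norm_num) (by norm_num) (by norm_num) (Or.inr ⟨by norm_num, by norm_num, by norm_num⟩) (by norm_num)
    (by norm_num)
  have h5 := bin_5 R (u₀ := (17 / 4)) (u₁ := (9 / 2)) (v1 := (451 / 1000)) (vb := (9 / 20)) (c := (933 / 1000)) (sb := (9 / 5000))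
    (x := (359 / 50)) (g := (131 / 5000)) (by norm_num) (by norm_num) (Or.inr (by norm_num)) (Or.inr (by norm_num))
    (by norm_num) (by norm_num) (by norm_num) (by norm_num) (Or.inr ⟨by norm_num, by norm_num, by norm_num⟩) (by norm_num)
    (by norm_num)
  have h6 := bin_5 R (u₀ := (9 / 2)) (u₁ := (19 / 4)) (v1 := (119 / 250)) (vb := (19 / 40)) (c := (37 / 40)) (sb := (3 / 1250))
    (x := (679 / 100)) (g := (213 / 10000)) (by norm_num) (by norm_num) (Or.inr (by norm_num)) (Or.inr (by norm_num))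
    (by norm_num) (by norm_num) (by norm_num) (by norm_num) (Or.inr ⟨by norm_num, by norm_num, by norm_num⟩) (by norm_num)
    (by norm_num)
  have h7 := bin_5 R (u₀ := (19 / 4)) (u₁ := 5) (v1 := (501 / 1000)) (vb := (1 / 2)) (c := (917 / 1000)) (sb := (2 / 625))
    (x := (161 / 25)) (g := (7 / 400)) (by norm_num) (by norm_num) (Or.inr (by norm_num)) (Or.inr (by norm_num))
    (by norm_num) (by norm_num) (by norm_num) (by norm_num) (Or.inr ⟨by norm_num, by norm_num, by norm_num⟩) (by norm_num)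
    (by norm_num)
  have h8 := bin_5 R (u₀ := 5) (u₁ := (11 / 2)) (v1 := (69 / 125)) (vb := (11 / 20)) (c := (899 / 1000)) (sb := (53 / 10000))
    (x := (146 / 25)) (g := (37 / 2500)) (by norm_num) (by norm_num) (Or.inr (by norm_num)) (Or.inr (by norm_num))
    (by norm_num) (by norm_num) (by norm_num) (by norm_num) (Or.inr ⟨by norm_num, by norm_num, by norm_num⟩) (by norm_num)
    (by norm_num)
  have h9 := bin_5 R (u₀ := (11 / 2)) (u₁ := 6) (v1 := (301 / 500)) (vb := (3 / 5)) (c := (22 / 25)) (sb := (21 / 2500))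
    (x := (533 / 100)) (g := (21 / 2000)) (by norm_num) (by norm_num) (Or.inr (by norm_num)) (Or.inr (by norm_num))
    (by norm_num) (by norm_num) (by norm_num) (by norm_num) (Or.inr ⟨by norm_num, by norm_num, by norm_num⟩) (by norm_num)
    (by norm_num)
  have h10 := bin_5 R (u₀ := 6) (u₁ := (13 / 2)) (v1 := (163 / 250)) (vb := (13 / 20)) (c := (43 / 50)) (sb := (8 / 625))
    (x := (49 / 10)) (g := (19 / 2500)) (by norm_num) (by norm_num) (Or.inr (by norm_num)) (Or.inr (by norm_num))
    (by norm_num) (by norm_num) (by norm_num) (by norm_num) (Or.inr ⟨by norm_num, by norm_num, by norm_num⟩) (by norm_num)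
    (by norm_num)
  have h11 := bin_5 R (u₀ := (13 / 2)) (u₁ := 7) (v1 := (351 / 500)) (vb := (7 / 10)) (c := (419 / 500)) (sb := (93 / 5000))
    (x := (453 / 100)) (g := (57 / 10000)) (by norm_num) (by norm_num) (Or.inr (by norm_num)) (Or.inr (by norm_num))
    (by norm_num) (by norm_num) (by norm_num) (by norm_num) (Or.inr ⟨by norm_num, by norm_num, by norm_num⟩) (by norm_num)
    (by norm_num)
  norm_num at h0 h1 h2 h3 h4 h5 h6 h7 h8 h9 h10 h11 ⊢
  linarith

theorem T_c_2 {n k a : ℕ} {t : ℝ}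
    (R : RegI n k a t 5 (511 / 100) 10 (107 / 125) (501 / 500) 250) :
    Fb (rho n k a t) (sigma n k a t) (1 / k) 7 ≤
      (327 / 20000) + Fb (rho n k a t) (sigma n k a t) (1 / k) 30 := by
  have h0 := bin_5 R (u₀ := 7) (u₁ := (15 / 2)) (v1 := (94 / 125)) (vb := (3 / 4)) (c := (407 / 500)) (sb := (13 / 500))
    (x := (421 / 100)) (g := (11 / 2500)) (by norm_num) (by norm_num) (Or.inr (by norm_num)) (Or.inr (by norm_num))
    (by norm_num) (by norm_num) (by norm_num) (by norm_num) (Or.inr ⟨by norm_num, by norm_num, by norm_num⟩) (by norm_num)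
    (by norm_num)
  have h1 := bin_5 R (u₀ := (15 / 2)) (u₁ := 8) (v1 := (401 / 500)) (vb := (4 / 5)) (c := (197 / 250)) (sb := (22 / 625))
    (x := (393 / 100)) (g := (7 / 2000)) (by norm_num) (by norm_num) (Or.inr (by norm_num)) (Or.inr (by norm_num))
    (by norm_num) (by norm_num) (by norm_num) (by norm_num) (Or.inr ⟨by norm_num, by norm_num, by norm_num⟩) (by norm_num)
    (by norm_num)
  have h2 := bin_5 R (u₀ := 8) (u₁ := 9) (v1 := (451 / 500)) (vb := (9 / 10)) (c := (733 / 1000)) (sb := (301 / 5000))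
    (x := (69 / 20)) (g := (31 / 10000)) (by norm_num) (by norm_num) (Or.inr (by norm_num)) (Or.inr (by norm_num))
    (by norm_num) (by norm_num) (by norm_num) (by norm_num) (Or.inr ⟨by norm_num, by norm_num, by norm_num⟩) (by norm_num)
    (by norm_num)
  have h3 := bin_5 R (u₀ := 9) (u₁ := 10) (v1 := (501 / 500)) (vb := 1) (c := (673 / 1000)) (sb := (931 / 10000))
    (x := (307 / 100)) (g := (11 / 5000)) (by norm_num) (by norm_num) (Or.inl (by norm_num)) (Or.inl (by norm_num))
    (by norm_num) (by norm_num) (by norm_num) (by norm_num) (Or.inr ⟨by norm_num, by norm_num, by norm_num⟩) (by norm_num)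
    (by norm_num)
  have h4 := bin_5 R (u₀ := 10) (u₁ := 11) (v1 := (501 / 500)) (vb := 1) (c := (663 / 1000)) (sb := (157 / 1250))
    (x := (281 / 100)) (g := (7 / 5000)) (by norm_num) (by norm_num) (Or.inl (by norm_num)) (Or.inl (by norm_num))
    (by norm_num) (by norm_num) (by norm_num) (by norm_num) (Or.inr ⟨by norm_num, by norm_num, by norm_num⟩) (by norm_num)
    (by norm_num)
  have h5 := bin_5 R (u₀ := 11) (u₁ := 12) (v1 := (501 / 500)) (vb := 1) (c := (651 / 1000)) (sb := (323 / 2000))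
    (x := (259 / 100)) (g := (1 / 1000)) (by norm_num) (by norm_num) (Or.inl (by norm_num)) (Or.inl (by norm_num))
    (by norm_num) (by norm_num) (by norm_num) (by norm_num) (Or.inr ⟨by norm_num, by norm_num, by norm_num⟩) (by norm_num)
    (by norm_num)
  have h6 := bin_5 R (u₀ := 12) (u₁ := 14) (v1 := (501 / 500)) (vb := 1) (c := (78 / 125)) (sb := (623 / 2500))
    (x := (11 / 5)) (g := (7 / 10000)) (by norm_num) (by norm_num) (Or.inl (by norm_num)) (Or.inl (by norm_num))
    (by norm_num) (by norm_num) (by norm_num) (by norm_num) (Or.inr ⟨by norm_num, by norm_num, by norm_num⟩) (by norm_num)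
    (by norm_num)
  have h7 := bin_5 R (u₀ := 14) (u₁ := 16) (v1 := (501 / 500)) (vb := 1) (c := (149 / 250)) (sb := (1723 / 5000))
    (x := (189 / 100)) (g := (1 / 2500)) (by norm_num) (by norm_num) (Or.inl (by norm_num)) (Or.inl (by norm_num))
    (by norm_num) (by norm_num) (by norm_num) (by norm_num) (Or.inr ⟨by norm_num, by norm_num, by norm_num⟩) (by norm_num)
    (by norm_num)
  have h8 := bin_5 R (u₀ := 16) (u₁ := 18) (v1 := (501 / 500)) (vb := 1) (c := (71 / 125)) (sb := (1117 / 2500))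
    (x := (81 / 50)) (g := (3 / 10000)) (by norm_num) (by norm_num) (Or.inl (by norm_num)) (Or.inl (by norm_num))
    (by norm_num) (by norm_num) (by norm_num) (by norm_num) (Or.inr ⟨by norm_num, by norm_num, by norm_num⟩) (by norm_num)
    (by norm_num)
  have h9 := bin_5 R (u₀ := 18) (u₁ := 20) (v1 := (501 / 500)) (vb := 1) (c := (271 / 500)) (sb := (5457 / 10000))
    (x := (139 / 100)) (g := (1 / 5000)) (by norm_num) (by norm_num) (Or.inl (by norm_num)) (Or.inl (by norm_num))
    (by norm_num) (by norm_num) (by norm_num) (by norm_num) (Or.inr ⟨by norm_num, by norm_num, by norm_num⟩) (by norm_num)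
    (by norm_num)
  have h10 := bin_5 R (u₀ := 20) (u₁ := 25) (v1 := (501 / 500)) (vb := 1) (c := (491 / 1000)) (sb := (19 / 25))
    (x := (23 / 25)) (g := (1 / 5000)) (by norm_num) (by norm_num) (Or.inl (by norm_num)) (Or.inl (by norm_num))
    (by norm_num) (by norm_num) (by norm_num) (by norm_num) (Or.inr ⟨by norm_num, by norm_num, by norm_num⟩) (by norm_num)
    (by norm_num)
  have h11 := bin_5 R (u₀ := 25) (u₁ := 30) (v1 := (501 / 500)) (vb := 1) (c := (227 / 500)) (sb := (581 / 625))
    (x := (47 / 100)) (g := (1 / 10000)) (by norm_num) (by norm_num) (Or.inl (by norm_num)) (Or.inl (by norm_num))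
    (by norm_num) (by norm_num) (by norm_num) (by norm_num) (Or.inr ⟨by norm_num, by norm_num, by norm_num⟩) (by norm_num)
    (by norm_num)
  norm_num at h0 h1 h2 h3 h4 h5 h6 h7 h8 h9 h10 h11 ⊢
  linarith

theorem T_c {n k a : ℕ} {t : ℝ}
    (R : RegI n k a t 5 (511 / 100) 10 (107 / 125) (501 / 500) 250) :
    Fb (rho n k a t) (sigma n k a t) (1 / k) (3 / 2) ≤ (9 / 20) := by
  have h0 := T_c_0 R
  have h1 := T_c_1 R
  have h2 := T_c_2 R
  have ht := tail_I R (by norm_num) (c := (11 / 25)) (U := 30) (by norm_num) (by norm_num) (by norm_num)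
    (by norm_num)
  norm_num at h0 h1 h2 ht ⊢
  linarith

end Pool.Agent.SignedQ.Core
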