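import Pool.Agent.Lib.MP_cf17a0_co.S1.C.C0

/-! # Core region, inside: the lower bound

Let `V = f (1 + q^L) ≥ 0`, `ρ = e^(-tL)`, `R = f(r)`, `μ` the mean, `σ² = sig2`, `u = σθ`.
1. `(1 + ρ² + 2ρ cos(Lθ)) reR f t μ θ = reR V t μ θ + ρ reR V t (μ+L) θ`
   (`f(z) = V(z)/(1+z^L)`, `z^L = ρ e^(iLθ)`; multiply by the conjugate).
2. By `cos_tangent` termwise (`V ≥ 0`), for `0 < u ≤ π` and every real `c`:
   `reR V t c θ ≥ (cos u + u sin u / 2) V(r) - (sin u/(2u)) θ² M(V,c)`,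
   `M(V,c) = ∑ V_j r^j (j-c)²`.
3. `V(r) = (1+ρ) R`, `M(V,c) = M(f,c) + ρ M(f,c-L)`, `M(f,c) = (σ² + (μ-c)²) R`, hence
   `M(V,μ) + ρ M(V,μ+L) = ((1+ρ)²σ² + 2ρL²) R`.
4. So `(1+ρ²+2ρ cos(Lθ)) reR f ≥ (1+ρ)² R (cos u - P u sin u)`, `P = ρL²/((1+ρ)²σ²)`, and
   `ρ/(1+ρ)² = 1/(4cosh²(Lt/2))`, i.e. `P = (Lt/2)²/(cosh²(Lt/2) t²σ²)`; if the bracket is
   `≥ 0`, divide by `1+ρ²+2ρcos ≤ (1+ρ)²` (and `> 0`). -/

namespace Pool.Agent.SignedQ.Core

open Polynomial Finset Pool.Agent.SignedQ.An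

/-- Numerical: `cos(3/2) ≥ .0707`, `sin(3/2) ≥ .9974`, so `cos u - p u sin u ≥ 0` on `[0, 3/2]` for
`p ≤ 1/25`, and `∫_0^{3/2} (cos u - p u sin u) du = sin(3/2) - p (sin(3/2) - (3/2) cos(3/2))
≥ .9974 - .8925 p`. -/
theorem inside_num {p : ℝ} (hp : 0 ≤ p) (hp' : p ≤ 1 / 25) :
    (∀ u ∈ Set.Icc (0 : ℝ) (3 / 2), 0 ≤ Real.cos u - p * u * Real.sin u) ∧
    0.9974 - 0.8925 * p ≤ ∫ u in (0 : ℝ)..(3 / 2), (Real.cos u - p * u * Real.sin u) := by
  have hpi1 := Real.pi_gt_d6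
  have hpi2 := Real.pi_lt_d6
  have hx0 : 0.070796 ≤ Real.pi / 2 - 3 / 2 := by linarith
  have hx1 : Real.pi / 2 - 3 / 2 ≤ 0.070797 := by linarith
  have hc : 0.0707 ≤ Real.cos (3 / 2) := by
    have h1 : Real.cos (3 / 2) = Real.sin (Real.pi / 2 - 3 / 2) := (Real.sin_pi_div_two_sub _).symm
    rw [h1]
    have h2 := Real.sin_gt_sub_cube (x := Real.pi / 2 - 3 / 2) (by linarith)
    have h3 : (Real.pi / 2 - 3 / 2) ^ 3 ≤ 0.070797 ^ 3 := pow_le_pow_left₀ (by linarith) hx1 3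
    norm_num at h3 ⊢
    linarith
  have hs : 0.99749 ≤ Real.sin (3 / 2) := by
    have h1 : Real.sin (3 / 2) = Real.cos (Real.pi / 2 - 3 / 2) := (Real.cos_pi_div_two_sub _).symm
    rw [h1]
    have h2 := Real.one_sub_sq_div_two_le_cos (x := Real.pi / 2 - 3 / 2)
    have h3 : (Real.pi / 2 - 3 / 2) ^ 2 ≤ 0.070797 ^ 2 := pow_le_pow_left₀ (by linarith) hx1 2
    norm_num at h3 ⊢
    linarith
  constructor
  · intro u hu
    have h1 : Real.cos (3 / 2) ≤ Real.cos u :=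
      Real.cos_le_cos_of_nonneg_of_le_pi hu.1 (by linarith) hu.2
    have h2 : Real.sin u ≤ 1 := Real.sin_le_one u
    have h3 : 0 ≤ Real.sin u := Real.sin_nonneg_of_nonneg_of_le_pi hu.1 (by linarith [hu.2])
    have h4 : p * u ≤ 1 / 25 * (3 / 2) := mul_le_mul hp' hu.2 hu.1 (by norm_num)
    have h5 : p * u * Real.sin u ≤ 1 / 25 * (3 / 2) * 1 := mul_le_mul h4 h2 h3 (by norm_num)
    norm_num at h5 hc
    linarith
  · have hd : ∀ u ∈ Set.uIcc (0 : ℝ) (3 / 2),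
        HasDerivAt (fun u => Real.sin u - p * (Real.sin u - u * Real.cos u))
          (Real.cos u - p * u * Real.sin u) u := by
      intro u _
      have h1 := (Real.hasDerivAt_sin u).sub (((Real.hasDerivAt_sin u).sub
        ((hasDerivAt_id u).mul (Real.hasDerivAt_cos u))).const_mul p)
      refine h1.congr_deriv ?_
      simp only [id]
      ring
    have hi : IntervalIntegrable (fun u => Real.cos u - p * u * Real.sin u) MeasureTheory.volume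
        0 (3 / 2) := by
      refine Continuous.intervalIntegrable ?_ _ _
      fun_prop
    rw [intervalIntegral.integral_eq_sub_of_hasDerivAt hd hi]
    simp only [Real.sin_zero, Real.cos_zero]
    have h6 : (1 - p) * 0.99749 ≤ (1 - p) * Real.sin (3 / 2) :=
      mul_le_mul_of_nonneg_left hs (by linarith)
    have h7 : p * (3 / 2 * 0.0707) ≤ p * (3 / 2 * Real.cos (3 / 2)) :=
      mul_le_mul_of_nonneg_left (by linarith) hp
    norm_num at h6 h7 ⊢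
    linarith

end Pool.Agent.SignedQ.Core
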