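import Pool.Agent.Lib.MP_cf17a0_co.S1.C.I1
import Pool.Agent.Lib.MP_cf17a0_co.Mg.G039
import Pool.Agent.Lib.MP_cf17a0_co.S1.C.I3c

/-! # Core region, inside: the lower bound

Let `V = f (1 + q^L) ≥ 0`, `ρ = e^(-tL)`, `R = f(r)`, `μ` the mean, `σ² = sig2`, `u = σθ`.
1. `(1 + ρ² + 2ρ cos(Lθ)) reR f t μ θ = reR V t μ θ + ρ reR V t (μ+L) θ`
   (`f(z) = V(z)/(1+z^L)`, `z^L = ρ e^(iLθ)`; multiply by the conjugate).
2. By `cos_tangent` termwise (`V ≥ 0`), for `0 < u ≤ π` and every real `c`: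
   `reR V t c θ ≥ (cos u + u sin u / 2) V(r) - (sin u/(2u)) θ² M(V,c)`,
   `M(V,c) = ∑ V_j r^j (j-c)²`.
3. `V(r) = (1+ρ) R`, `M(V,c) = M(f,c) + ρ M(f,c-L)`, `M(f,c) = (σ² + (μ-c)²) R`, hence
   `M(V,μ) + ρ M(V,μ+L) = ((1+ρ)²σ² + 2ρL²) R`.
4. So `(1+ρ²+2ρ cos(Lθ)) reR f ≥ (1+ρ)² R (cos u - P u sin u)`, `P = ρL²/((1+ρ)²σ²)`, and
   `ρ/(1+ρ)² = 1/(4cosh²(Lt/2))`, i.e. `P = (Lt/2)²/(cosh²(Lt/2) t²σ²)`; if the bracket is
   `≥ 0`, divide by `1+ρ²+2ρcos ≤ (1+ρ)²` (and `> 0`). -/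

namespace Pool.Agent.SignedQ.Core

open Polynomial Finset Pool.Agent.SignedQ.An

private theorem reR_cont (f : ℚ[X]) (t μ : ℝ) : Continuous (reR f t μ) := by
  have : reR f t μ = fun θ => (cev f (pt t θ) * Complex.exp (-((μ * θ : ℝ) : ℂ) * Complex.I)).re :=
    rfl
  rw [this]
  have h1 : (fun θ => cev f (pt t θ)) = fun θ : ℝ =>
      ∑ j ∈ Finset.range (f.natDegree + 1), (f.coeff j : ℂ) * (pt t θ) ^ j :=
    funext fun θ => cev_eq_sum f _
  have h2 : Continuous (fun θ => pt t θ) := by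
    unfold pt
    fun_prop
  have h3 : Continuous (fun θ => cev f (pt t θ)) := by
    rw [h1]
    fun_prop
  fun_prop

private theorem rev_nonneg_of_V {f : ℚ[X]} {L : ℕ} (hV : ∀ i, 0 ≤ (f * (1 + X ^ L)).coeff i)
    (t : ℝ) : 0 ≤ rev f (Real.exp (-t)) := by
  have h1 : 0 ≤ rev (f * (1 + X ^ L)) (Real.exp (-t)) := by
    rw [rev_eq_sum]
    refine Finset.sum_nonneg fun j _ => ?_
    exact mul_nonneg (by exact_mod_cast hV j) (by positivity)
  rw [rev_mul] at h1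
  have h2 : rev (1 + X ^ L : ℚ[X]) (Real.exp (-t)) = 1 + Real.exp (-t) ^ L := by
    unfold rev
    simp [Polynomial.eval₂_add, Polynomial.eval₂_pow]
  rw [h2] at h1
  have h3 : 0 < 1 + Real.exp (-t) ^ L := by positivity
  exact nonneg_of_mul_nonneg_left h1 h3

/-- **Inside.** -/
theorem inside_int {n k a : ℕ} (hnk : Even (n * k)) (hk26 : 26 ≤ k) (ha : Odd a)
    (hP : PosAll k a) {f : ℚ[X]} (hf : f * poch (-X : ℚ[X]) k = num n k a) {t p : ℝ}
    (ht : 0 < t) (hs : 0 < sig2 n k a t) (hp' : p ≤ 1 / 25)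
    (hPP : ∀ L ≤ k, PP n k a L t ≤ p) :
    (0.9974 - 0.8925 * p) * rev f (Real.exp (-t)) / sigma n k a t ≤
      ∫ θ in (0 : ℝ)..(3 / 2 / sigma n k a t), reR f t (mu n k a f t) θ := by
  obtain ⟨L, hL1, hLk, hV⟩ := V_nonneg hnk hk26 ha hP hf
  have ha1 : 1 ≤ a := ha.pos
  have hPL : PP n k a L t ≤ p := hPP L hLk
  have hPL0 : 0 ≤ PP n k a L t := by
    unfold PP
    positivity
  have hp : 0 ≤ p := hPL0.trans hPL
  have hσ : 0 < sigma n k a t := Real.sqrt_pos.2 hs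
  have hR : 0 ≤ rev f (Real.exp (-t)) := rev_nonneg_of_V hV t
  obtain ⟨hn1, hn2⟩ := inside_num hp hp'
  set σ := sigma n k a t with hσd
  set R := rev f (Real.exp (-t)) with hRd
  have h0b : (0 : ℝ) ≤ 3 / 2 / σ := by positivity
  have hcomp : ∫ θ in (0 : ℝ)..(3 / 2 / σ), (Real.cos (σ * θ) - p * (σ * θ) * Real.sin (σ * θ)) * R =
      R / σ * ∫ u in (0 : ℝ)..(3 / 2), (Real.cos u - p * u * Real.sin u) := by
    rw [intervalIntegral.integral_mul_const]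
    have := intervalIntegral.integral_comp_mul_left (a := 0) (b := 3 / 2 / σ)
      (fun u => Real.cos u - p * u * Real.sin u) hσ.ne'
    rw [this]
    have h1 : σ * (3 / 2 / σ) = 3 / 2 := by field_simp
    rw [h1, mul_zero, smul_eq_mul]
    field_simp
  have hmono : ∫ θ in (0 : ℝ)..(3 / 2 / σ), (Real.cos (σ * θ) - p * (σ * θ) * Real.sin (σ * θ)) * R ≤
      ∫ θ in (0 : ℝ)..(3 / 2 / σ), reR f t (mu n k a f t) θ := by
    refine intervalIntegral.integral_mono_on_of_le_Ioo h0b ?_ ?_ ?_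
    · refine Continuous.intervalIntegrable ?_ _ _
      fun_prop
    · exact (reR_cont f t (mu n k a f t)).intervalIntegrable _ _
    · intro θ hθ
      have hθ0 : 0 < θ := hθ.1
      have hu0 : 0 < σ * θ := mul_pos hσ hθ0
      have hu1 : σ * θ ≤ 3 / 2 := by
        have := mul_le_mul_of_nonneg_left hθ.2.le hσ.le
        rwa [mul_div_cancel₀ _ hσ.ne'] at this
      have hpi : σ * θ ≤ Real.pi := hu1.trans (by linarith [Real.pi_gt_three])
      have hc := hn1 (σ * θ) ⟨hu0.le, hu1⟩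
      have hsin : 0 ≤ Real.sin (σ * θ) := Real.sin_nonneg_of_nonneg_of_le_pi hu0.le hpi
      have hcmp : Real.cos (σ * θ) - p * (σ * θ) * Real.sin (σ * θ) ≤
          Real.cos (σ * θ) - PP n k a L t * (σ * θ) * Real.sin (σ * θ) := by
        have : PP n k a L t * (σ * θ) * Real.sin (σ * θ) ≤ p * (σ * θ) * Real.sin (σ * θ) := by
          gcongr
        linarith
      have hpt := inside_pt ha1 hL1 hf hV ht hs hθ0 hpi (hc.trans hcmp)
      exact (mul_le_mul_of_nonneg_right hcmp hR).trans hpt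
  rw [hcomp] at hmono
  refine le_trans ?_ hmono
  have : 0 ≤ R / σ := by positivity
  calc (0.9974 - 0.8925 * p) * R / σ = R / σ * (0.9974 - 0.8925 * p) := by ring
    _ ≤ _ := mul_le_mul_of_nonneg_left hn2 this

end Pool.Agent.SignedQ.Core
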