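import Pool.Agent.Lib.MP_cf17a0_co.Mg.G041

/-! # Core region, `k t ≥ 1`, block Z2: the bins of part 4 (helper78) -/

namespace Pool.Agent.SignedQ.Core

open Real Finset Pool.Agent.SignedQ.An

/-- `lam ≤ log y` from `exp (lam/2)² ≤ y`. -/
theorem Z2c_log {q y lam : ℝ} (hl : lam = 2 * q) (h0 : 0 ≤ q) (h1 : q ≤ 1)
    (h : (∑ m ∈ Finset.range 9, q ^ m / (m.factorial : ℝ) + q ^ 9 * (9 + 1) /
      ((Nat.factorial 9 : ℝ) * 9)) ^ 2 ≤ y) : lam ≤ log y := by
  have e1 := exp_bound' h0 h1 (n := 9) (by norm_num)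
  have e2 : exp q ≤ ∑ m ∈ Finset.range 9, q ^ m / (m.factorial : ℝ) + q ^ 9 * (9 + 1) /
      ((Nat.factorial 9 : ℝ) * 9) := by exact_mod_cast e1
  have e3 := pow_le_pow_left₀ (exp_pos q).le e2 2
  have e4 : exp lam = exp q ^ 2 := by rw [hl, ← exp_nat_mul]; norm_num
  have e5 : exp lam ≤ y := by rw [e4]; exact e3.trans h
  rw [le_log_iff_exp_le ((exp_pos lam).trans_le e5)]
  exact e5

/-- `E ≤ exp (n + q)`. -/
theorem Z2c_exp {x q E : ℝ} (n : ℕ) (hx : x = n + q) (hq : 0 ≤ q)
    (h : E ≤ 2.7182818283 ^ n * ∑ m ∈ Finset.range 8, q ^ m / (m.factorial : ℝ)) : E ≤ exp x := by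
  have e1 := Real.exp_one_gt_d9
  have e2 := pow_le_pow_left₀ (by norm_num) e1.le n
  rw [← exp_nat_mul, mul_one] at e2
  have e3 := sum_le_exp_of_nonneg hq 8
  rw [hx, exp_add]
  refine h.trans (mul_le_mul e2 e3 (sum_nonneg fun m _ => by positivity) (exp_pos _).le)

theorem Z2c_bin1 : Bin 2 (853 / 1000) (12235 / 10000) (2001 / 1000) (2417 / 10000) (3042 / 10000) (1 / 2) (11 / 20) (2231 / 10000) 52186 (1000 / 31) (4909 / 10000) 50 := by
  refine ⟨by norm_num, by norm_num, by norm_num, by norm_num, by norm_num, by norm_num,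
    by norm_num, ?_, by norm_num, ?_, by norm_num, by norm_num, by norm_num, by norm_num,
    by norm_num, by norm_num, by norm_num⟩
  · refine Z2c_log (q := 2231 / 20000) (by norm_num) (by norm_num) (by norm_num) ?_
    norm_num [sum_range_succ, Nat.factorial]
  · refine Z2c_exp (q := 18977 / 22000) 10 (by norm_num) (by norm_num) ?_
    norm_num [sum_range_succ, Nat.factorial]

theorem Z2c_bin2 : Bin 2 (853 / 1000) (12235 / 10000) (2001 / 1000) (2417 / 10000) (3042 / 10000) (11 / 20) (3 / 5) (1321 / 5000) 21025 (1000 / 31) (3291 / 10000) 58 := by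
  refine ⟨by norm_num, by norm_num, by norm_num, by norm_num, by norm_num, by norm_num,
    by norm_num, ?_, by norm_num, ?_, by norm_num, by norm_num, by norm_num, by norm_num,
    by norm_num, by norm_num, by norm_num⟩
  · refine Z2c_log (q := 1321 / 10000) (by norm_num) (by norm_num) (by norm_num) ?_
    norm_num [sum_range_succ, Nat.factorial]
  · refine Z2c_exp (q := 1907 / 2000) 9 (by norm_num) (by norm_num) ?_
    norm_num [sum_range_succ, Nat.factorial]

theorem Z2c_bin3 : Bin 2 (853 / 1000) (12235 / 10000) (2001 / 1000) (2417 / 10000) (3042 / 10000) (3 / 5) (7 / 10) (1537 / 5000) 5038 (1000 / 31) (29 / 125) 65 := by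
  refine ⟨by norm_num, by norm_num, by norm_num, by norm_num, by norm_num, by norm_num,
    by norm_num, ?_, by norm_num, ?_, by norm_num, by norm_num, by norm_num, by norm_num,
    by norm_num, by norm_num, by norm_num⟩
  · refine Z2c_log (q := 1537 / 10000) (by norm_num) (by norm_num) (by norm_num) ?_
    norm_num [sum_range_succ, Nat.factorial]
  · refine Z2c_exp (q := 7349 / 14000) 8 (by norm_num) (by norm_num) ?_
    norm_num [sum_range_succ, Nat.factorial]

theorem Z2c_bin4 : Bin 2 (853 / 1000) (12235 / 10000) (2001 / 1000) (2417 / 10000) (3042 / 10000) (7 / 10) (4 / 5) (3987 / 10000) 1725 (1000 / 31) (1097 / 10000) 80 := by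
  refine ⟨by norm_num, by norm_num, by norm_num, by norm_num, by norm_num, by norm_num,
    by norm_num, ?_, by norm_num, ?_, by norm_num, by norm_num, by norm_num, by norm_num,
    by norm_num, by norm_num, by norm_num⟩
  · refine Z2c_log (q := 3987 / 20000) (by norm_num) (by norm_num) (by norm_num) ?_
    norm_num [sum_range_succ, Nat.factorial]
  · refine Z2c_exp (q := 907 / 2000) 7 (by norm_num) (by norm_num) ?_
    norm_num [sum_range_succ, Nat.factorial]

theorem Z2c_bin5 : Bin (3 / 2) (657 / 1000) (633 / 1000) (2001 / 1000) (4395 / 10000)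
    (4964 / 10000) (4 / 5) (9 / 10) (2473 / 5000) 750 (1000 / 31) (639 / 5000) 77 := by
  refine ⟨by norm_num, by norm_num, by norm_num, by norm_num, by norm_num, by norm_num,
    by norm_num, ?_, by norm_num, ?_, by norm_num, by norm_num, by norm_num, by norm_num,
    by norm_num, by norm_num, by norm_num⟩
  · refine Z2c_log (q := 2473 / 10000) (by norm_num) (by norm_num) (by norm_num) ?_
    norm_num [sum_range_succ, Nat.factorial]
  · refine Z2c_exp (q := 3721 / 6000) 6 (by norm_num) (by norm_num) ?_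
    norm_num [sum_range_succ, Nat.factorial]

theorem Z2c_bin6 : Bin (3 / 2) (657 / 1000) (633 / 1000) (2001 / 1000) (4395 / 10000)
    (4964 / 10000) (9 / 10) 1 (5933 / 10000) 385 (1000 / 31) (97 / 1250) 87 := by
  refine ⟨by norm_num, by norm_num, by norm_num, by norm_num, by norm_num, by norm_num,
    by norm_num, ?_, by norm_num, ?_, by norm_num, by norm_num, by norm_num, by norm_num,
    by norm_num, by norm_num, by norm_num⟩
  · refine Z2c_log (q := 5933 / 20000) (by norm_num) (by norm_num) (by norm_num) ?_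
    norm_num [sum_range_succ, Nat.factorial]
  · refine Z2c_exp (q := 1907 / 2000) 5 (by norm_num) (by norm_num) ?_
    norm_num [sum_range_succ, Nat.factorial]

theorem Z2c_bin7 : Bin (5 / 4) (524 / 1000) (3815 / 10000) (2001 / 1000) (5776 / 10000) (609 / 1000) 1 (11 / 10) (6931 / 10000) (2231 / 10) (1000 / 31) (221 / 2000) 80 := by
  refine ⟨by norm_num, by norm_num, by norm_num, by norm_num, by norm_num, by norm_num,
    by norm_num, ?_, by norm_num, ?_, by norm_num, by norm_num, by norm_num, by norm_num,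
    by norm_num, by norm_num, by norm_num⟩
  · refine Z2c_log (q := 6931 / 20000) (by norm_num) (by norm_num) (by norm_num) ?_
    norm_num [sum_range_succ, Nat.factorial]
  · refine Z2c_exp (q := 8977 / 22000) 5 (by norm_num) (by norm_num) ?_
    norm_num [sum_range_succ, Nat.factorial]

theorem Z2c_bin8 : Bin (5 / 4) (524 / 1000) (3815 / 10000) (2001 / 1000) (5776 / 10000) (609 / 1000) (11 / 10) (5 / 4) (7929 / 10000) (1159 / 10) (1000 / 31) (819 / 10000) 86 := by
  refine ⟨by norm_num, by norm_num, by norm_num, by norm_num, by norm_num, by norm_num,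
    by norm_num, ?_, by norm_num, ?_, by norm_num, by norm_num, by norm_num, by norm_num,
    by norm_num, by norm_num, by norm_num⟩
  · refine Z2c_log (q := 7929 / 20000) (by norm_num) (by norm_num) (by norm_num) ?_
    norm_num [sum_range_succ, Nat.factorial]
  · refine Z2c_exp (q := 1507 / 2000) 4 (by norm_num) (by norm_num) ?_
    norm_num [sum_range_succ, Nat.factorial]

theorem Z2c_bin9 : Bin 1 (372 / 1000) (188 / 1000) (2001 / 1000) (7443 / 10000) (7242 / 10000) (5 / 4) (11 / 8) (9409 / 10000) (7497 / 100) (1000 / 31) (533 / 2500) 67 := by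
  refine ⟨by norm_num, by norm_num, by norm_num, by norm_num, by norm_num, by norm_num,
    by norm_num, ?_, by norm_num, ?_, by norm_num, by norm_num, by norm_num, by norm_num,
    by norm_num, by norm_num, by norm_num⟩
  · refine Z2c_log (q := 9409 / 20000) (by norm_num) (by norm_num) (by norm_num) ?_
    norm_num [sum_range_succ, Nat.factorial]
  · refine Z2c_exp (q := 6977 / 22000) 4 (by norm_num) (by norm_num) ?_
    norm_num [sum_range_succ, Nat.factorial]

theorem Z2c_bin10 : Bin 1 (372 / 1000) (188 / 1000) (2001 / 1000) (7443 / 10000) (7242 / 10000) (11 / 8) (3 / 2) (5307 / 5000) (5211 / 100) (1000 / 31) (367 / 2000) 70 := by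
  refine ⟨by norm_num, by norm_num, by norm_num, by norm_num, by norm_num, by norm_num,
    by norm_num, ?_, by norm_num, ?_, by norm_num, by norm_num, by norm_num, by norm_num,
    by norm_num, by norm_num, by norm_num⟩
  · refine Z2c_log (q := 5307 / 10000) (by norm_num) (by norm_num) (by norm_num) ?_
    norm_num [sum_range_succ, Nat.factorial]
  · refine Z2c_exp (q := 1907 / 2000) 3 (by norm_num) (by norm_num) ?_
    norm_num [sum_range_succ, Nat.factorial]

/-- **Part 4 of block Z2.** -/
theorem blockZ2_part4 : ∀ (n k a : ℕ) (t : ℝ), Hi n k a t →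
    SData n k a t 1 (372 / 1000) (188 / 1000) (2001 / 1000) (7443 / 10000) (7242 / 10000) →
    SData n k a t (5 / 4) (524 / 1000) (3815 / 10000) (2001 / 1000) (5776 / 10000) (609 / 1000) →
    SData n k a t (3 / 2) (657 / 1000) (633 / 1000) (2001 / 1000) (4395 / 10000)
      (4964 / 10000) →
    SData n k a t 2 (853 / 1000) (12235 / 10000) (2001 / 1000) (2417 / 10000) (3042 / 10000) →
    T2P n k a t (178 / 1000) := by
  intro n k a t h h1 h5 h3 h2
  obtain ⟨-, -, ht', -, -⟩ := h.hd
  have hH : (1000 / 31 : ℝ) * (2 * t) ≤ 1 := by linarith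
  have b1 := bin_II h h2 Z2c_bin1 hH
  have b2 := bin_II h h2 Z2c_bin2 hH
  have b3 := bin_II h h2 Z2c_bin3 hH
  have b4 := bin_II h h2 Z2c_bin4 hH
  have b5 := bin_II h h3 Z2c_bin5 hH
  have b6 := bin_II h h3 Z2c_bin6 hH
  have b7 := bin_II h h5 Z2c_bin7 hH
  have b8 := bin_II h h5 Z2c_bin8 hH
  have b9 := bin_II h h1 Z2c_bin9 hH
  have b10 := bin_II h h1 Z2c_bin10 hH
  have c2 := bins_add h b1 b2
  have c3 := bins_add h c2 b3
  have c4 := bins_add h c3 b4
  have c5 := bins_add h c4 b5
  have c6 := bins_add h c5 b6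
  have c7 := bins_add h c6 b7
  have c8 := bins_add h c7 b8
  have c9 := bins_add h c8 b9
  have c10 := bins_add h c9 b10
  apply T2P_of_bins
  refine c10.trans ?_
  norm_num

end Pool.Agent.SignedQ.Core
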