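import Pool.Agent.Lib.MP_cf17a0_co.S1.C.Z2b
import Pool.Agent.Lib.MP_cf17a0_co.S1.C.Z2c

/-! # Core region, `k t ≥ 1`: block Z2 (helper97, helper78) -/

namespace Pool.Agent.SignedQ.Core

/-- **Block Z2.** -/
theorem blockZ2 : BlockZ2 :=
  ⟨fun _ _ _ _ h hS => part1 h hS, fun _ _ _ _ h h1 hS => part2 h h1 hS,
    fun _ _ _ _ h h1 hS => part3 h h1 hS,
    fun _ _ _ _ h h1 h2 h3 h4 => blockZ2_part4 _ _ _ _ h h1 h2 h3 h4⟩

end Pool.Agent.SignedQ.Core
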