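import Pool.Agent.Lib.MP_cf17a0_co.Mg.G032
import Pool.Agent.Lib.MP_cf17a0_co.S1.Dom

/-! # Core region, definitions -/

namespace Pool.Agent.SignedQ.Core

open Real Finset Pool.Agent.SignedQ.An

/-- `W_j = 1 + sin²(jθ/2)/sinh²(jt/2)`. -/
noncomputable def WW (t θ j : ℝ) : ℝ := 1 + FF (t / 2) (θ / 2) j

/-- the even one of `n`, `n - 1` -/
def nu (n : ℕ) : ℕ := 2 * (n / 2)

noncomputable def cc (i : ℕ) : ℝ := 4 * i + 2

/-- the exponent paired with `cc i` -/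
noncomputable def dd (n a i : ℕ) : ℝ :=
  if n % 2 = 1 ∧ i = 1 then a * (nu n + 2) else 2 * (a * (nu n + 2 * i - 1))

noncomputable def bb (n a i : ℕ) : ℝ := a * (nu n + 2 * i)

/-- the `i`-th pair of numerators -/
noncomputable def NN (n a : ℕ) (t θ : ℝ) (i : ℕ) : ℝ :=
  if n % 2 = 1 ∧ i = 1 then WW t θ (bb n a i)
  else WW t θ (dd n a i) * WW t θ (bb n a i) / WW t θ (a * (nu n + 2 * i - 1))

/-- The `L`-factor. -/
noncomputable def LL (k : ℕ) (t θ : ℝ) : ℝ :=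
  if Even k then (∏ i ∈ Icc 1 (k / 2 - 1), WW t θ (2 * i + 1) / WW t θ (2 * i)) *
      (WW t θ (4 * (k / 2 : ℕ) + 2) / WW t θ (2 * (k / 2 : ℕ)))
  else ∏ i ∈ Icc 1 (k / 2), WW t θ (2 * i + 1) / WW t θ (2 * i)

/-- `S_i = s(c_i h) - s(d_i h)`, `h = t/2`. -/
noncomputable def Sd (n a : ℕ) (t : ℝ) (i : ℕ) : ℝ := sf (cc i * (t / 2)) - sf (dd n a i * (t / 2))

/-- `∑ S_i` -/
noncomputable def SS (n k a : ℕ) (t : ℝ) : ℝ := ∑ i ∈ Icc 1 (k / 2), Sd n a t i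

theorem WW_one_le (t θ j : ℝ) : 1 ≤ WW t θ j := by
  unfold WW
  have := FF_nonneg (t / 2) (θ / 2) j
  linarith

theorem WW_pos (t θ j : ℝ) : 0 < WW t θ j := zero_lt_one.trans_le (WW_one_le t θ j)

end Pool.Agent.SignedQ.Core
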