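import Pool.Agent.Lib.MP_cf17a0_co.S1.C.E5a
import Pool.Agent.Lib.MP_cf17a0_co.Mg.G034

/-! # Core region, `k t ≤ 2/3`: the pointwise bound -/

namespace Pool.Agent.SignedQ.Core

open Real Finset Pool.Agent.SignedQ.An


end Pool.Agent.SignedQ.Core
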