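import Pool.Agent.Lib.MP_cf17a0_co.S1.C.E5a

/-! # Core region, `k t ≤ 2/3`: verification of the regimes, general lemma -/

namespace Pool.Agent.SignedQ.Core

open Real Finset Pool.Agent.SignedQ.An

/-- Three point condition. `x = X²`, `τ2 = (kt)²`. For `x ≤ 15/2` (and `τ2 ≤ x/α2`,
`q ≤ (5/3) x/(5+x)`) multiply by `(5 + x)(5 + r x)/x`: a convex quadratic `≤` a linear function of
`x`, true at `x = 0` (`h0`) and at `x = 15/2` (`h1`). For `15/2 ≤ x ≤ α2 τm` (`q ≤ 1`,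
`τ2 ≤ x/α2`) multiply by `5 + r x`: convex `≤` linear, true at both ends (`h1`, `h2`). For
`x ≥ α2 τm` the left side is `≤ A + B τm` and the right side is increasing (`h2`). -/
theorem regkey3 {A B r α2 τm x τ2 q : ℝ} (hA : 0 ≤ A) (hB : 0 ≤ B) (hr : 0 < r) (hα : 0 < α2)
    (h0 : 25 / 3 * A + 25 * B / α2 ≤ 25 / 9 * r)
    (h1 : (A + 15 / 2 * B / α2) * (5 + 15 / 2 * r) ≤ 5 / 9 * r * (15 / 2))
    (h2 : (A + B * τm) * (5 + r * (α2 * τm)) ≤ 5 / 9 * r * (α2 * τm))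
    (hm : 15 / 2 ≤ α2 * τm) (hx : 0 < x) (hτ0 : 0 ≤ τ2) (hτ : α2 * τ2 ≤ x) (hτm : τ2 ≤ τm)
    (hq : q ≤ x / (3 + 3 / 5 * x)) (hq1 : q ≤ 1) :
    A * q + B * τ2 ≤ 5 / 9 * (r * x / (5 + r * x)) := by
  obtain ⟨β, hβ⟩ : ∃ β, β = B / α2 := ⟨_, rfl⟩
  have hβ0 : 0 ≤ β := by rw [hβ]; positivity
  have hBβ : B = β * α2 := by rw [hβ]; field_simp
  have e0 : 25 * B / α2 = 25 * β := by rw [hβ]; ring
  have e1 : 15 / 2 * B / α2 = 15 / 2 * β := by rw [hβ]; ring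
  rw [e0] at h0
  rw [e1] at h1
  have hrx : 0 < 5 + r * x := by positivity
  have hBτ : B * τ2 ≤ β * x := by
    rw [hBβ, mul_assoc]
    exact mul_le_mul_of_nonneg_left hτ hβ0
  obtain ⟨y, hy⟩ : ∃ y, y = α2 * τm := ⟨_, rfl⟩
  rw [← hy] at h2 hm
  have hBm : B * τm = β * y := by rw [hBβ, hy]; ring
  rw [hBm] at h2
  rw [← mul_div_assoc, le_div_iff₀ hrx]
  have hBτ' : B * τ2 ≤ β * y := by
    rw [← hBm]
    exact mul_le_mul_of_nonneg_left hτm hB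
  rcases le_or_gt x (15 / 2) with hx1 | hx1
  · have hq' : A * q ≤ A * (x / (3 + 3 / 5 * x)) := mul_le_mul_of_nonneg_left hq hA
    have h35 : 0 < 3 + 3 / 5 * x := by positivity
    have h5 : (A * (x / (3 + 3 / 5 * x)) + β * x) * (5 + r * x) ≤ 5 / 9 * (r * x) := by
      have e2 : A * (x / (3 + 3 / 5 * x)) + β * x =
          (A * x + β * x * (3 + 3 / 5 * x)) / (3 + 3 / 5 * x) := by
        field_simp
      rw [e2, div_mul_eq_mul_div, div_le_iff₀ h35]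
      have hφ : 5 / 3 * A * (5 + r * x) + β * (5 + x) * (5 + r * x) ≤ 5 / 9 * r * (5 + x) := by
        have hs0 : 0 ≤ 15 / 2 - x := by linarith
        have k1 := mul_le_mul_of_nonneg_left h0 hs0
        have k2 := mul_le_mul_of_nonneg_left h1 hx.le
        have k3 : 0 ≤ β * r * (x * (15 / 2 - x)) :=
          mul_nonneg (mul_nonneg hβ0 hr.le) (mul_nonneg hx.le hs0)
        nlinarith
      have k4 := mul_le_mul_of_nonneg_left hφ hx.le
      nlinarith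
    refine le_trans ?_ h5
    exact mul_le_mul_of_nonneg_right (add_le_add hq' hBτ) hrx.le
  · have hq' : A * q ≤ A := by
      have := mul_le_mul_of_nonneg_left hq1 hA
      linarith
    rcases le_or_gt x y with hx2 | hx2
    · have h5 : (A + β * x) * (5 + r * x) ≤ 5 / 9 * (r * x) := by
        have hp : 0 < y - 15 / 2 := by linarith
        have k1 := mul_le_mul_of_nonneg_left h1 (show 0 ≤ y - x by linarith)
        have k2 := mul_le_mul_of_nonneg_left h2 (show 0 ≤ x - 15 / 2 by linarith)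
        have k3 : 0 ≤ β * r * ((x - 15 / 2) * (y - x) * (y - 15 / 2)) :=
          mul_nonneg (mul_nonneg hβ0 hr.le)
            (mul_nonneg (mul_nonneg (by linarith) (by linarith)) hp.le)
        have k4 : (y - 15 / 2) * ((A + β * x) * (5 + r * x)) ≤
            (y - 15 / 2) * (5 / 9 * (r * x)) := by
          have e3 : (y - 15 / 2) * ((A + β * x) * (5 + r * x)) =
              (y - x) * ((A + 15 / 2 * β) * (5 + 15 / 2 * r)) +
                (x - 15 / 2) * ((A + β * y) * (5 + r * y)) -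
                β * r * ((x - 15 / 2) * (y - x) * (y - 15 / 2)) := by ring
          have e4 : (y - 15 / 2) * (5 / 9 * (r * x)) =
              (y - x) * (5 / 9 * r * (15 / 2)) + (x - 15 / 2) * (5 / 9 * r * y) := by ring
          rw [e3, e4]
          linarith
        exact le_of_mul_le_mul_left k4 hp
      refine le_trans ?_ h5
      exact mul_le_mul_of_nonneg_right (add_le_add hq' hBτ) hrx.le
    · have hry : 0 < 5 + r * y := by
        have : 0 < y := by linarith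
        positivity
      have h5 : A + β * y ≤ 5 / 9 * r * y / (5 + r * y) := by
        rw [le_div_iff₀ hry]
        exact h2
      have h6 : 5 / 9 * r * y / (5 + r * y) ≤ 5 / 9 * (r * x) / (5 + r * x) := by
        rw [div_le_div_iff₀ hry hrx]
        nlinarith [mul_le_mul_of_nonneg_left hx2.le hr.le]
      have h7 : A * q + B * τ2 ≤ 5 / 9 * (r * x) / (5 + r * x) := by linarith
      rwa [le_div_iff₀ hrx] at h7

/-- One point condition, `r = 1`: `q ≤ (5/3) x/(5+x)`; for `x ≤ α2 τm` use `τ2 ≤ x/α2` and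
`x/(5+x) ≥ (x/(α2 τm)) (α2τm)/(5+α2τm)`; for `x ≥ α2 τm` use `τ2 ≤ τm`. -/
theorem regkey1 {A B α2 τm x τ2 q : ℝ} (hA : 0 ≤ A) (hB : 0 ≤ B) (hα : 0 < α2)
    (hA3 : 3 * A ≤ 1) (hm : 0 < τm)
    (h2 : B * τm * (5 + α2 * τm) ≤ (5 / 9 - 5 / 3 * A) * (α2 * τm))
    (hx : 0 < x) (hτ0 : 0 ≤ τ2) (hτ : α2 * τ2 ≤ x) (hτm : τ2 ≤ τm)
    (hq : q ≤ x / (3 + 3 / 5 * x)) :
    A * q + B * τ2 ≤ 5 / 9 * (x / (5 + x)) := by
  obtain ⟨β, hβ⟩ : ∃ β, β = B / α2 := ⟨_, rfl⟩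
  have hβ0 : 0 ≤ β := by rw [hβ]; positivity
  have hBβ : B = β * α2 := by rw [hβ]; field_simp
  have hBτ : B * τ2 ≤ β * x := by
    rw [hBβ, mul_assoc]
    exact mul_le_mul_of_nonneg_left hτ hβ0
  obtain ⟨y, hy⟩ : ∃ y, y = α2 * τm := ⟨_, rfl⟩
  have hy0 : 0 < y := by rw [hy]; positivity
  rw [← hy] at h2
  have hBm : B * τm = β * y := by rw [hBβ, hy]; ring
  rw [hBm] at h2
  have hBτ' : B * τ2 ≤ β * y := by
    rw [← hBm]
    exact mul_le_mul_of_nonneg_left hτm hB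
  have h5x : 0 < 5 + x := by linarith
  have hC : 0 ≤ 5 / 9 - 5 / 3 * A := by linarith
  have hβC : β * (5 + y) ≤ 5 / 9 - 5 / 3 * A := by
    have h3 : y * (β * (5 + y)) ≤ y * (5 / 9 - 5 / 3 * A) := by linarith
    exact le_of_mul_le_mul_left h3 hy0
  have hq' : A * q ≤ 5 / 3 * A * (x / (5 + x)) := by
    have h3 := mul_le_mul_of_nonneg_left hq hA
    have e1 : x / (3 + 3 / 5 * x) = 5 / 3 * (x / (5 + x)) := by
      field_simp
    rw [e1] at h3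
    linarith
  have hkey : B * τ2 ≤ (5 / 9 - 5 / 3 * A) * (x / (5 + x)) := by
    rw [← mul_div_assoc, le_div_iff₀ h5x]
    rcases le_or_gt x y with h3 | h3
    · have k1 : B * τ2 * (5 + x) ≤ β * x * (5 + x) := mul_le_mul_of_nonneg_right hBτ h5x.le
      have k2 : β * (5 + x) ≤ β * (5 + y) := mul_le_mul_of_nonneg_left (by linarith) hβ0
      have k3 := mul_le_mul_of_nonneg_left (k2.trans hβC) hx.le
      nlinarith
    · have k1 : B * τ2 * (5 + x) ≤ β * y * (5 + x) := mul_le_mul_of_nonneg_right hBτ' h5x.le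
      have k2 : β * y * (5 + x) ≤ β * (5 + y) * x := by
        have : β * y ≤ β * x := mul_le_mul_of_nonneg_left h3.le hβ0
        nlinarith
      have k3 := mul_le_mul_of_nonneg_right hβC hx.le
      linarith
  linarith

/-- The data common to both cases: `α` with `X ≥ α k t`, `τm` with `(kt)² ≤ τm`, `r ≤ ρ_P`,
`R2 ≥ ρ_P²`, `κ ≥ κ_P`, where `P1 ≤ k/2`. -/
structure RegD (n k a : ℕ) (t α τm r R2 κ : ℝ) (P1 : ℕ) : Prop where
  hnk : Even (n * k)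
  ha : Odd a
  ha3 : 3 ≤ a
  hk : 26 ≤ k
  ht : 0 < t
  hkt : k * t ≤ 2 / 3
  hP1 : 13 ≤ P1
  hP : P1 ≤ k / 2
  hα : 0 < α
  hX : α * (k * t) ≤ XX n k a t
  hτ : (k * t) ^ 2 ≤ τm
  hr0 : 0 < r
  hr : r ≤ (2 * (k / 2 : ℕ) + 1) / (2 * (k / 2 : ℕ) - 1)
  hR2 : ((2 * (k / 2 : ℕ) + 1) / (2 * (k / 2 : ℕ) - 1)) ^ 2 ≤ R2
  hκ : 1 + 3 / ((k / 2 : ℕ) : ℝ) + 11 / (4 * ((k / 2 : ℕ) : ℝ) ^ 2) ≤ κ

/-- **Output.** `SS_ge` gives `SS ≥ P ((5/9) r x/(5 + r x) - κ τ2/9)`, `x = X²`; with `A q + B τ2 ≤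
(5/9) r x/(5+rx)` for `(A, B)` equal to `(M/P1, κ/9)`, `(M R2/((ρ-M)P1), M e1/((ρ-M)P1) + κ/9)`,
`(0, s²/P1 + κ/9)` one gets `hMq`, `hρ` (`sig2_le_SS`, `q_num_le`, and
`(k+1)/2 (t/2)² + (1 - sf ((k+1)t)) ≤ e1 (kt)²`, `e1 = 73/200`, for `k ≥ 26`: `1 - sf x ≤ x²/3`),
`hs`. `hsc`: `sf ((k+1) t) ≥ 1 - x²/(3 + 3x²/5)` with `x = (k+1)t ≤ xm`. -/
theorem regI_of {n k a : ℕ} {t α τm r R2 κ : ℝ} {P1 : ℕ} (D : RegD n k a t α τm r R2 κ P1)
    {M ρ s sc kk xm : ℝ} {P0 : ℕ} (hP0 : 2 ≤ P0) (hP01 : P0 ≤ P1) (hM : 0 < M) (hMρ : M < ρ)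
    (hs0 : 0 < s)
    (h1 : M / P1 * (1 - sf (XX n k a t)) + κ / 9 * (k * t) ^ 2 ≤
      5 / 9 * (r * XX n k a t ^ 2 / (5 + r * XX n k a t ^ 2)))
    (h2 : M * R2 / ((ρ - M) * P1) * (1 - sf (XX n k a t)) +
        (M * (73 / 200) / ((ρ - M) * P1) + κ / 9) * (k * t) ^ 2 ≤
      5 / 9 * (r * XX n k a t ^ 2 / (5 + r * XX n k a t ^ 2)))
    (h3 : (s ^ 2 / P1 + κ / 9) * (k * t) ^ 2 ≤
      5 / 9 * (r * XX n k a t ^ 2 / (5 + r * XX n k a t ^ 2)))
    (hsc0 : 0 < sc) (hxm : (k + 1) * t ≤ xm) (hsc : sc ≤ 1 - xm ^ 2 / (3 + 3 / 5 * xm ^ 2))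
    (hkk : 1 + 1 / (k : ℝ) ≤ kk) : RegI n k a t M ρ s sc kk P0 := by
  have hk4 : 4 ≤ k := by have := D.hk; omega
  have hk2 : 2 ≤ k := by omega
  have ht := D.ht
  have hk26 : (26 : ℝ) ≤ k := by exact_mod_cast D.hk
  have hk0 : (0 : ℝ) < k := by linarith
  have hP13 : (13 : ℝ) ≤ P1 := by exact_mod_cast D.hP1
  have hPP : (P1 : ℝ) ≤ ((k / 2 : ℕ) : ℝ) := by exact_mod_cast D.hP
  have hSS := SS_ge (n := n) D.ha3 hk4 ht
  have hsig := sig2_le_SS D.hnk D.ha hk2 ht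
  have hnum := q_num_le (a := a) D.hnk D.ha3 hk4 ht
  have hX0 : 0 < XX n k a t := by
    have h := D.hX
    have hα := D.hα
    have : 0 < α * (k * t) := by positivity
    linarith
  have hQ : 0 ≤ 1 - sf (XX n k a t) := by
    have := sf_le_one hX0
    linarith
  have hr := D.hr
  have hr0 := D.hr0
  have hR2 := D.hR2
  have hκ := D.hκ
  generalize (2 * ((k / 2 : ℕ) : ℝ) + 1) / (2 * ((k / 2 : ℕ) : ℝ) - 1) = ρP at *
  generalize 1 + 3 / ((k / 2 : ℕ) : ℝ) + 11 / (4 * ((k / 2 : ℕ) : ℝ) ^ 2) = κP at *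
  generalize ((k / 2 : ℕ) : ℝ) = P at *
  have hP0' : 0 < P := by linarith
  have hP10 : (0 : ℝ) < P1 := by linarith
  obtain ⟨E, hE⟩ : ∃ E, E = 5 / 9 * (r * XX n k a t ^ 2 / (5 + r * XX n k a t ^ 2)) -
      κ / 9 * (k * t) ^ 2 := ⟨_, rfl⟩
  have hX2 : 0 < XX n k a t ^ 2 := by positivity
  have hτ0 : 0 ≤ ((k : ℝ) * t) ^ 2 := sq_nonneg _
  have hlow : P * E ≤ SS n k a t := by
    refine le_trans ?_ hSS
    have k1 : r * XX n k a t ^ 2 / (5 + r * XX n k a t ^ 2) ≤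
        ρP * XX n k a t ^ 2 / (5 + ρP * XX n k a t ^ 2) := by
      have h5 : r * XX n k a t ^ 2 ≤ ρP * XX n k a t ^ 2 :=
        mul_le_mul_of_nonneg_right hr hX2.le
      have h6 : 0 < r * XX n k a t ^ 2 := by positivity
      rw [div_le_div_iff₀ (by linarith) (by linarith)]
      nlinarith
    have k2 : κP * (k * t) ^ 2 ≤ κ * (k * t) ^ 2 := mul_le_mul_of_nonneg_right hκ hτ0
    have k3 := mul_le_mul_of_nonneg_left k1 hP0'.le
    have k4 := mul_le_mul_of_nonneg_left k2 hP0'.le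
    rw [hE]
    generalize r * XX n k a t ^ 2 / (5 + r * XX n k a t ^ 2) = u at *
    generalize ρP * XX n k a t ^ 2 / (5 + ρP * XX n k a t ^ 2) = v at *
    nlinarith
  have hP1E : 0 ≤ E → P1 * E ≤ SS n k a t := fun h =>
    (mul_le_mul_of_nonneg_right hPP h).trans hlow
  have hρM : 0 < ρ - M := by linarith
  refine ⟨D.hnk, D.ha, D.ha3, D.hk, D.ht, D.hkt, hP0, hP01.trans D.hP, hM, ?_, hM.trans hMρ, ?_,
    hs0, ?_, hsc0, ?_, hkk⟩
  · have h5 : M / P1 * (1 - sf (XX n k a t)) ≤ E := by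
      rw [hE]
      linarith
    have h6 : 0 ≤ M / P1 * (1 - sf (XX n k a t)) := by positivity
    have h7 := hP1E (h6.trans h5)
    refine le_trans ?_ h7
    have h8 := mul_le_mul_of_nonneg_left h5 hP10.le
    have e : (P1 : ℝ) * (M / P1 * (1 - sf (XX n k a t))) = M * (1 - sf (XX n k a t)) := by
      field_simp
    rw [e] at h8
    exact h8
  · have h5 : M * R2 / ((ρ - M) * P1) * (1 - sf (XX n k a t)) +
        M * (73 / 200) / ((ρ - M) * P1) * (k * t) ^ 2 ≤ E := by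
      rw [hE]
      linarith
    have hR0 : 0 ≤ R2 := le_trans (sq_nonneg _) hR2
    have h6 : 0 ≤ M * R2 / ((ρ - M) * P1) * (1 - sf (XX n k a t)) +
        M * (73 / 200) / ((ρ - M) * P1) * (k * t) ^ 2 := by positivity
    have h7 := hP1E (h6.trans h5)
    have h8 := mul_le_mul_of_nonneg_left h5 (show 0 ≤ (ρ - M) * P1 by positivity)
    have e : (ρ - M) * P1 * (M * R2 / ((ρ - M) * P1) * (1 - sf (XX n k a t)) +
        M * (73 / 200) / ((ρ - M) * P1) * (k * t) ^ 2) =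
        M * (R2 * (1 - sf (XX n k a t))) + M * (73 / 200 * (k * t) ^ 2) := by
      field_simp
    rw [e] at h8
    have h9 : 1 - sf (a * (n + k) * t) ≤ R2 * (1 - sf (XX n k a t)) :=
      hnum.trans (mul_le_mul_of_nonneg_right hR2 hQ)
    have h10 : ((k : ℝ) + 1) / 2 * (t / 2) ^ 2 + (1 - sf ((k + 1) * t)) ≤
        73 / 200 * (k * t) ^ 2 := by
      have h11 := sf_ge' (x := ((k : ℝ) + 1) * t) (by positivity)
      have h12 : ((k : ℝ) + 1) / 8 + (k + 1) ^ 2 / 3 ≤ 73 / 200 * (k : ℝ) ^ 2 := by nlinarith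
      have h13 := mul_le_mul_of_nonneg_right h12 (sq_nonneg t)
      nlinarith
    have h14 : M * (t ^ 2 * sig2 n k a t) ≤ M * (SS n k a t + 73 / 200 * (k * t) ^ 2 +
        R2 * (1 - sf (XX n k a t))) := mul_le_mul_of_nonneg_left (by linarith) hM.le
    have h15 := mul_le_mul_of_nonneg_left h7 hρM.le
    nlinarith
  · have h5 : s ^ 2 / P1 * (k * t) ^ 2 ≤ E := by
      rw [hE]
      linarith
    have h6 : 0 ≤ s ^ 2 / P1 * (k * t) ^ 2 := by positivity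
    have h7 := hP1E (h6.trans h5)
    refine le_trans ?_ h7
    have h8 := mul_le_mul_of_nonneg_left h5 hP10.le
    have e : (P1 : ℝ) * (s ^ 2 / P1 * (k * t) ^ 2) = s ^ 2 * (k * t) ^ 2 := by
      field_simp
    rw [e] at h8
    exact h8
  · have hx0 : 0 < ((k : ℝ) + 1) * t := by positivity
    refine hsc.trans (le_trans ?_ (sf_ge hx0))
    have h5 : (((k : ℝ) + 1) * t) ^ 2 ≤ xm ^ 2 := pow_le_pow_left₀ hx0.le hxm 2
    have h6 : 0 < (((k : ℝ) + 1) * t) ^ 2 := by positivity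
    have h7 : (((k : ℝ) + 1) * t) ^ 2 / (3 + 3 / 5 * (((k : ℝ) + 1) * t) ^ 2) ≤
        xm ^ 2 / (3 + 3 / 5 * xm ^ 2) := by
      rw [div_le_div_iff₀ (by linarith) (by linarith)]
      nlinarith
    linarith

end Pool.Agent.SignedQ.Core
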