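import Pool.Agent.Lib.MP_cf17a0_co.S1.C.C0

/-! # Core region, inside: `f (1 + q^L)` has nonnegative coefficients

`x = -q`, `f_{n,k} poch(-X) k = num n k a = (1+q)^K ∏_{v<k} (1 - x^{a(n+v+1)})`, `K = (k+1)/2`. -/

namespace Pool.Agent.SignedQ.Core

open Polynomial Finset Pool.Agent.SignedQ.An

/-- The quotient `(1 - q^(a k)) / (1 - q^k) = ∑_{j<a} q^(kj)`. -/
noncomputable def geo (a k : ℕ) : ℚ[X] := ∑ j ∈ range a, X ^ (k * j)

theorem geo_mul (a k : ℕ) : geo a k * (1 - X ^ k) = 1 - X ^ (a * k) := by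
  unfold geo
  have h := geom_sum_mul_neg (X ^ k : ℚ[X]) a
  have e : ∑ j ∈ range a, (X : ℚ[X]) ^ (k * j) = ∑ j ∈ range a, (X ^ k : ℚ[X]) ^ j :=
    sum_congr rfl fun j _ => by rw [pow_mul]
  rw [e, h, ← pow_mul, mul_comm k a]

theorem geo_nonneg (a k : ℕ) (i : ℕ) : 0 ≤ (geo a k).coeff i := by
  unfold geo
  rw [finsetSum_coeff]
  refine sum_nonneg fun j _ => ?_
  rw [coeff_X_pow]
  split_ifs <;> norm_num

/-- Nonnegative coefficients are preserved by products and sums. -/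
theorem coeff_mul_nonneg {f g : ℚ[X]} (hf : ∀ i, 0 ≤ f.coeff i) (hg : ∀ i, 0 ≤ g.coeff i) (i : ℕ) :
    0 ≤ (f * g).coeff i := by
  rw [coeff_mul]
  exact sum_nonneg fun p _ => mul_nonneg (hf _) (hg _)

theorem pochX_ne (k : ℕ) : poch (-X : ℚ[X]) k ≠ 0 :=
  poch_ne_zero _ (fun i => one_sub_ne (i + 1) (by omega)) k

/-- `k` even, `n ≥ 2`. `V = f (1 + q^(k-1))` satisfies
`V_n = q^(ak) V_{n-2} + (1+q) geo a k (1 + q^(a(2n+k-1))) g`, `g = f_{n,k-2}`: multiply by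
`poch (-X) k ≠ 0`; `poch (-X) k = poch (-X) (k-2) (1 + q^(k-1)) (1 - q^k)`; the identity is
`(1 - x^(a(n+k-1)))(1 - x^(a(n+k))) = x^(ak) (1 - x^(a(n-1)))(1 - x^(an)) +
 (1 - x^(ak)) (1 - x^(a(2n+k-1)))` with `x^(ak) = q^(ak)`, `1 - x^(a(2n+k-1)) = 1 + q^(a(2n+k-1))`. -/
theorem V_rec {n k a : ℕ} (hk : Even k) (hk2 : 2 ≤ k) (ha : Odd a) {f f' g : ℚ[X]}
    (hf : f * poch (-X : ℚ[X]) k = num (n + 2) k a)
    (hf' : f' * poch (-X : ℚ[X]) k = num n k a)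
    (hg : g * poch (-X : ℚ[X]) (k - 2) = num (n + 2) (k - 2) a) :
    f * (1 + X ^ (k - 1)) = X ^ (a * k) * (f' * (1 + X ^ (k - 1))) +
      (1 + X) * geo a k * (1 + X ^ (a * (2 * (n + 2) + k - 1))) * g := by
  obtain ⟨Q, rfl⟩ : ∃ Q, k = 2 * Q + 2 := by
    obtain ⟨P, hP⟩ := hk
    exact ⟨P - 1, by omega⟩
  have hne : poch (-X : ℚ[X]) (2 * Q + 2) ≠ 0 := pochX_ne _
  refine mul_right_cancel₀ hne ?_
  have hgeo := geo_mul a (2 * Q + 2)
  have hp : poch (-X : ℚ[X]) (2 * Q + 2) =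
      poch (-X : ℚ[X]) (2 * Q) * (1 + X ^ (2 * Q + 1)) * (1 - X ^ (2 * Q + 2)) := by
    rw [show 2 * Q + 2 = 2 * Q + 1 + 1 by ring, poch_succ, poch_succ,
      Odd.neg_pow ⟨Q, rfl⟩, Even.neg_pow ⟨Q + 1, by ring⟩]
    ring
  rw [show 2 * Q + 2 - 1 = 2 * Q + 1 by omega, show 2 * Q + 2 - 2 = 2 * Q by omega] at *
  set A : ℚ[X] := ∏ v ∈ range (2 * Q), (1 - (-X) ^ (a * (n + 2 + v + 1))) with hA
  have n1 : num (n + 2) (2 * Q + 2) a = (1 + X) ^ (Q + 1) * A *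
      ((1 - (-X) ^ (a * (n + 2 + 2 * Q + 1))) * (1 - (-X) ^ (a * (n + 2 + (2 * Q + 1) + 1)))) := by
    unfold num
    rw [show (2 * Q + 2 + 1) / 2 = Q + 1 by omega, show 2 * Q + 2 = 2 * Q + 1 + 1 by ring,
      prod_range_succ, prod_range_succ]
    ring
  have n2 : num n (2 * Q + 2) a = (1 + X) ^ (Q + 1) * A *
      ((1 - (-X) ^ (a * (n + 1))) * (1 - (-X) ^ (a * (n + 2)))) := by
    unfold num
    rw [show (2 * Q + 2 + 1) / 2 = Q + 1 by omega, prod_range_succ', prod_range_succ']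
    have e : ∏ v ∈ range (2 * Q), (1 - (-X : ℚ[X]) ^ (a * (n + (v + 1 + 1) + 1))) = A := by
      rw [hA]
      refine prod_congr rfl fun v _ => ?_
      rw [show n + (v + 1 + 1) + 1 = n + 2 + v + 1 by ring]
    rw [e, show n + (0 + 1) + 1 = n + 2 by ring, show n + 0 + 1 = n + 1 by ring]
    ring
  have n3 : num (n + 2) (2 * Q) a = (1 + X) ^ Q * A := by
    unfold num
    rw [show (2 * Q + 1) / 2 = Q by omega, ← hA]
  have x1 : (X : ℚ[X]) ^ (a * (2 * Q + 2)) = (-X) ^ (a * (2 * Q + 2)) := by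
    rw [Even.neg_pow (Even.mul_left ⟨Q + 1, by ring⟩ a)]
  have x2 : (X : ℚ[X]) ^ (a * (2 * (n + 2) + (2 * Q + 2) - 1)) =
      -((-X) ^ (a * (n + 1)) * (-X) ^ (a * (n + 2)) * (-X) ^ (a * (2 * Q + 2))) := by
    rw [← pow_add, ← pow_add, ← Nat.mul_add, ← Nat.mul_add,
      show 2 * (n + 2) + (2 * Q + 2) - 1 = n + 1 + (n + 2) + (2 * Q + 2) by omega,
      Odd.neg_pow (ha.mul ⟨n + 1 + Q + 1, by ring⟩)]
    ring
  have x3 : (-X : ℚ[X]) ^ (a * (n + 2 + 2 * Q + 1)) =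
      (-X) ^ (a * (n + 1)) * (-X) ^ (a * (2 * Q + 2)) := by
    rw [← pow_add, ← Nat.mul_add]
    congr 2
    ring
  have x4 : (-X : ℚ[X]) ^ (a * (n + 2 + (2 * Q + 1) + 1)) =
      (-X) ^ (a * (n + 2)) * (-X) ^ (a * (2 * Q + 2)) := by
    rw [← pow_add, ← Nat.mul_add]
    congr 2
  have key : num (n + 2) (2 * Q + 2) a = X ^ (a * (2 * Q + 2)) * num n (2 * Q + 2) a +
      (1 + X) * (1 - X ^ (a * (2 * Q + 2))) *
        (1 + X ^ (a * (2 * (n + 2) + (2 * Q + 2) - 1))) * num (n + 2) (2 * Q) a := by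
    rw [n1, n2, n3, x2, x3, x4, x1, pow_succ (1 + X : ℚ[X]) Q]
    ring
  calc f * (1 + X ^ (2 * Q + 1)) * poch (-X : ℚ[X]) (2 * Q + 2)
      = (1 + X ^ (2 * Q + 1)) * (f * poch (-X : ℚ[X]) (2 * Q + 2)) := by ring
    _ = (1 + X ^ (2 * Q + 1)) * num (n + 2) (2 * Q + 2) a := by rw [hf]
    _ = (1 + X ^ (2 * Q + 1)) * (X ^ (a * (2 * Q + 2)) * num n (2 * Q + 2) a +
      (1 + X) * (1 - X ^ (a * (2 * Q + 2))) *
        (1 + X ^ (a * (2 * (n + 2) + (2 * Q + 2) - 1))) * num (n + 2) (2 * Q) a) := by rw [key]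
    _ = (1 + X ^ (2 * Q + 1)) *
        (X ^ (a * (2 * Q + 2)) * (f' * poch (-X : ℚ[X]) (2 * Q + 2)) +
      (1 + X) * (geo a (2 * Q + 2) * (1 - X ^ (2 * Q + 2))) *
        (1 + X ^ (a * (2 * (n + 2) + (2 * Q + 2) - 1))) * (g * poch (-X : ℚ[X]) (2 * Q))) := by
        rw [hf', hg, hgeo]
    _ = X ^ (a * (2 * Q + 2)) * (f' * (1 + X ^ (2 * Q + 1))) * poch (-X : ℚ[X]) (2 * Q + 2) +
      (1 + X) * geo a (2 * Q + 2) * (1 + X ^ (a * (2 * (n + 2) + (2 * Q + 2) - 1))) * g *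
        (poch (-X : ℚ[X]) (2 * Q) * (1 + X ^ (2 * Q + 1)) * (1 - X ^ (2 * Q + 2))) := by ring
    _ = _ := by rw [← hp]; ring

/-- The same without the first term for `n = 0, 1` (then `(1 - x^(a(n-1)))(1 - x^(an))` has to be
read as `0`). -/
theorem V_base {n k a : ℕ} (hn : n ≤ 1) (hk : Even k) (hk2 : 2 ≤ k) (ha : Odd a) {f g : ℚ[X]}
    (hf : f * poch (-X : ℚ[X]) k = num n k a)
    (hg : g * poch (-X : ℚ[X]) (k - 2) = num n (k - 2) a) :
    f * (1 + X ^ (k - 1)) = (1 + X) * geo a k * (1 + X ^ (a * (2 * n + k - 1))) * g := by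
  obtain ⟨Q, rfl⟩ : ∃ Q, k = 2 * Q + 2 := by
    obtain ⟨P, hP⟩ := hk
    exact ⟨P - 1, by omega⟩
  have hne : poch (-X : ℚ[X]) (2 * Q + 2) ≠ 0 := pochX_ne _
  refine mul_right_cancel₀ hne ?_
  have hgeo := geo_mul a (2 * Q + 2)
  have hp : poch (-X : ℚ[X]) (2 * Q + 2) =
      poch (-X : ℚ[X]) (2 * Q) * (1 + X ^ (2 * Q + 1)) * (1 - X ^ (2 * Q + 2)) := by
    rw [show 2 * Q + 2 = 2 * Q + 1 + 1 by ring, poch_succ, poch_succ,
      Odd.neg_pow ⟨Q, rfl⟩, Even.neg_pow ⟨Q + 1, by ring⟩]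
    ring
  rw [show 2 * Q + 2 - 1 = 2 * Q + 1 by omega, show 2 * Q + 2 - 2 = 2 * Q by omega] at *
  set A : ℚ[X] := ∏ v ∈ range (2 * Q), (1 - (-X) ^ (a * (n + v + 1))) with hA
  have n1 : num n (2 * Q + 2) a = (1 + X) ^ (Q + 1) * A *
      ((1 - (-X) ^ (a * (n + 2 * Q + 1))) * (1 - (-X) ^ (a * (n + (2 * Q + 1) + 1)))) := by
    unfold num
    rw [show (2 * Q + 2 + 1) / 2 = Q + 1 by omega, show 2 * Q + 2 = 2 * Q + 1 + 1 by ring,
      prod_range_succ, prod_range_succ]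
    ring
  have n3 : num n (2 * Q) a = (1 + X) ^ Q * A := by
    unfold num
    rw [show (2 * Q + 1) / 2 = Q by omega, ← hA]
  have x1 : (1 - (-X : ℚ[X]) ^ (a * (n + 2 * Q + 1))) * (1 - (-X) ^ (a * (n + (2 * Q + 1) + 1))) =
      (1 - X ^ (a * (2 * Q + 2))) * (1 + X ^ (a * (2 * n + (2 * Q + 2) - 1))) := by
    rcases Nat.le_one_iff_eq_zero_or_eq_one.1 hn with rfl | rfl
    · rw [show 2 * 0 + (2 * Q + 2) - 1 = 2 * Q + 1 by omega,
        show 0 + (2 * Q + 1) + 1 = 2 * Q + 2 by ring, show 0 + 2 * Q + 1 = 2 * Q + 1 by ring,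
        Odd.neg_pow (show Odd (a * (2 * Q + 1)) from ha.mul ⟨Q, rfl⟩),
        Even.neg_pow (show Even (a * (2 * Q + 2)) from Even.mul_left ⟨Q + 1, by ring⟩ a)]
      ring
    · rw [show 2 * 1 + (2 * Q + 2) - 1 = 2 * Q + 3 by omega,
        show 1 + (2 * Q + 1) + 1 = 2 * Q + 3 by ring, show 1 + 2 * Q + 1 = 2 * Q + 2 by ring,
        Odd.neg_pow (show Odd (a * (2 * Q + 3)) from ha.mul ⟨Q + 1, by ring⟩),
        Even.neg_pow (show Even (a * (2 * Q + 2)) from Even.mul_left ⟨Q + 1, by ring⟩ a)]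
      ring
  have key : num n (2 * Q + 2) a = (1 + X) * (1 - X ^ (a * (2 * Q + 2))) *
        (1 + X ^ (a * (2 * n + (2 * Q + 2) - 1))) * num n (2 * Q) a := by
    rw [n1, n3, x1, pow_succ (1 + X : ℚ[X]) Q]
    ring
  calc f * (1 + X ^ (2 * Q + 1)) * poch (-X : ℚ[X]) (2 * Q + 2)
      = (1 + X ^ (2 * Q + 1)) * (f * poch (-X : ℚ[X]) (2 * Q + 2)) := by ring
    _ = (1 + X ^ (2 * Q + 1)) * num n (2 * Q + 2) a := by rw [hf]
    _ = (1 + X ^ (2 * Q + 1)) * ((1 + X) * (1 - X ^ (a * (2 * Q + 2))) *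
        (1 + X ^ (a * (2 * n + (2 * Q + 2) - 1))) * num n (2 * Q) a) := by rw [key]
    _ = (1 + X ^ (2 * Q + 1)) * ((1 + X) * (geo a (2 * Q + 2) * (1 - X ^ (2 * Q + 2))) *
        (1 + X ^ (a * (2 * n + (2 * Q + 2) - 1))) * (g * poch (-X : ℚ[X]) (2 * Q))) := by
        rw [hg, hgeo]
    _ = (1 + X) * geo a (2 * Q + 2) * (1 + X ^ (a * (2 * n + (2 * Q + 2) - 1))) * g *
        (poch (-X : ℚ[X]) (2 * Q) * (1 + X ^ (2 * Q + 1)) * (1 - X ^ (2 * Q + 2))) := by ring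
    _ = _ := by rw [← hp]

theorem X_pow_nonneg (M i : ℕ) : 0 ≤ (X ^ M : ℚ[X]).coeff i := by
  rw [coeff_X_pow]
  split_ifs <;> norm_num

theorem one_add_X_pow_nonneg (M i : ℕ) : 0 ≤ (1 + X ^ M : ℚ[X]).coeff i := by
  rw [coeff_add]
  refine add_nonneg ?_ (X_pow_nonneg M i)
  rw [coeff_one]
  split_ifs <;> norm_num

theorem one_add_X_nonneg (i : ℕ) : 0 ≤ (1 + X : ℚ[X]).coeff i := by
  have := one_add_X_pow_nonneg 1 i
  rwa [pow_one] at this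

/-- Induction on `n` in steps of 2 (`den_dvd` gives the polynomials). -/
theorem V_nonneg_even {n k a : ℕ} (hk : Even k) (hk26 : 26 ≤ k) (ha : Odd a) (hP : PosAll k a)
    {f : ℚ[X]} (hf : f * poch (-X : ℚ[X]) k = num n k a) (i : ℕ) :
    0 ≤ (f * (1 + X ^ (k - 1))).coeff i := by
  have hgk : ∀ j, 0 ≤ (geo a k).coeff j := geo_nonneg a k
  have h26 : 24 ≤ k - 2 := by omega
  have hk2 : Even (k - 2) := by
    obtain ⟨P, hP⟩ := hk
    exact ⟨P - 1, by omega⟩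
  have hrest : ∀ (m : ℕ) (g : ℚ[X]), g * poch (-X : ℚ[X]) (k - 2) = num m (k - 2) a → ∀ (M i : ℕ),
      0 ≤ ((1 + X) * geo a k * (1 + X ^ M) * g).coeff i := by
    intro m g hg M
    have h1 := hP (k - 2) (by omega) h26 m (Even.mul_left hk2 m) g hg
    exact coeff_mul_nonneg (coeff_mul_nonneg (coeff_mul_nonneg one_add_X_nonneg hgk)
      (one_add_X_pow_nonneg M)) h1
  have main : ∀ m : ℕ, (∀ f : ℚ[X], f * poch (-X : ℚ[X]) k = num m k a → ∀ i,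
      0 ≤ (f * (1 + X ^ (k - 1))).coeff i) ∧ (∀ f : ℚ[X], f * poch (-X : ℚ[X]) k = num (m + 1) k a →
      ∀ i, 0 ≤ (f * (1 + X ^ (k - 1))).coeff i) := by
    intro m
    induction m with
    | zero =>
      constructor
      · intro f hf i
        obtain ⟨g, hg⟩ := den_dvd 0 (k - 2) a ha.pos
        have hg' : g * poch (-X : ℚ[X]) (k - 2) = num 0 (k - 2) a := by rw [hg]; ring
        rw [V_base (by norm_num) hk (by omega) ha hf hg']
        exact hrest 0 g hg' _ i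
      · intro f hf i
        obtain ⟨g, hg⟩ := den_dvd 1 (k - 2) a ha.pos
        have hg' : g * poch (-X : ℚ[X]) (k - 2) = num 1 (k - 2) a := by rw [hg]; ring
        rw [V_base (by norm_num) hk (by omega) ha hf hg']
        exact hrest 1 g hg' _ i
    | succ m ih =>
      refine ⟨ih.2, ?_⟩
      intro f hf i
      obtain ⟨g, hg⟩ := den_dvd (m + 2) (k - 2) a ha.pos
      have hg' : g * poch (-X : ℚ[X]) (k - 2) = num (m + 2) (k - 2) a := by rw [hg]; ring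
      obtain ⟨f', hf'⟩ := den_dvd m k a ha.pos
      have hf'' : f' * poch (-X : ℚ[X]) k = num m k a := by rw [hf']; ring
      rw [V_rec hk (by omega) ha hf hf'' hg', coeff_add]
      refine add_nonneg ?_ (hrest (m + 2) g hg' _ i)
      exact coeff_mul_nonneg (X_pow_nonneg _) (ih.1 f' hf'') i
  exact (main n).1 f hf i

/-- `k` odd, `n` even: `f_{n,k} (1 + q^k) = (1 + q) (1 + q^(a(n+k))) f_{n,k-1}`. -/
theorem V_nonneg_odd {n k a : ℕ} (hn : Even n) (hk : Odd k) (hk26 : 26 ≤ k) (ha : Odd a)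
    (hP : PosAll k a) {f : ℚ[X]} (hf : f * poch (-X : ℚ[X]) k = num n k a) (i : ℕ) :
    0 ≤ (f * (1 + X ^ k)).coeff i := by
  obtain ⟨P, rfl⟩ := hk
  obtain ⟨g, hg⟩ := den_dvd n (2 * P) a ha.pos
  have hg' : g * poch (-X : ℚ[X]) (2 * P) = num n (2 * P) a := by rw [hg]; ring
  have h1 := hP (2 * P) (by omega) (by omega) n (Even.mul_right hn _) g hg'
  have hodd : Odd (a * (n + 2 * P + 1)) := ha.mul ((hn.add (even_two_mul P)).add_one)
  have n1 : num n (2 * P + 1) a = (1 + X) * (1 + X ^ (a * (n + 2 * P + 1))) * num n (2 * P) a := by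
    unfold num
    rw [show (2 * P + 1 + 1) / 2 = P + 1 by omega, show (2 * P + 1) / 2 = P by omega,
      prod_range_succ, hodd.neg_pow, pow_succ]
    ring
  have hp : poch (-X : ℚ[X]) (2 * P + 1) = poch (-X : ℚ[X]) (2 * P) * (1 + X ^ (2 * P + 1)) := by
    rw [poch_succ, Odd.neg_pow ⟨P, rfl⟩]
    ring
  have key : f * (1 + X ^ (2 * P + 1)) = (1 + X) * (1 + X ^ (a * (n + 2 * P + 1))) * g := by
    refine mul_right_cancel₀ (pochX_ne (2 * P)) ?_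
    calc f * (1 + X ^ (2 * P + 1)) * poch (-X : ℚ[X]) (2 * P)
        = f * (poch (-X : ℚ[X]) (2 * P) * (1 + X ^ (2 * P + 1))) := by ring
      _ = f * poch (-X : ℚ[X]) (2 * P + 1) := by rw [hp]
      _ = num n (2 * P + 1) a := hf
      _ = (1 + X) * (1 + X ^ (a * (n + 2 * P + 1))) * num n (2 * P) a := n1
      _ = (1 + X) * (1 + X ^ (a * (n + 2 * P + 1))) * (g * poch (-X : ℚ[X]) (2 * P)) := by rw [hg']
      _ = _ := by ring
  rw [key]
  exact coeff_mul_nonneg (coeff_mul_nonneg one_add_X_nonneg (one_add_X_pow_nonneg _)) h1 i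

/-- Summary: with `L = k - 1` or `L = k`. -/
theorem V_nonneg {n k a : ℕ} (hnk : Even (n * k)) (hk26 : 26 ≤ k) (ha : Odd a)
    (hP : PosAll k a) {f : ℚ[X]} (hf : f * poch (-X : ℚ[X]) k = num n k a) :
    ∃ L : ℕ, 1 ≤ L ∧ L ≤ k ∧ ∀ i, 0 ≤ (f * (1 + X ^ L)).coeff i := by
  rcases Nat.even_or_odd k with hk | hk
  · exact ⟨k - 1, by omega, by omega, fun i => V_nonneg_even hk hk26 ha hP hf i⟩
  · have hn : Even n := by
      rcases Nat.even_mul.1 hnk with h | h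
      · exact h
      · exact absurd h (Nat.not_even_iff_odd.2 hk)
    exact ⟨k, by omega, le_rfl, fun i => V_nonneg_odd hn hk hk26 ha hP hf i⟩

end Pool.Agent.SignedQ.Core
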