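import Pool.Agent.Lib.MP_cf17a0_co.Mg.G041

/-! # Core region, `k t ≥ 1`, block Z2: the bins of parts 1 to 3 (helper97) -/

namespace Pool.Agent.SignedQ.Core

open Real Finset Pool.Agent.SignedQ.An

/-- Lower bound of a logarithm. -/
theorem Z2b_log {x lam : ℝ} (hx : 0 < x) (h0 : 0 ≤ lam) (h1 : lam ≤ 1)
    (h : ∑ i ∈ range 7, lam ^ i / (i.factorial : ℝ) + lam ^ 7 * (7 + 1) /
      ((Nat.factorial 7 : ℝ) * 7) ≤ x) : lam ≤ log x := by
  have h2 := exp_bound' h0 h1 (n := 7) (by norm_num)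
  rw [le_log_iff_exp_le hx]
  refine le_trans ?_ h
  exact_mod_cast h2

/-- Lower bound of an exponential. -/
theorem Z2b_exp {y E : ℝ} (m : ℕ) (f : ℝ) (hf : 0 ≤ f) (hy : m + f ≤ y)
    (h : E ≤ (27182818 / 10000000) ^ m * ∑ i ∈ range 9, f ^ i / (i.factorial : ℝ)) :
    E ≤ exp y := by
  have h1 : (27182818 / 10000000 : ℝ) ≤ exp 1 := by
    have := Real.exp_one_gt_d9
    linarith
  have h2 : (27182818 / 10000000 : ℝ) ^ m ≤ exp m := by
    rw [← exp_one_pow]
    exact pow_le_pow_left₀ (by norm_num) h1 m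
  have h3 := Real.sum_le_exp_of_nonneg hf 9
  calc E ≤ (27182818 / 10000000) ^ m * ∑ i ∈ range 9, f ^ i / (i.factorial : ℝ) := h
    _ ≤ exp m * exp f := mul_le_mul h2 h3 (sum_nonneg fun i _ => by positivity) (exp_pos _).le
    _ = exp (m + f) := (exp_add _ _).symm
    _ ≤ exp y := exp_le_exp.2 hy

theorem bin1_1 : Bin 1 (1143 / 2000) (251 / 1000) (2101 / 1000) (7443 / 10000) (3621 / 5000) (1 / 2) (3 / 5) (2231 / 10000) (105126 / 5) (1000 / 31) (571 / 500) 35 := by
  refine ⟨?_, ?_, ?_, ?_, ?_, ?_, ?_, ?_, ?_, ?_, ?_, ?_, ?_, ?_, ?_, ?_, ?_⟩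
  · norm_num
  · norm_num
  · norm_num
  · norm_num
  · norm_num
  · norm_num
  · norm_num
  · exact Z2b_log (by norm_num) (by norm_num) (by norm_num)
      (by norm_num [Finset.sum_range_succ, Nat.factorial])
  · norm_num
  · exact Z2b_exp 9 (1907 / 2000) (by norm_num) (by norm_num)
      (by norm_num [Finset.sum_range_succ, Nat.factorial])
  · norm_num
  · norm_num
  · norm_num
  · norm_num
  · norm_num
  · norm_num
  · norm_num

theorem bin1_2 : Bin 1 (1143 / 2000) (251 / 1000) (2101 / 1000) (7443 / 10000) (3621 / 5000) (3 / 5) (7 / 10) (1537 / 5000) (50387 / 10) (1000 / 31) (627 / 1000) 47 := by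
  refine ⟨?_, ?_, ?_, ?_, ?_, ?_, ?_, ?_, ?_, ?_, ?_, ?_, ?_, ?_, ?_, ?_, ?_⟩
  · norm_num
  · norm_num
  · norm_num
  · norm_num
  · norm_num
  · norm_num
  · norm_num
  · exact Z2b_log (by norm_num) (by norm_num) (by norm_num)
      (by norm_num [Finset.sum_range_succ, Nat.factorial])
  · norm_num
  · exact Z2b_exp 8 (7349 / 14000) (by norm_num) (by norm_num)
      (by norm_num [Finset.sum_range_succ, Nat.factorial])
  · norm_num
  · norm_num
  · norm_num
  · norm_num
  · norm_num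
  · norm_num
  · norm_num

theorem bin1_3 : Bin 1 (1143 / 2000) (251 / 1000) (2101 / 1000) (7443 / 10000) (3621 / 5000) (7 / 10) (17 / 20) (3987 / 10000) (5551 / 5) (1000 / 31) (131 / 400) 60 := by
  refine ⟨?_, ?_, ?_, ?_, ?_, ?_, ?_, ?_, ?_, ?_, ?_, ?_, ?_, ?_, ?_, ?_, ?_⟩
  · norm_num
  · norm_num
  · norm_num
  · norm_num
  · norm_num
  · norm_num
  · norm_num
  · exact Z2b_log (by norm_num) (by norm_num) (by norm_num)
      (by norm_num [Finset.sum_range_succ, Nat.factorial])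
  · norm_num
  · exact Z2b_exp 7 (419 / 34000) (by norm_num) (by norm_num)
      (by norm_num [Finset.sum_range_succ, Nat.factorial])
  · norm_num
  · norm_num
  · norm_num
  · norm_num
  · norm_num
  · norm_num
  · norm_num

theorem bin1_4 : Bin 1 (1143 / 2000) (251 / 1000) (2101 / 1000) (7443 / 10000) (3621 / 5000) (17 / 20) 1 (5437 / 10000) 385 (1000 / 31) (317 / 2500) 79 := by
  refine ⟨?_, ?_, ?_, ?_, ?_, ?_, ?_, ?_, ?_, ?_, ?_, ?_, ?_, ?_, ?_, ?_, ?_⟩
  · norm_num
  · norm_num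
  · norm_num
  · norm_num
  · norm_num
  · norm_num
  · norm_num
  · exact Z2b_log (by norm_num) (by norm_num) (by norm_num)
      (by norm_num [Finset.sum_range_succ, Nat.factorial])
  · norm_num
  · exact Z2b_exp 5 (1907 / 2000) (by norm_num) (by norm_num)
      (by norm_num [Finset.sum_range_succ, Nat.factorial])
  · norm_num
  · norm_num
  · norm_num
  · norm_num
  · norm_num
  · norm_num
  · norm_num

theorem bin1_5 : Bin 1 (1143 / 2000) (251 / 1000) (2101 / 1000) (7443 / 10000) (3621 / 5000) 1 (5 / 4) (6931 / 10000) (115987 / 1000) (1000 / 31) (57 / 1000) 95 := by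
  refine ⟨?_, ?_, ?_, ?_, ?_, ?_, ?_, ?_, ?_, ?_, ?_, ?_, ?_, ?_, ?_, ?_, ?_⟩
  · norm_num
  · norm_num
  · norm_num
  · norm_num
  · norm_num
  · norm_num
  · norm_num
  · exact Z2b_log (by norm_num) (by norm_num) (by norm_num)
      (by norm_num [Finset.sum_range_succ, Nat.factorial])
  · norm_num
  · exact Z2b_exp 4 (1507 / 2000) (by norm_num) (by norm_num)
      (by norm_num [Finset.sum_range_succ, Nat.factorial])
  · norm_num
  · norm_num
  · norm_num
  · norm_num
  · norm_num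
  · norm_num
  · norm_num

theorem bin1_6 : Bin 1 (1143 / 2000) (251 / 1000) (2101 / 1000) (7443 / 10000) (3621 / 5000) (5 / 4) (3 / 2) (9409 / 10000) (13029 / 250) (1000 / 31) (19 / 1000) 117 := by
  refine ⟨?_, ?_, ?_, ?_, ?_, ?_, ?_, ?_, ?_, ?_, ?_, ?_, ?_, ?_, ?_, ?_, ?_⟩
  · norm_num
  · norm_num
  · norm_num
  · norm_num
  · norm_num
  · norm_num
  · norm_num
  · exact Z2b_log (by norm_num) (by norm_num) (by norm_num)
      (by norm_num [Finset.sum_range_succ, Nat.factorial])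
  · norm_num
  · exact Z2b_exp 3 (1907 / 2000) (by norm_num) (by norm_num)
      (by norm_num [Finset.sum_range_succ, Nat.factorial])
  · norm_num
  · norm_num
  · norm_num
  · norm_num
  · norm_num
  · norm_num
  · norm_num

theorem bin2_1 : Bin 1 (93 / 250) (47 / 250) (2001 / 1000) (7443 / 10000) (3621 / 5000) (1 / 2) (11 / 20) (2231 / 10000) 52186 50 (3271 / 2500) 35 := by
  refine ⟨?_, ?_, ?_, ?_, ?_, ?_, ?_, ?_, ?_, ?_, ?_, ?_, ?_, ?_, ?_, ?_, ?_⟩
  · norm_num
  · norm_num
  · norm_num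
  · norm_num
  · norm_num
  · norm_num
  · norm_num
  · exact Z2b_log (by norm_num) (by norm_num) (by norm_num)
      (by norm_num [Finset.sum_range_succ, Nat.factorial])
  · norm_num
  · exact Z2b_exp 10 (18977 / 22000) (by norm_num) (by norm_num)
      (by norm_num [Finset.sum_range_succ, Nat.factorial])
  · norm_num
  · norm_num
  · norm_num
  · norm_num
  · norm_num
  · norm_num
  · norm_num

theorem bin2_2 : Bin 1 (93 / 250) (47 / 250) (2001 / 1000) (7443 / 10000) (3621 / 5000) (11 / 20) (3 / 5) (1321 / 5000) (105126 / 5) 50 (1939 / 2000) 41 := by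
  refine ⟨?_, ?_, ?_, ?_, ?_, ?_, ?_, ?_, ?_, ?_, ?_, ?_, ?_, ?_, ?_, ?_, ?_⟩
  · norm_num
  · norm_num
  · norm_num
  · norm_num
  · norm_num
  · norm_num
  · norm_num
  · exact Z2b_log (by norm_num) (by norm_num) (by norm_num)
      (by norm_num [Finset.sum_range_succ, Nat.factorial])
  · norm_num
  · exact Z2b_exp 9 (1907 / 2000) (by norm_num) (by norm_num)
      (by norm_num [Finset.sum_range_succ, Nat.factorial])
  · norm_num
  · norm_num
  · norm_num
  · norm_num
  · norm_num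
  · norm_num
  · norm_num

theorem bin2_3 : Bin 1 (93 / 250) (47 / 250) (2001 / 1000) (7443 / 10000) (3621 / 5000) (3 / 5) (13 / 20) (1537 / 5000) (48712 / 5) 50 (449 / 625) 47 := by
  refine ⟨?_, ?_, ?_, ?_, ?_, ?_, ?_, ?_, ?_, ?_, ?_, ?_, ?_, ?_, ?_, ?_, ?_⟩
  · norm_num
  · norm_num
  · norm_num
  · norm_num
  · norm_num
  · norm_num
  · norm_num
  · exact Z2b_log (by norm_num) (by norm_num) (by norm_num)
      (by norm_num [Finset.sum_range_succ, Nat.factorial])
  · norm_num
  · exact Z2b_exp 9 (4791 / 26000) (by norm_num) (by norm_num)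
      (by norm_num [Finset.sum_range_succ, Nat.factorial])
  · norm_num
  · norm_num
  · norm_num
  · norm_num
  · norm_num
  · norm_num
  · norm_num

theorem bin2_4 : Bin 1 (93 / 250) (47 / 250) (2001 / 1000) (7443 / 10000) (3621 / 5000) (13 / 20) (7 / 10) (881 / 2500) (50387 / 10) 50 (5063 / 10000) 54 := by
  refine ⟨?_, ?_, ?_, ?_, ?_, ?_, ?_, ?_, ?_, ?_, ?_, ?_, ?_, ?_, ?_, ?_, ?_⟩
  · norm_num
  · norm_num
  · norm_num
  · norm_num
  · norm_num
  · norm_num
  · norm_num
  · exact Z2b_log (by norm_num) (by norm_num) (by norm_num)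
      (by norm_num [Finset.sum_range_succ, Nat.factorial])
  · norm_num
  · exact Z2b_exp 8 (7349 / 14000) (by norm_num) (by norm_num)
      (by norm_num [Finset.sum_range_succ, Nat.factorial])
  · norm_num
  · norm_num
  · norm_num
  · norm_num
  · norm_num
  · norm_num
  · norm_num

theorem bin2_5 : Bin 1 (93 / 250) (47 / 250) (2001 / 1000) (7443 / 10000) (3621 / 5000) (7 / 10) (4 / 5) (3987 / 10000) (8629 / 5) 50 (469 / 1250) 60 := by
  refine ⟨?_, ?_, ?_, ?_, ?_, ?_, ?_, ?_, ?_, ?_, ?_, ?_, ?_, ?_, ?_, ?_, ?_⟩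
  · norm_num
  · norm_num
  · norm_num
  · norm_num
  · norm_num
  · norm_num
  · norm_num
  · exact Z2b_log (by norm_num) (by norm_num) (by norm_num)
      (by norm_num [Finset.sum_range_succ, Nat.factorial])
  · norm_num
  · exact Z2b_exp 7 (907 / 2000) (by norm_num) (by norm_num)
      (by norm_num [Finset.sum_range_succ, Nat.factorial])
  · norm_num
  · norm_num
  · norm_num
  · norm_num
  · norm_num
  · norm_num
  · norm_num

theorem bin2_6 : Bin 1 (93 / 250) (47 / 250) (2001 / 1000) (7443 / 10000) (3621 / 5000) (4 / 5) (9 / 10) (2473 / 5000) 750 50 (49 / 250) 73 := by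
  refine ⟨?_, ?_, ?_, ?_, ?_, ?_, ?_, ?_, ?_, ?_, ?_, ?_, ?_, ?_, ?_, ?_, ?_⟩
  · norm_num
  · norm_num
  · norm_num
  · norm_num
  · norm_num
  · norm_num
  · norm_num
  · exact Z2b_log (by norm_num) (by norm_num) (by norm_num)
      (by norm_num [Finset.sum_range_succ, Nat.factorial])
  · norm_num
  · exact Z2b_exp 6 (3721 / 6000) (by norm_num) (by norm_num)
      (by norm_num [Finset.sum_range_succ, Nat.factorial])
  · norm_num
  · norm_num
  · norm_num
  · norm_num
  · norm_num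
  · norm_num
  · norm_num

theorem bin2_7 : Bin 1 (93 / 250) (47 / 250) (2001 / 1000) (7443 / 10000) (3621 / 5000) (9 / 10) 1 (5933 / 10000) 385 50 (269 / 2500) 85 := by
  refine ⟨?_, ?_, ?_, ?_, ?_, ?_, ?_, ?_, ?_, ?_, ?_, ?_, ?_, ?_, ?_, ?_, ?_⟩
  · norm_num
  · norm_num
  · norm_num
  · norm_num
  · norm_num
  · norm_num
  · norm_num
  · exact Z2b_log (by norm_num) (by norm_num) (by norm_num)
      (by norm_num [Finset.sum_range_succ, Nat.factorial])
  · norm_num
  · exact Z2b_exp 5 (1907 / 2000) (by norm_num) (by norm_num)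
      (by norm_num [Finset.sum_range_succ, Nat.factorial])
  · norm_num
  · norm_num
  · norm_num
  · norm_num
  · norm_num
  · norm_num
  · norm_num

theorem bin2_8 : Bin 1 (93 / 250) (47 / 250) (2001 / 1000) (7443 / 10000) (3621 / 5000) 1 (5 / 4) (6931 / 10000) (115987 / 1000) 50 (759 / 10000) 92 := by
  refine ⟨?_, ?_, ?_, ?_, ?_, ?_, ?_, ?_, ?_, ?_, ?_, ?_, ?_, ?_, ?_, ?_, ?_⟩
  · norm_num
  · norm_num
  · norm_num
  · norm_num
  · norm_num
  · norm_num
  · norm_num
  · exact Z2b_log (by norm_num) (by norm_num) (by norm_num)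
      (by norm_num [Finset.sum_range_succ, Nat.factorial])
  · norm_num
  · exact Z2b_exp 4 (1507 / 2000) (by norm_num) (by norm_num)
      (by norm_num [Finset.sum_range_succ, Nat.factorial])
  · norm_num
  · norm_num
  · norm_num
  · norm_num
  · norm_num
  · norm_num
  · norm_num

theorem bin2_9 : Bin 1 (93 / 250) (47 / 250) (2001 / 1000) (7443 / 10000) (3621 / 5000) (5 / 4) (3 / 2) (9409 / 10000) (13029 / 250) 50 (147 / 5000) 111 := by
  refine ⟨?_, ?_, ?_, ?_, ?_, ?_, ?_, ?_, ?_, ?_, ?_, ?_, ?_, ?_, ?_, ?_, ?_⟩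
  · norm_num
  · norm_num
  · norm_num
  · norm_num
  · norm_num
  · norm_num
  · norm_num
  · exact Z2b_log (by norm_num) (by norm_num) (by norm_num)
      (by norm_num [Finset.sum_range_succ, Nat.factorial])
  · norm_num
  · exact Z2b_exp 3 (1907 / 2000) (by norm_num) (by norm_num)
      (by norm_num [Finset.sum_range_succ, Nat.factorial])
  · norm_num
  · norm_num
  · norm_num
  · norm_num
  · norm_num
  · norm_num
  · norm_num

theorem bin3_1 : Bin 1 (93 / 250) (47 / 250) (2001 / 1000) (7443 / 10000) (3621 / 5000) (1 / 2) (3 / 5) (2231 / 10000) (105126 / 5) 125 (257 / 2500) 95 := by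
  refine ⟨?_, ?_, ?_, ?_, ?_, ?_, ?_, ?_, ?_, ?_, ?_, ?_, ?_, ?_, ?_, ?_, ?_⟩
  · norm_num
  · norm_num
  · norm_num
  · norm_num
  · norm_num
  · norm_num
  · norm_num
  · exact Z2b_log (by norm_num) (by norm_num) (by norm_num)
      (by norm_num [Finset.sum_range_succ, Nat.factorial])
  · norm_num
  · exact Z2b_exp 9 (1907 / 2000) (by norm_num) (by norm_num)
      (by norm_num [Finset.sum_range_succ, Nat.factorial])
  · norm_num
  · norm_num
  · norm_num
  · norm_num
  · norm_num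
  · norm_num
  · norm_num

theorem bin3_2 : Bin 1 (93 / 250) (47 / 250) (2001 / 1000) (7443 / 10000) (3621 / 5000) (3 / 5) (3 / 4) (1537 / 5000) (14227 / 5) 125 (99 / 5000) 128 := by
  refine ⟨?_, ?_, ?_, ?_, ?_, ?_, ?_, ?_, ?_, ?_, ?_, ?_, ?_, ?_, ?_, ?_, ?_⟩
  · norm_num
  · norm_num
  · norm_num
  · norm_num
  · norm_num
  · norm_num
  · norm_num
  · exact Z2b_log (by norm_num) (by norm_num) (by norm_num)
      (by norm_num [Finset.sum_range_succ, Nat.factorial])
  · norm_num
  · exact Z2b_exp 7 (1907 / 2000) (by norm_num) (by norm_num)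
      (by norm_num [Finset.sum_range_succ, Nat.factorial])
  · norm_num
  · norm_num
  · norm_num
  · norm_num
  · norm_num
  · norm_num
  · norm_num

theorem bin3_3 : Bin 1 (93 / 250) (47 / 250) (2001 / 1000) (7443 / 10000) (3621 / 5000) (3 / 4) 1 (2231 / 5000) 385 125 (17 / 10000) 178 := by
  refine ⟨?_, ?_, ?_, ?_, ?_, ?_, ?_, ?_, ?_, ?_, ?_, ?_, ?_, ?_, ?_, ?_, ?_⟩
  · norm_num
  · norm_num
  · norm_num
  · norm_num
  · norm_num
  · norm_num
  · norm_num
  · exact Z2b_log (by norm_num) (by norm_num) (by norm_num)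
      (by norm_num [Finset.sum_range_succ, Nat.factorial])
  · norm_num
  · exact Z2b_exp 5 (1907 / 2000) (by norm_num) (by norm_num)
      (by norm_num [Finset.sum_range_succ, Nat.factorial])
  · norm_num
  · norm_num
  · norm_num
  · norm_num
  · norm_num
  · norm_num
  · norm_num

theorem bin3_4 : Bin 1 (93 / 250) (47 / 250) (2001 / 1000) (7443 / 10000) (3621 / 5000) 1 (3 / 2) (6931 / 10000) (13029 / 250) 125 (1 / 10000) 234 := by
  refine ⟨?_, ?_, ?_, ?_, ?_, ?_, ?_, ?_, ?_, ?_, ?_, ?_, ?_, ?_, ?_, ?_, ?_⟩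
  · norm_num
  · norm_num
  · norm_num
  · norm_num
  · norm_num
  · norm_num
  · norm_num
  · exact Z2b_log (by norm_num) (by norm_num) (by norm_num)
      (by norm_num [Finset.sum_range_succ, Nat.factorial])
  · norm_num
  · exact Z2b_exp 3 (1907 / 2000) (by norm_num) (by norm_num)
      (by norm_num [Finset.sum_range_succ, Nat.factorial])
  · norm_num
  · norm_num
  · norm_num
  · norm_num
  · norm_num
  · norm_num
  · norm_num

/-- Part 1. -/
theorem part1 {n k a : ℕ} {t : ℝ} (h : Hi n k a t)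
    (hS : SData n k a t 1 (5715 / 10000) (251 / 1000) (2101 / 1000) (7443 / 10000) (7242 / 10000)) :
    T2P n k a t (27 / 100) := by
  have ht := h.hd.2.1
  have ht1 := h.hd.2.2.1
  have hS' : SData n k a t 1 (1143 / 2000) (251 / 1000) (2101 / 1000) (7443 / 10000) (3621 / 5000) := by
    norm_num at hS ⊢
    exact hS
  have hH : ((1000 / 31) : ℝ) * (2 * t) ≤ 1 := by linarith
  have b1 := bin_II h hS' bin1_1 hH
  have b2 := bin_II h hS' bin1_2 hH
  have b3 := bin_II h hS' bin1_3 hH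
  have b4 := bin_II h hS' bin1_4 hH
  have b5 := bin_II h hS' bin1_5 hH
  have b6 := bin_II h hS' bin1_6 hH
  have c2 := bins_add h b1 b2
  have c3 := bins_add h c2 b3
  have c4 := bins_add h c3 b4
  have c5 := bins_add h c4 b5
  have c6 := bins_add h c5 b6
  apply T2P_of_bins
  refine c6.trans ?_
  norm_num

/-- Part 2. -/
theorem part2 {n k a : ℕ} {t : ℝ} (h : Hi n k a t) (h1 : 100 * t ≤ 1)
    (hS : SData n k a t 1 (372 / 1000) (188 / 1000) (2001 / 1000) (7443 / 10000) (7242 / 10000)) :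
    T2P n k a t (27 / 100) := by
  have ht := h.hd.2.1
  have ht1 := h.hd.2.2.1
  have hS' : SData n k a t 1 (93 / 250) (47 / 250) (2001 / 1000) (7443 / 10000) (3621 / 5000) := by
    norm_num at hS ⊢
    exact hS
  have hH : (50 : ℝ) * (2 * t) ≤ 1 := by linarith
  have b1 := bin_II h hS' bin2_1 hH
  have b2 := bin_II h hS' bin2_2 hH
  have b3 := bin_II h hS' bin2_3 hH
  have b4 := bin_II h hS' bin2_4 hH
  have b5 := bin_II h hS' bin2_5 hH
  have b6 := bin_II h hS' bin2_6 hH
  have b7 := bin_II h hS' bin2_7 hH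
  have b8 := bin_II h hS' bin2_8 hH
  have b9 := bin_II h hS' bin2_9 hH
  have c2 := bins_add h b1 b2
  have c3 := bins_add h c2 b3
  have c4 := bins_add h c3 b4
  have c5 := bins_add h c4 b5
  have c6 := bins_add h c5 b6
  have c7 := bins_add h c6 b7
  have c8 := bins_add h c7 b8
  have c9 := bins_add h c8 b9
  apply T2P_of_bins
  refine c9.trans ?_
  norm_num

/-- Part 3. -/
theorem part3 {n k a : ℕ} {t : ℝ} (h : Hi n k a t) (h1 : 250 * t ≤ 1)
    (hS : SData n k a t 1 (372 / 1000) (188 / 1000) (2001 / 1000) (7443 / 10000) (7242 / 10000)) :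
    T2P n k a t (2 / 100) := by
  have ht := h.hd.2.1
  have ht1 := h.hd.2.2.1
  have hS' : SData n k a t 1 (93 / 250) (47 / 250) (2001 / 1000) (7443 / 10000) (3621 / 5000) := by
    norm_num at hS ⊢
    exact hS
  have hH : (125 : ℝ) * (2 * t) ≤ 1 := by linarith
  have b1 := bin_II h hS' bin3_1 hH
  have b2 := bin_II h hS' bin3_2 hH
  have b3 := bin_II h hS' bin3_3 hH
  have b4 := bin_II h hS' bin3_4 hH
  have c2 := bins_add h b1 b2
  have c3 := bins_add h c2 b3
  have c4 := bins_add h c3 b4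
  apply T2P_of_bins
  refine c4.trans ?_
  norm_num

end Pool.Agent.SignedQ.Core
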